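import Pool.Agent.TH954.SObs
import Mathlib.RingTheory.Polynomial.Cyclotomic.Roots

/-!
# A place at which no element of a finite set has a given power residue class
-/

set_option autoImplicit false
set_option linter.unusedSectionVars false

open IsDedekindDomain NumberField Pool.Agent.W401.Cheb Pool.Agent.TH954

namespace Pool.Agent.V7H2.KS

variable {K : Type} [Field K] [NumberField K]

/-- an automorphism moving all the radicals gives a place without solutions -/
theorem frob_step (T : Finset (AlgebraicClosure K))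
    (hT : ∀ σ : AlgebraicClosure K ≃ₐ[K] AlgebraicClosure K, ∀ θ ∈ T, σ θ ∈ T)
    (hint : ∀ θ ∈ T, IsIntegral ℤ θ) (hT0 : ∀ θ ∈ T, θ ≠ 0) {n : ℕ} (hn : 0 < n)
    {c : 𝓞 K} (hc : c ≠ 0) (ρ : AlgebraicClosure K → AlgebraicClosure K)
    (hρ : ∀ θ ∈ T, ρ θ ^ n = algebraMap K (AlgebraicClosure K) (c : K) ^ (n - 1) * θ)
    {ζ : AlgebraicClosure K} (hζ : IsPrimitiveRoot ζ n)
    {σ : AlgebraicClosure K ≃ₐ[K] AlgebraicClosure K} (hσζ : σ ζ = ζ)
    (hσT : ∀ θ ∈ T, σ θ = θ) (hσρ : ∀ θ ∈ T, σ (ρ θ) ≠ ρ θ) :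
    ∃ v : HeightOneSpectrum (𝓞 K),
      ∀ (ι : AlgebraicClosure K →ₐ[K] AlgebraicClosure (v.adicCompletion K)), ∀ θ ∈ T,
      ∀ z : v.adicCompletion K, ι θ ≠
        algebraMap (v.adicCompletion K) (AlgebraicClosure (v.adicCompletion K))
          (toLoc v c * z ^ n) := by
  classical
  have hn1 : 1 ≤ n := hn
  have hnz : NeZero n := ⟨hn.ne'⟩
  set cA : AlgebraicClosure K := algebraMap K (AlgebraicClosure K) (c : K) with hcA
  have hcA0 : cA ≠ 0 := by
    rw [hcA, Ne, map_eq_zero]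
    exact fun h => hc (RingOfIntegers.coe_injective h)
  have hρ0 : ∀ θ ∈ T, ρ θ ≠ 0 := by
    intro θ hθ h0
    have h1 := hρ θ hθ
    rw [h0, zero_pow hn.ne'] at h1
    exact mul_ne_zero (pow_ne_zero _ hcA0) (hT0 θ hθ) h1.symm
  have hσn : ∀ θ ∈ T, σ (ρ θ ^ n) = ρ θ ^ n := by
    intro θ hθ
    rw [hρ θ hθ, map_mul, map_pow, hcA, σ.commutes, hσT θ hθ]
  -- the second field
  obtain ⟨L', _, _, _, i', τ, κ', hκi', hκτ, hκs'⟩ := Pool.Agent.TH120.Sec.exists_L K
    ((insert ζ (T ∪ T.image ρ) : Finset (AlgebraicClosure K)) : Set (AlgebraicClosure K))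
    (Finset.finite_toSet _) σ
  have htex : ∀ θ, ∃ s : 𝓞 L', θ ∈ T → κ' s = θ := by
    intro θ
    by_cases hθ : θ ∈ T
    · obtain ⟨y, hy⟩ := exists_int_preimage κ' (hint θ hθ)
        (hκs' θ (Finset.mem_coe.2 (Finset.mem_insert_of_mem (Finset.mem_union_left _ hθ))))
      exact ⟨y, fun _ => hy⟩
    · exact ⟨0, fun h => absurd h hθ⟩
  choose t ht using htex
  obtain ⟨Z, hZ⟩ : ∃ Z : 𝓞 L', κ' Z = ζ := by
    refine exists_int_preimage κ' ?_ (hκs' ζ (Finset.mem_coe.2 (Finset.mem_insert_self _ _)))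
    exact hζ.isIntegral hn
  have hcint : IsIntegral ℤ cA := by
    rw [hcA]
    exact c.2.map (IsScalarTower.toAlgHom ℤ K (AlgebraicClosure K))
  have hρint : ∀ θ ∈ T, IsIntegral ℤ (ρ θ) := by
    intro θ hθ
    refine IsIntegral.of_pow hn ?_
    rw [hρ θ hθ]
    exact (hcint.pow _).mul (hint θ hθ)
  have hRex : ∀ θ, ∃ s : 𝓞 L', θ ∈ T → κ' s = ρ θ := by
    intro θ
    by_cases hθ : θ ∈ T
    · obtain ⟨y, hy⟩ := exists_int_preimage κ' (hρint θ hθ)
        (hκs' _ (Finset.mem_coe.2 (Finset.mem_insert_of_mem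
          (Finset.mem_union_right _ (Finset.mem_image_of_mem ρ hθ)))))
      exact ⟨y, fun _ => hy⟩
    · exact ⟨0, fun h => absurd h hθ⟩
  choose R hR using hRex
  set iO : 𝓞 K →+* 𝓞 L' := RingOfIntegers.mapRingHom i' with hiO
  have hiOc : ∀ x : 𝓞 K, κ' (iO x : L') = algebraMap K (AlgebraicClosure K) (x : K) :=
    fun x => hκi' x
  have hR0 : ∀ θ ∈ T, R θ ≠ 0 := by
    intro θ hθ h0
    apply hρ0 θ hθ
    rw [← hR θ hθ, h0]
    simp
  have hRl : ∀ θ ∈ T, (R θ) ^ n = iO c ^ (n - 1) * t θ := by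
    intro θ hθ
    apply RingOfIntegers.coe_injective
    apply κ'.injective
    rw [map_pow, map_pow, hR θ hθ, hρ θ hθ, map_mul, map_mul, map_pow, map_pow, ht θ hθ]
    have h1 := hiOc c
    rw [← hcA] at h1
    rw [← h1]
  -- the root of unity
  have hZp : IsPrimitiveRoot Z n := by
    have h1 : IsPrimitiveRoot ((κ'.comp (algebraMap (𝓞 L') L')) Z) n := by
      rw [RingHom.comp_apply]
      rw [show κ' ((algebraMap (𝓞 L') L') Z) = ζ from hZ]
      exact hζ
    exact IsPrimitiveRoot.of_map_of_injective h1 (κ'.injective.comp RingOfIntegers.coe_injective)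
  have hZτ : τ • Z = Z := by
    apply RingOfIntegers.coe_injective
    change τ (Z : L') = (Z : L')
    apply κ'.injective
    rw [hκτ, hZ, hσζ]
  -- the roots of unity belonging to the radicals
  have hξex : ∀ θ, ∃ ξ : 𝓞 L', θ ∈ T → (τ • (R θ) = ξ * R θ ∧ ξ ^ n = 1 ∧ ξ ≠ 1) := by
    intro θ
    by_cases hθ : θ ∈ T
    · have hR0' : (R θ : L') ≠ 0 := fun h0 => hR0 θ hθ (RingOfIntegers.coe_injective (by
        rw [map_zero]; exact h0))
      have hpow : (τ (R θ : L') / (R θ : L')) ^ n = 1 := by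
        apply κ'.injective
        rw [map_pow, map_div₀, hκτ, hR θ hθ, div_pow, map_one, ← map_pow, hσn θ hθ,
          div_self (pow_ne_zero _ (hρ0 θ hθ))]
      have hint' : IsIntegral ℤ (τ (R θ : L') / (R θ : L')) := by
        refine IsIntegral.of_pow hn ?_
        rw [hpow]
        exact isIntegral_one
      refine ⟨⟨_, hint'⟩, fun _ => ⟨?_, ?_, ?_⟩⟩
      · apply RingOfIntegers.coe_injective
        change τ (R θ : L') = (τ (R θ : L') / (R θ : L')) * (R θ : L')
        rw [div_mul_cancel₀ _ hR0']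
      · apply RingOfIntegers.coe_injective
        change (τ (R θ : L') / (R θ : L')) ^ n = 1
        exact hpow
      · intro h1
        apply hσρ θ hθ
        have h2 : τ (R θ : L') / (R θ : L') = 1 := congrArg (fun x : 𝓞 L' => (x : L')) h1
        rw [div_eq_one_iff_eq hR0'] at h2
        rw [← hR θ hθ, ← hκτ, h2]
    · exact ⟨0, fun h => absurd h hθ⟩
  choose ξ hξ using hξex
  have hcO : iO c ≠ 0 := by
    intro h0
    apply hcA0
    rw [hcA, ← hiOc c, h0]
    simp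
  have hnO : ((n : ℕ) : 𝓞 L') ≠ 0 := by exact_mod_cast hn.ne'
  obtain ⟨m, hm, hm'⟩ := Pool.Agent.W723.SecC.nz L'
    (((n : ℕ) : 𝓞 L') * iO c * ∏ θ ∈ T, (R θ * (ξ θ - 1)))
    (mul_ne_zero (mul_ne_zero hnO hcO) (Finset.prod_ne_zero_iff.2 (fun θ hθ => mul_ne_zero
      (hR0 θ hθ) (sub_ne_zero.2 (hξ θ hθ).2.2))))
  obtain ⟨p, ⟨hp, hxp⟩, hpgt⟩ := (infinite_frob L' τ).exists_gt m
  have hpm : ¬ p ∣ m := fun hd => by
    have h1 := Nat.le_of_dvd hm hd
    omega
  have : Fact p.Prime := ⟨hp⟩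
  obtain ⟨φ, hφ⟩ : ∃ φ : 𝓞 L' →+* AlgebraicClosure (ZMod p), HasFrob p φ τ := by
    unfold xp at hxp
    rw [dif_pos hp] at hxp
    by_contra h
    push Not at h
    apply hxp
    rw [Nat.card_eq_zero]
    left
    exact ⟨fun x => h x.1 x.2⟩
  have hφE : φ (((n : ℕ) : 𝓞 L') * iO c * ∏ θ ∈ T, (R θ * (ξ θ - 1))) ≠ 0 := by
    refine hm' _ φ ?_
    rw [Ne, CharP.cast_eq_zero_iff (AlgebraicClosure (ZMod p)) p]
    exact hpm
  rw [map_mul, map_mul, map_prod] at hφE
  have hφc : φ (iO c) ≠ 0 := right_ne_zero_of_mul (left_ne_zero_of_mul hφE)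
  have hφn : ((n : ℕ) : AlgebraicClosure (ZMod p)) ≠ 0 := by
    have h1 := left_ne_zero_of_mul (left_ne_zero_of_mul hφE)
    rwa [map_natCast] at h1
  have hφθ : ∀ θ ∈ T, φ (R θ) ≠ 0 ∧ φ (ξ θ) ≠ 1 := by
    intro θ hθ
    have h1 := Finset.prod_ne_zero_iff.1 (right_ne_zero_of_mul hφE) θ hθ
    rw [map_mul, map_sub, map_one] at h1
    exact ⟨left_ne_zero_of_mul h1, fun h2 => right_ne_zero_of_mul h1 (by rw [h2, sub_self])⟩
  have hφi : ∀ x : 𝓞 K, φ (iO x) ^ p = φ (iO x) := by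
    intro x
    have h1 := hφ (iO x)
    have h2 : τ • (iO x) = iO x := by
      apply RingOfIntegers.coe_injective
      apply κ'.injective
      change κ' (τ (iO x : L')) = _
      rw [hκτ, hiOc, σ.commutes]
    rw [h2] at h1
    exact h1.symm
  -- the order of the residue field
  have hndvd : n ∣ p - 1 := by
    have hne : NeZero ((n : ℕ) : AlgebraicClosure (ZMod p)) := ⟨hφn⟩
    have h1 : IsPrimitiveRoot (φ Z) n := by
      rw [← Polynomial.isRoot_cyclotomic_iff, ← Polynomial.map_cyclotomic n φ]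
      exact (hZp.isRoot_cyclotomic hn).map
    have h2 : φ Z ^ p = φ Z := by
      have h3 := hφ Z
      rw [hZτ] at h3
      exact h3.symm
    have h0 : φ Z ≠ 0 := h1.ne_zero hn.ne'
    apply h1.dvd_of_pow_eq_one
    have h6 : φ Z ^ (p - 1) * φ Z = 1 * φ Z := by
      rw [← pow_succ, Nat.sub_add_cancel hp.one_le, one_mul]
      exact h2
    exact mul_right_cancel₀ h0 h6
  -- the place
  set P : Ideal (𝓞 K) := RingHom.ker (φ.comp iO) with hP
  have hPprime : P.IsPrime := RingHom.ker_isPrime _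
  have hP0 : P ≠ ⊥ := by
    intro h0
    have hpP : ((p : ℕ) : 𝓞 K) ∈ P := by
      rw [hP, RingHom.mem_ker, map_natCast]
      exact CharP.cast_eq_zero _ p
    rw [h0, Ideal.mem_bot] at hpP
    have : p = 0 := by exact_mod_cast hpP
    exact hp.ne_zero this
  let v : HeightOneSpectrum (𝓞 K) := ⟨P, hPprime, hP0⟩
  have hcv : c ∉ v.asIdeal := fun h => hφc ((RingHom.mem_ker).1 h)
  obtain ⟨q, hqm, hq⟩ := exists_int_poly T hT hint
  refine ⟨v, fun ι θ hθ z hz => ?_⟩
  obtain ⟨r, hr⟩ := local_root v hqm (0 : 𝓞 K) hcv hn1 z (by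
    apply (algebraMap (v.adicCompletion K) (AlgebraicClosure (v.adicCompletion K))).injective
    rw [Polynomial.hom_eval₂, map_zero, map_zero, zero_add, ← hz]
    have e1 : (algebraMap (v.adicCompletion K) (AlgebraicClosure (v.adicCompletion K))).comp
        (toLoc v) = (ι : AlgebraicClosure K →+* _).comp
          (algebraMap (𝓞 K) (AlgebraicClosure K)) := by
      apply RingHom.ext
      intro x
      exact (ι.commutes (x : K)).symm
    rw [e1]
    change Polynomial.eval₂ _ ((ι : AlgebraicClosure K →+*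
      AlgebraicClosure (v.adicCompletion K)) θ) _ = 0
    rw [← Polynomial.hom_eval₂, Polynomial.eval₂_eq_eval_map, hq, Polynomial.eval_prod,
      Finset.prod_eq_zero hθ (by simp), map_zero])
  rw [zero_add] at hr
  have hr' : φ (iO (q.eval (c * r ^ n))) = 0 := (RingHom.mem_ker).1 hr
  have hqO : q.map iO = ∏ θ ∈ T, (Polynomial.X - Polynomial.C (t θ)) := by
    have hinj : Function.Injective (κ'.comp (algebraMap (𝓞 L') L')) :=
      κ'.injective.comp RingOfIntegers.coe_injective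
    apply Polynomial.map_injective _ hinj
    rw [Polynomial.map_map, Polynomial.map_prod]
    have e1 : (κ'.comp (algebraMap (𝓞 L') L')).comp iO =
        algebraMap (𝓞 K) (AlgebraicClosure K) := by
      apply RingHom.ext
      intro x
      exact hiOc x
    rw [e1, hq]
    refine Finset.prod_congr rfl (fun θ hθ => ?_)
    rw [Polynomial.map_sub, Polynomial.map_X, Polynomial.map_C]
    rw [show (κ'.comp (algebraMap (𝓞 L') L')) (t θ) = θ from ht θ hθ]
  have hr2 : ∃ θ' ∈ T, φ (iO (c * r ^ n)) = φ (t θ') := by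
    have e1 : iO (q.eval (c * r ^ n)) = (q.map iO).eval (iO (c * r ^ n)) := by
      rw [Polynomial.eval_map]
      exact (Polynomial.hom_eval₂ q (RingHom.id _) iO _).trans (by rw [RingHom.comp_id])
    rw [e1, hqO, Polynomial.eval_prod, map_prod, Finset.prod_eq_zero_iff] at hr'
    obtain ⟨θ', hθ', h1⟩ := hr'
    refine ⟨θ', hθ', ?_⟩
    rw [Polynomial.eval_sub, Polynomial.eval_X, Polynomial.eval_C, map_sub, sub_eq_zero] at h1
    exact h1
  obtain ⟨θ', hθ', h2⟩ := hr2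
  obtain ⟨hR1, hR2⟩ := hφθ θ' hθ'
  obtain ⟨hξ1, hξ2, hξ3⟩ := hξ θ' hθ'
  have h3 : φ (R θ') ^ n = φ (iO (c * r)) ^ n := by
    rw [← map_pow, hRl θ' hθ', map_mul, ← h2, map_pow]
    simp only [map_mul, map_pow]
    have : n = (n - 1) + 1 := by omega
    conv_rhs => rw [this]
    conv_lhs => rw [this]
    simp only [Nat.add_sub_cancel]
    ring
  have hw0 : φ (iO (c * r)) ≠ 0 := by
    intro h0
    rw [h0, zero_pow hn.ne'] at h3
    exact hR1 (pow_eq_zero_iff hn.ne' |>.1 h3)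
  apply hR2
  have h7 : (φ (R θ') / φ (iO (c * r))) ^ n = 1 := by
    rw [div_pow, h3, div_self (pow_ne_zero _ hw0)]
  have h8 : (φ (R θ') / φ (iO (c * r))) ^ (p - 1) = 1 := by
    obtain ⟨e, he⟩ := hndvd
    rw [he, pow_mul, h7, one_pow]
  have h9 : (φ (R θ') / φ (iO (c * r))) ^ p = φ (ξ θ') * (φ (R θ') / φ (iO (c * r))) := by
    rw [div_pow, hφi, ← hφ (R θ'), hξ1, map_mul, mul_div_assoc]
  have h10 : (φ (R θ') / φ (iO (c * r))) ^ p =
      (φ (R θ') / φ (iO (c * r))) ^ (p - 1) * (φ (R θ') / φ (iO (c * r))) := by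
    rw [← pow_succ, Nat.sub_add_cancel hp.one_le]
  rw [h10, h8, one_mul] at h9
  have h11 : φ (R θ') / φ (iO (c * r)) ≠ 0 := div_ne_zero hR1 hw0
  exact (mul_right_cancel₀ h11 ((one_mul _).trans h9)).symm

end Pool.Agent.V7H2.KS
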