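import Pool.Agent.V7H2.KS.Norm
import Mathlib.RingTheory.ClassGroup.Basic
import Mathlib.NumberTheory.NumberField.ClassNumber

/-!
# Elements whose valuations are given up to `n`-th powers
-/

set_option autoImplicit false

namespace Pool.Agent.V7H2.KS

open IsDedekindDomain HeightOneSpectrum NumberField nonZeroDivisors

variable {K : Type} [Field K] [NumberField K]

/-- the fractional ideal with the exponents `m v` -/
noncomputable def idl (m : HeightOneSpectrum (𝓞 K) → ℤ) : FractionalIdeal (𝓞 K)⁰ K :=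
  ∏ᶠ v : HeightOneSpectrum (𝓞 K), (v.asIdeal : FractionalIdeal (𝓞 K)⁰ K) ^ m v

lemma coe_v_ne_zero (v : HeightOneSpectrum (𝓞 K)) :
    (v.asIdeal : FractionalIdeal (𝓞 K)⁰ K) ≠ 0 :=
  FractionalIdeal.coeIdeal_ne_zero.2 v.ne_bot

lemma idl_ne_zero (m : HeightOneSpectrum (𝓞 K) → ℤ) : idl m ≠ 0 := by
  unfold idl
  exact finprod_induction (fun x : FractionalIdeal (𝓞 K)⁰ K => x ≠ 0) one_ne_zero
    (fun _ _ => mul_ne_zero) (fun v => zpow_ne_zero _ (coe_v_ne_zero v))

lemma supp_fin' {m : HeightOneSpectrum (𝓞 K) → ℤ} (hm : {v | m v ≠ 0}.Finite) :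
    (Function.mulSupport fun v : HeightOneSpectrum (𝓞 K) =>
      (v.asIdeal : FractionalIdeal (𝓞 K)⁰ K) ^ m v).Finite := by
  refine hm.subset (fun v hv h0 => hv ?_)
  change (v.asIdeal : FractionalIdeal (𝓞 K)⁰ K) ^ m v = 1
  rw [h0, zpow_zero]

lemma idl_add_mul {m k : HeightOneSpectrum (𝓞 K) → ℤ} (hm : {v | m v ≠ 0}.Finite)
    (hk : {v | k v ≠ 0}.Finite) (n : ℕ) :
    idl (fun v => m v + n * k v) = idl m * idl k ^ n := by
  unfold idl
  rw [finprod_pow (supp_fin' hk), ← finprod_mul_distrib (supp_fin' hm)]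
  · refine finprod_congr (fun v => ?_)
    rw [zpow_add₀ (coe_v_ne_zero v), mul_comm (n : ℤ), zpow_mul, zpow_natCast]
  · refine (supp_fin' hk).subset (fun v hv h0 => hv ?_)
    change ((v.asIdeal : FractionalIdeal (𝓞 K)⁰ K) ^ k v) ^ n = 1
    change (v.asIdeal : FractionalIdeal (𝓞 K)⁰ K) ^ k v = 1 at h0
    rw [h0, one_pow]

lemma idl_of_val {x : K} (hx : x ≠ 0) {m : HeightOneSpectrum (𝓞 K) → ℤ}
    (h : ∀ v : HeightOneSpectrum (𝓞 K), v.valuation K x = WithZero.exp (-(m v))) :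
    {v | m v ≠ 0}.Finite ∧ FractionalIdeal.spanSingleton (𝓞 K)⁰ x = idl m := by
  have hm : m = fun v => FractionalIdeal.count K v
      (FractionalIdeal.spanSingleton (𝓞 K)⁰ x) := by
    funext v
    have h1 := h v
    rw [valuation_eq_exp_count v hx, WithZero.exp_inj, neg_inj] at h1
    exact h1.symm
  have hI : FractionalIdeal.spanSingleton (𝓞 K)⁰ x ≠ 0 := by
    rwa [Ne, FractionalIdeal.spanSingleton_eq_zero_iff]
  refine ⟨by rw [hm]; exact count_finite x, ?_⟩
  rw [hm]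
  exact (FractionalIdeal.finprod_heightOneSpectrum_factorization' K hI).symm

lemma pow_principal (m : HeightOneSpectrum (𝓞 K) → ℤ) :
    ∃ b : K, b ≠ 0 ∧ idl m ^ classNumber K = FractionalIdeal.spanSingleton (𝓞 K)⁰ b := by
  have h1 : (ClassGroup.mk K (Units.mk0 (idl m) (idl_ne_zero m))) ^ classNumber K = 1 :=
    pow_card_eq_one
  rw [← map_pow, ClassGroup.mk_eq_one_iff] at h1
  have h2 := (FractionalIdeal.isPrincipal_iff _).1 h1
  obtain ⟨b, hb⟩ := h2
  have hb' : idl m ^ classNumber K = FractionalIdeal.spanSingleton (𝓞 K)⁰ b := hb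
  refine ⟨b, ?_, hb'⟩
  rintro rfl
  rw [FractionalIdeal.spanSingleton_zero] at hb'
  exact pow_ne_zero _ (idl_ne_zero m) hb'

/-- Elements with the valuations of a fixed idele up to `n`-th powers. -/
theorem class_form {m : HeightOneSpectrum (𝓞 K) → ℤ} (hm : {v | m v ≠ 0}.Finite) :
    ∃ b : K, b ≠ 0 ∧ ∀ (n : ℕ) (e : K), 0 < n → e ≠ 0 →
      (∀ v : HeightOneSpectrum (𝓞 K), ∃ l : ℤ,
        v.valuation K e = WithZero.exp (-(m v + n * l))) →
      ∃ (g : K) (u : (𝓞 K)ˣ), g ≠ 0 ∧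
        e ^ classNumber K = algebraMap (𝓞 K) K u * (b * g ^ n) := by
  obtain ⟨b, hb0, hb⟩ := pow_principal m
  refine ⟨b, hb0, fun n e hn he h => ?_⟩
  choose k hk using h
  obtain ⟨h1, h2⟩ := idl_of_val he hk
  have h3 : {v | k v ≠ 0}.Finite := by
    refine (hm.union h1).subset (fun v hv => ?_)
    by_contra hcon
    simp only [Set.mem_union, Set.mem_ofPred_eq, not_or, not_not] at hcon
    rw [hcon.1, zero_add, mul_eq_zero] at hcon
    rcases hcon.2 with h4 | h4
    · exact hn.ne' (by exact_mod_cast h4)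
    · exact hv h4
  rw [idl_add_mul hm h3] at h2
  obtain ⟨g, hg0, hg⟩ := pow_principal k
  have h4 : FractionalIdeal.spanSingleton (𝓞 K)⁰ (e ^ classNumber K) =
      FractionalIdeal.spanSingleton (𝓞 K)⁰ (b * g ^ n) := by
    rw [← FractionalIdeal.spanSingleton_pow, h2, mul_pow, ← pow_mul, mul_comm n, pow_mul, hb, hg,
      FractionalIdeal.spanSingleton_pow, FractionalIdeal.spanSingleton_mul_spanSingleton]
  obtain ⟨u, hu⟩ := FractionalIdeal.spanSingleton_eq_spanSingleton.1 h4.symm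
  refine ⟨g, u, hg0, ?_⟩
  rw [← hu, Units.smul_def, Algebra.smul_def]

end Pool.Agent.V7H2.KS
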