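import Pool.Agent.V7H2.KS.Main2

/-!
# Geometric sections have tame values
-/

set_option autoImplicit false

namespace Pool.Agent.V7H2.KS

open IsDedekindDomain HeightOneSpectrum NumberField WithZero Polynomial
open Pool.Agent.TH954

variable {k : Type} [Field k] [NumberField k] {F M B : Type} [Field F] [Field M] [Field B]
  [Algebra k F] [Algebra F M] [Algebra k M] [Algebra k B] [IsScalarTower k F M]
  [Algebra.IsAlgebraic F M] [IsAlgClosure k B]

/-- a function which is one at the point is one at the local point, or zero or infinite -/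
lemma one_of_oneQ (hM : RootClosed M) (s : GalSection k F M B) {O : ValuationSubring F} (hs : s.ArisesFrom O)
    {v : HeightOneSpectrum (𝓞 k)} {p : Plc k M (AlgebraicClosure (v.adicCompletion k))}
    (hp : s.GivenBy (v.adicCompletion k) p) {f : F} (hf : O.valuation (f - 1) < 1)
    {y : v.adicCompletion k} (hy : p.val (algebraMap F M f)
      (algebraMap (v.adicCompletion k) (AlgebraicClosure (v.adicCompletion k)) y))
    (hy0 : y ≠ 0) : y = 1 := by
  have hcv : CharZero (v.adicCompletion k) :=
    charZero_of_injective_algebraMap (algebraMap k (v.adicCompletion k)).injective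
  have hpl : GeoPlc (toSAct s) p := geo_of_givenQ s hp
  have hfixF : ∀ x : F, algebraMap F M x ∈ (toSAct s).fix := fun x τ =>
    (s.s ((eqv k B).autCongr τ)).commutes x
  obtain ⟨-, hO1, -, W, hW, hst⟩ := hs
  have hWk : ∀ c : k, algebraMap k M c ∈ W := by
    intro c
    have h1 : algebraMap k F c ∈ W.comap (algebraMap F M) := by
      rw [hW]
      exact hO1 c
    rw [ValuationSubring.mem_comap, ← IsScalarTower.algebraMap_apply] at h1
    exact h1
  have hf1 : W.valuation (algebraMap F M f - 1) < 1 := by
    rcases (ValuationSubring.mem_nonunits_iff_or _).1 hf with h | h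
    · rw [← map_one (algebraMap F M), ← map_sub, h, map_zero, map_zero]
      exact zero_lt_one
    · apply (ValuationSubring.mem_nonunits_iff_or _).2
      right
      intro h3
      apply h
      rw [← hW, ValuationSubring.mem_comap, map_inv₀, map_sub, map_one]
      exact h3
  refine eq_one_of_pow v hy0 (fun n hn => ?_)
  obtain ⟨g, hg, hgn⟩ := exists_rootQ (toSAct s) hM hWk
    (fun τ x hx => (hst ((eqv k B).autCongr τ) x).2 hx) (hfixF f) hf1 hn
  have hgW : g ∈ p.W := by
    apply Plc.mem_of_pow_mem hn
    rw [hgn]
    exact hy.mem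
  obtain ⟨z, hz⟩ := val_baseQ hpl hg hgW
  refine ⟨z, ?_⟩
  apply (algebraMap (v.adicCompletion k) (AlgebraicClosure (v.adicCompletion k))).injective
  have h1 := hz.pow n
  rw [hgn] at h1
  rw [map_pow]
  exact h1.unique hy

/-- the local points of a geometric section are the rational point -/
theorem value_of_ringQ (hM : RootClosed M) (s : GalSection k F M B) {O : ValuationSubring F} (hs : s.ArisesFrom O)
    {v : HeightOneSpectrum (𝓞 k)} {p : Plc k M (AlgebraicClosure (v.adicCompletion k))}
    (hp : s.GivenBy (v.adicCompletion k) p) {x : F} {a : k}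
    (hx : O.valuation (x - algebraMap k F a) < 1) :
    p.val (algebraMap F M x)
      (algebraMap k (AlgebraicClosure (v.adicCompletion k)) a) := by
  have hcF : CharZero F := charZero_of_injective_algebraMap (algebraMap k F).injective
  have hcv : CharZero (v.adicCompletion k) :=
    charZero_of_injective_algebraMap (algebraMap k (v.adicCompletion k)).injective
  have hcv' : CharZero (AlgebraicClosure (v.adicCompletion k)) :=
    charZero_of_injective_algebraMap
      (algebraMap (v.adicCompletion k) (AlgebraicClosure (v.adicCompletion k))).injective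
  have hpl : GeoPlc (toSAct s) p := geo_of_givenQ s hp
  have hfixF : ∀ x : F, algebraMap F M x ∈ (toSAct s).fix := fun x τ =>
    (s.s ((eqv k B).autCongr τ)).commutes x
  have hO1 := hs.2.1
  have hk : ∀ c : k, c ≠ 0 → O.valuation (algebraMap k F c) = 1 := by
    intro c hc
    have e1 : O.valuation (algebraMap k F c) ≤ 1 := (O.valuation_le_one_iff _).2 (hO1 c)
    have e2 : O.valuation (algebraMap k F c⁻¹) ≤ 1 := (O.valuation_le_one_iff _).2 (hO1 c⁻¹)
    refine le_antisymm e1 ?_
    rw [map_inv₀, map_inv₀] at e2
    exact (inv_le_one₀ (zero_lt_iff.2 ((Valuation.ne_zero_iff _).2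
      ((_root_.map_ne_zero _).2 hc)))).1 e2
  by_cases hxW : algebraMap F M x ∈ p.W
  · obtain ⟨y, hy⟩ := val_baseQ hpl (hfixF x) hxW
    -- choose `b` in `k` different from `a` and `y`
    obtain ⟨b, hb1, hb2⟩ : ∃ b : k, b ≠ a ∧ algebraMap k (v.adicCompletion k) b ≠ y := by
      by_cases h1 : algebraMap k (v.adicCompletion k) (a + 1) = y
      · refine ⟨a - 1, by simp, ?_⟩
        rw [← h1]
        intro h2
        have h3 := (algebraMap k (v.adicCompletion k)).injective h2
        have h4 : (2 : k) = 0 := by linear_combination -h3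
        exact two_ne_zero h4
      · exact ⟨a + 1, by simp, h1⟩
    have hab : a - b ≠ 0 := sub_ne_zero.2 hb1.symm
    have hf : O.valuation ((x - algebraMap k F b) / algebraMap k F (a - b) - 1) < 1 := by
      have e : (x - algebraMap k F b) / algebraMap k F (a - b) - 1 =
          (x - algebraMap k F a) / algebraMap k F (a - b) := by
        have h0 : algebraMap k F (a - b) ≠ 0 := (_root_.map_ne_zero _).2 hab
        rw [div_sub_one h0, map_sub]
        ring
      rw [e, map_div₀, hk _ hab, div_one]
      exact hx
    have hv : p.val (algebraMap F M ((x - algebraMap k F b) / algebraMap k F (a - b)))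
        (algebraMap (v.adicCompletion k) (AlgebraicClosure (v.adicCompletion k))
          ((y - algebraMap k (v.adicCompletion k) b) *
            algebraMap k (v.adicCompletion k) (a - b)⁻¹)) := by
      rw [div_eq_mul_inv, ← map_inv₀ (algebraMap k F), map_mul, map_mul, map_sub, map_sub,
        ← IsScalarTower.algebraMap_apply, ← IsScalarTower.algebraMap_apply,
        ← IsScalarTower.algebraMap_apply, ← IsScalarTower.algebraMap_apply]
      exact (hy.sub (Plc.val_alg b)).mul (Plc.val_alg _)
    have h1 := one_of_oneQ hM s hs hp hf hv (mul_ne_zero (sub_ne_zero.2 hb2.symm)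
      ((_root_.map_ne_zero _).2 (inv_ne_zero hab)))
    have h2 : y = algebraMap k (v.adicCompletion k) a := by
      have h3 : algebraMap k (v.adicCompletion k) (a - b) ≠ 0 := (_root_.map_ne_zero _).2 hab
      rw [map_inv₀, ← div_eq_mul_inv, div_eq_one_iff_eq h3, map_sub] at h1
      exact sub_left_inj.1 h1
    rw [h2, ← IsScalarTower.algebraMap_apply] at hy
    exact hy
  · exfalso
    set b : k := a - 1 with hb
    set u : F := x - algebraMap k F b with hu
    have huO : O.valuation (u - 1) < 1 := by
      have e : u - 1 = x - algebraMap k F a := by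
        rw [hu, hb, map_sub, map_one]
        ring
      rw [e]
      exact hx
    have hu1 : O.valuation u = 1 := by
      have h1 : O.valuation (1 + (u - 1)) = O.valuation 1 :=
        Valuation.map_add_eq_of_lt_left _ (by rw [map_one]; exact huO)
      rw [add_sub_cancel, map_one] at h1
      exact h1
    have hu0 : u ≠ 0 := by
      intro h0
      rw [h0, map_zero] at hu1
      exact zero_ne_one hu1
    have huW : algebraMap F M u ∉ p.W := by
      intro h
      apply hxW
      have h1 := add_mem h (p.alg_mem b)
      rw [hu, map_sub, ← IsScalarTower.algebraMap_apply, sub_add_cancel] at h1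
      exact h1
    have huv : p.val (algebraMap F M u⁻¹) 0 := by
      rw [map_inv₀]
      exact Plc.val_inv_of_notMem huW
    have h2k : (2 : k) ≠ 0 := two_ne_zero
    have hf : O.valuation ((u⁻¹ + 1) * algebraMap k F 2⁻¹ - 1) < 1 := by
      have e : (u⁻¹ + 1) * algebraMap k F 2⁻¹ - 1 = -((u - 1) / (u * algebraMap k F 2)) := by
        rw [map_inv₀, map_ofNat]
        field_simp
        ring
      rw [e, Valuation.map_neg, map_div₀, map_mul, hu1, hk 2 h2k, one_mul, div_one]
      exact huO
    have hv : p.val (algebraMap F M ((u⁻¹ + 1) * algebraMap k F 2⁻¹))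
        (algebraMap (v.adicCompletion k) (AlgebraicClosure (v.adicCompletion k))
          (algebraMap k (v.adicCompletion k) 2⁻¹)) := by
      have h3 := (huv.add Plc.val_one).mul (Plc.val_alg (pl := p) (2⁻¹ : k))
      rw [zero_add, one_mul] at h3
      rw [map_mul, map_add, map_one, ← IsScalarTower.algebraMap_apply,
        ← IsScalarTower.algebraMap_apply]
      exact h3
    have h1 := one_of_oneQ hM s hs hp hf hv ((_root_.map_ne_zero _).2 (inv_ne_zero h2k))
    rw [← map_one (algebraMap k (v.adicCompletion k))] at h1
    have h4 := (algebraMap k (v.adicCompletion k)).injective h1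
    rw [inv_eq_iff_eq_inv, inv_one] at h4
    have h5 : (1 : k) = 0 := by linear_combination h4
    exact one_ne_zero h5

/-- **Geometric sections have tame values.** -/
theorem tame_of_ring {k0 : Type} [Field k0] [NumberField k0] [Algebra k0 k]
    (hM : RootClosed M)
    (hF : ∃ t : F, Transcendental k t ∧
      Algebra.IsAlgebraic (IntermediateField.adjoin k {t}) F)
    (s : GalSection k F M B)
    (pl : ∀ v : HeightOneSpectrum (𝓞 k), Plc k M (AlgebraicClosure (v.adicCompletion k)))
    (hp : ∀ v, s.GivenBy (v.adicCompletion k) (pl v)) {O : ValuationSubring F}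
    (hs : s.ArisesFrom O) :
    ∃ x : F, x ∉ Set.range (algebraMap k F) ∧
      ∃ c : Fin (Module.finrank k0 k) → k0, Function.Injective c ∧
        ∀ i, TameValues pl (x - algebraMap k F (algebraMap k0 k (c i))) := by
  obtain ⟨t, ht, -⟩ := hF
  have htr : ∀ y : F, y = t ∨ y = t⁻¹ → y ∉ Set.range (algebraMap k F) := by
    rintro y (rfl | rfl) ⟨b, hb⟩
    · exact ht (hb ▸ isAlgebraic_algebraMap b)
    · apply ht
      rw [inv_eq_iff_eq_inv.1 hb.symm, ← map_inv₀]
      exact isAlgebraic_algebraMap _
  obtain ⟨x, hx, hxO⟩ : ∃ x : F, x ∉ Set.range (algebraMap k F) ∧ x ∈ O := by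
    rcases O.mem_or_inv_mem t with h | h
    · exact ⟨t, htr t (Or.inl rfl), h⟩
    · exact ⟨t⁻¹, htr t⁻¹ (Or.inr rfl), h⟩
  obtain ⟨a, ha⟩ := hs.2.2.1 x hxO
  obtain ⟨c, hc, hca⟩ : ∃ c : Fin (Module.finrank k0 k) → k0, Function.Injective c ∧
      ∀ i, a - algebraMap k0 k (c i) ≠ 0 := by
    by_cases h : ∃ i : Fin (Module.finrank k0 k), a = ((i : ℕ) : k)
    · obtain ⟨i, rfl⟩ := h
      refine ⟨fun j => ((Module.finrank k0 k + j : ℕ) : k0), fun j j' hj => ?_, fun j hj => ?_⟩
      · have h1 : Module.finrank k0 k + (j : ℕ) = Module.finrank k0 k + (j' : ℕ) :=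
          Nat.cast_injective (R := k0) hj
        exact Fin.ext (by omega)
      · rw [sub_eq_zero, map_natCast] at hj
        have h1 : (i : ℕ) = Module.finrank k0 k + (j : ℕ) := by exact_mod_cast hj
        have h2 := i.2
        omega
    · refine ⟨fun j => ((j : ℕ) : k0), fun j j' hj => ?_, fun j hj => ?_⟩
      · have h1 : (j : ℕ) = (j' : ℕ) := Nat.cast_injective (R := k0) hj
        exact Fin.ext h1
      · rw [sub_eq_zero, map_natCast] at hj
        exact h ⟨j, hj⟩
  refine ⟨x, hx, c, hc, fun i => ⟨1,
    fun v => algebraMap k (v.adicCompletion k) (a - algebraMap k0 k (c i)), one_pos,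
    fun v => ⟨(_root_.map_ne_zero _).2 (hca i), ?_⟩,
    (unit_aeQ (hca i)).subset (fun v hv => hv.1)⟩⟩
  have h1 := (value_of_ringQ hM s hs (hp v) ha).sub
    (Plc.val_alg (pl := pl v) (algebraMap k0 k (c i)))
  rw [map_sub, ← IsScalarTower.algebraMap_apply k F M,
    ← IsScalarTower.algebraMap_apply k (v.adicCompletion k), map_sub]
  exact h1

end Pool.Agent.V7H2.KS
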