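import Pool.Agent.W620.SC.Norm
import Mathlib.FieldTheory.Minpoly.IsConjRoot
import Mathlib.RingTheory.Polynomial.Cyclotomic.Roots
import Mathlib.NumberTheory.NumberField.InfinitePlace.Embeddings
import Mathlib.GroupTheory.CosetCover

/-!
# Automorphisms with given action on roots of unity, and descent of powers
-/

set_option autoImplicit false
set_option linter.unusedSectionVars false

open Polynomial
open scoped Pointwise

namespace Pool.Agent.V7H2.KS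

/-- an automorphism which raises the `n`-th roots of unity to the power `l` -/
lemma exists_aut_pow {A : Type} [Field A] [CharZero A] [IsAlgClosed A] [Algebra.IsAlgebraic ℚ A]
    {n l : ℕ} (hn : 0 < n) (h : l.Coprime n) :
    ∃ σ : A ≃ₐ[ℚ] A, ∀ ζ : A, ζ ^ n = 1 → σ ζ = ζ ^ l := by
  have : IsAlgClosure ℚ A := ⟨inferInstance, inferInstance⟩
  have : Normal ℚ A := IsAlgClosure.normal ℚ A
  have : NeZero (n : A) := ⟨by exact_mod_cast hn.ne'⟩
  obtain ⟨ζ0, hζ0⟩ := HasEnoughRootsOfUnity.exists_primitiveRoot A n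
  have h1 : IsPrimitiveRoot (ζ0 ^ l) n := hζ0.pow_of_coprime l h
  have h2 : IsConjRoot ℚ (ζ0 ^ l) ζ0 := by
    rw [isConjRoot_def, ← cyclotomic_eq_minpoly_rat h1 hn, ← cyclotomic_eq_minpoly_rat hζ0 hn]
  obtain ⟨σ, hσ⟩ := isConjRoot_iff_exists_algEquiv.1 h2
  refine ⟨σ, fun ζ hζ => ?_⟩
  have : NeZero n := ⟨hn.ne'⟩
  obtain ⟨i, -, hi⟩ := hζ0.eq_pow_of_pow_eq_one hζ
  rw [← hi, map_pow, hσ, ← pow_mul, ← pow_mul, mul_comm]

/-- the powers of an automorphism act on roots of unity -/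
lemma aut_pow_apply {A : Type} [Field A] [Algebra ℚ A] {n l : ℕ} {σ : A ≃ₐ[ℚ] A}
    (h : ∀ ζ : A, ζ ^ n = 1 → σ ζ = ζ ^ l) (j : ℕ) {ζ : A} (hζ : ζ ^ n = 1) :
    (σ ^ j) ζ = ζ ^ (l ^ j) := by
  induction j with
  | zero => rw [pow_zero, pow_zero, pow_one]; rfl
  | succ j ih =>
    rw [pow_succ' σ]
    change σ ((σ ^ j) ζ) = _
    rw [ih, h _ (by rw [← pow_mul, mul_comm, pow_mul, hζ, one_pow]), ← pow_mul, pow_succ]

/-- an automorphism which fixes a number field and raises the `n`-th roots of unity to the power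
`l ^ C`, where `C` depends only on the field -/
lemma exists_aut_fix (L : Type) [Field L] [NumberField L] {A : Type} [Field A] [CharZero A]
    [IsAlgClosed A] [Algebra.IsAlgebraic ℚ A] (i : L →+* A) :
    ∃ C : ℕ, 0 < C ∧ ∀ n l : ℕ, 0 < n → l.Coprime n →
      ∃ σ : A ≃ₐ[ℚ] A, (∀ x : L, σ (i x) = i x) ∧ ∀ ζ : A, ζ ^ n = 1 → σ ζ = ζ ^ (l ^ C) := by
  classical
  set N : ℕ := Fintype.card (L →+* A) with hN
  refine ⟨N.factorial, Nat.factorial_pos _, fun n l hn hl => ?_⟩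
  obtain ⟨σ, hσ⟩ := exists_aut_pow (A := A) hn hl
  obtain ⟨a, b, hab, he⟩ := Fintype.exists_ne_map_eq_of_card_lt
    (fun j : Fin (N + 1) => (((σ ^ (j : ℕ) : A ≃ₐ[ℚ] A) : A ≃+* A) : A →+* A).comp i) (by
      rw [Fintype.card_fin]
      omega)
  have key : ∀ a b : Fin (N + 1), a < b →
      (((σ ^ (a : ℕ) : A ≃ₐ[ℚ] A) : A ≃+* A) : A →+* A).comp i =
        (((σ ^ (b : ℕ) : A ≃ₐ[ℚ] A) : A ≃+* A) : A →+* A).comp i →
      ∃ j : ℕ, 0 < j ∧ j ≤ N ∧ ∀ x : L, (σ ^ j) (i x) = i x := by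
    intro a b hab he
    refine ⟨(b : ℕ) - a, by have : (a : ℕ) < b := hab; omega, by have := b.2; omega, fun x => ?_⟩
    have h1 : (σ ^ (a : ℕ)) (i x) = (σ ^ (b : ℕ)) (i x) := RingHom.congr_fun he x
    have h2 : (b : ℕ) = a + ((b : ℕ) - a) := by have : (a : ℕ) < b := hab; omega
    rw [h2, pow_add] at h1
    exact ((σ ^ (a : ℕ)).injective h1).symm
  obtain ⟨j, hj0, hjN, hj⟩ : ∃ j : ℕ, 0 < j ∧ j ≤ N ∧ ∀ x : L, (σ ^ j) (i x) = i x := by
    rcases lt_or_gt_of_ne hab with h | h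
    · exact key a b h he
    · exact key b a h he.symm
  obtain ⟨m, hm⟩ : j ∣ N.factorial := Nat.dvd_factorial hj0 hjN
  refine ⟨σ ^ N.factorial, fun x => ?_, fun ζ hζ => aut_pow_apply hσ _ hζ⟩
  have h3 : ∀ m : ℕ, ((σ ^ j) ^ m) (i x) = i x := by
    intro m
    induction m with
    | zero => rfl
    | succ m ih =>
      rw [pow_succ']
      change (σ ^ j) (((σ ^ j) ^ m) (i x)) = _
      rw [ih, hj]
  rw [hm, pow_mul]
  exact h3 m

/-- `F` is generated over `k` by `S`; automorphisms fixing `S` fix `F` -/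
lemma fix_of_adjoin {k A : Type} [Field k] [Field A] [Algebra k A] {S : Set A} {σ : A ≃ₐ[k] A}
    (hσ : ∀ x ∈ S, σ x = x) {x : A} (hx : x ∈ IntermediateField.adjoin k S) : σ x = x := by
  have h1 : IntermediateField.adjoin k S ≤
      IntermediateField.fixedField (Subgroup.zpowers σ) := by
    rw [IntermediateField.adjoin_le_iff]
    intro y hy
    change y ∈ IntermediateField.fixedField (Subgroup.zpowers σ)
    rw [IntermediateField.mem_fixedField_iff]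
    intro g hg
    obtain ⟨m, rfl⟩ := Subgroup.mem_zpowers_iff.1 hg
    have h2 : σ ∈ MulAction.stabilizer (A ≃ₐ[k] A) y := MulAction.mem_stabilizer_iff.2 (hσ y hy)
    exact MulAction.mem_stabilizer_iff.1 (Subgroup.zpow_mem _ h2 m)
  have h3 := h1 hx
  rw [IntermediateField.mem_fixedField_iff] at h3
  exact h3 σ (Subgroup.mem_zpowers σ)

section

variable {k A : Type} [Field k] [CharZero k] [Field A] [Algebra k A] [IsAlgClosed A]
  [Algebra.IsAlgebraic k A]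

/-- descent of a power by an automorphism -/
lemma desc (K : IntermediateField k A) {m : ℕ} {w : A} (hw0 : w ≠ 0) (hw : w ^ m ∈ K)
    {τ : A ≃ₐ[k] A} (hτ : ∀ x ∈ K, τ x = x) {t : ℕ} (ht1 : 1 ≤ t)
    (ht : ∀ ζ : A, ζ ^ m = 1 → τ ζ = ζ ^ t)
    (hab : ∀ σ : A ≃ₐ[k] A, (∀ x ∈ K, σ x = x) → σ (τ w) = τ (σ w)) :
    ∃ w1 ∈ K, w1 ^ m = (w ^ m) ^ (t - 1) := by
  have : IsAlgClosure k A := ⟨inferInstance, inferInstance⟩
  have : Normal k A := IsAlgClosure.normal k A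
  have : IsGalois k A := ⟨⟩
  have hτw : τ w ≠ 0 := (map_ne_zero τ).2 hw0
  refine ⟨w ^ t / τ w, ?_, ?_⟩
  · apply Pool.Agent.W620.SC.mem_of_fixed K
    intro σ hσ
    have hσK : ∀ x ∈ K, σ x = x := fun x hx =>
      (IntermediateField.mem_fixingSubgroup_iff _ _).1 hσ x hx
    set ζ : A := σ w / w with hζ
    have hζm : ζ ^ m = 1 := by
      rw [hζ, div_pow, ← map_pow, hσK _ hw, div_self (pow_ne_zero _ hw0)]
    have hσw : σ w = ζ * w := by rw [hζ, div_mul_cancel₀ _ hw0]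
    have hζ0 : ζ ≠ 0 := div_ne_zero ((map_ne_zero σ).2 hw0) hw0
    rw [map_div₀, map_pow, hab σ hσK, hσw, map_mul, ht ζ hζm, mul_pow,
      mul_div_mul_left _ _ (pow_ne_zero _ hζ0)]
  · rw [div_pow, ← map_pow, hτ _ hw, ← pow_mul, mul_comm t m, pow_mul]
    have hne : w ^ m ≠ 0 := pow_ne_zero _ hw0
    rw [div_eq_iff hne, ← pow_succ, Nat.sub_add_cancel ht1]

/-- an element which is an `a`-th and a `b`-th power for coprime `a`, `b` is an `a * b`-th power -/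
lemma pow_of_coprime (K : IntermediateField k A) {a b : ℕ} (hab : a.Coprime b) {x y z : A}
    (hx0 : x ≠ 0) (hy : y ∈ K) (hz : z ∈ K) (hya : y ^ a = x) (hzb : z ^ b = x) (ha : 0 < a)
    (hb : 0 < b) : ∃ w ∈ K, w ^ (a * b) = x := by
  have hy0 : y ≠ 0 := by
    rintro rfl
    rw [zero_pow ha.ne'] at hya
    exact hx0 hya.symm
  have hz0 : z ≠ 0 := by
    rintro rfl
    rw [zero_pow hb.ne'] at hzb
    exact hx0 hzb.symm
  have h1 : (1 : ℤ) = a * Nat.gcdA a b + b * Nat.gcdB a b := by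
    rw [← Nat.gcd_eq_gcd_ab, hab]
    simp
  refine ⟨z ^ (Nat.gcdA a b) * y ^ (Nat.gcdB a b), mul_mem (zpow_mem hz _) (zpow_mem hy _), ?_⟩
  rw [mul_pow]
  have e1 : (z ^ (Nat.gcdA a b)) ^ (a * b) = x ^ ((a : ℤ) * Nat.gcdA a b) := by
    rw [← hzb, ← zpow_natCast, ← zpow_mul, ← zpow_natCast z b, ← zpow_mul]
    congr 1
    push_cast
    ring
  have e2 : (y ^ (Nat.gcdB a b)) ^ (a * b) = x ^ ((b : ℤ) * Nat.gcdB a b) := by
    rw [← hya, ← zpow_natCast, ← zpow_mul, ← zpow_natCast y a, ← zpow_mul]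
    congr 1
    push_cast
    ring
  rw [e1, e2, ← zpow_add₀ hx0, ← h1, zpow_one]

/-- **Descent of powers** from `K(ζ_n)` to `K` -/
theorem exists_desc (K : IntermediateField k A) [NumberField K] :
    ∃ N : ℕ, 0 < N ∧ ∀ (n : ℕ), 0 < n → ∀ (S : Set A), (K : Set A) ⊆ S →
      (∀ x ∈ S, x ∈ K ∨ x ^ n = 1) → ∀ w ∈ IntermediateField.adjoin k S, w ^ n ∈ K → w ≠ 0 →
        ∃ w1 ∈ K, w1 ^ n = (w ^ n) ^ N := by
  have hchA : CharZero A := charZero_of_injective_algebraMap (algebraMap k A).injective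
  have halg : Algebra.IsAlgebraic ℚ A := by
    have h1 : Algebra.IsAlgebraic K A := Algebra.IsAlgebraic.tower_top (K := k) K
    have h2 : Algebra.IsAlgebraic ℚ K := inferInstance
    exact Algebra.IsAlgebraic.trans ℚ K A
  obtain ⟨C, hC, hCaut⟩ := exists_aut_fix K (A := A) (K.val : K →+* A)
  have hpow1 : ∀ b : ℕ, 2 ≤ b → 0 < b ^ C - 1 := by
    intro b hb
    have h1 : b ^ 1 ≤ b ^ C := Nat.pow_le_pow_right (by omega) hC
    rw [pow_one] at h1
    omega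
  refine ⟨(2 ^ C - 1) * (3 ^ C - 1), Nat.mul_pos (hpow1 2 le_rfl) (hpow1 3 (by norm_num)),
    fun n hn S hKS hS w hw hwK hw0 => ?_⟩
  -- commutation
  have hcomm : ∀ σ τ : A ≃ₐ[k] A, (∀ x ∈ K, σ x = x) → (∀ x ∈ K, τ x = x) →
      ∀ y ∈ IntermediateField.adjoin k S, σ (τ y) = τ (σ y) := by
    intro σ τ hσ hτ y hy
    have : NeZero (n : A) := ⟨by exact_mod_cast hn.ne'⟩
    have : NeZero n := ⟨hn.ne'⟩
    obtain ⟨ζ0, hζ0⟩ := HasEnoughRootsOfUnity.exists_primitiveRoot A n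
    have hact : ∀ g : A ≃ₐ[k] A, ∃ i : ℕ, ∀ ζ : A, ζ ^ n = 1 → g ζ = ζ ^ i := by
      intro g
      have h1 : (g ζ0) ^ n = 1 := by rw [← map_pow, hζ0.pow_eq_one, map_one]
      obtain ⟨i, -, hi⟩ := hζ0.eq_pow_of_pow_eq_one h1
      refine ⟨i, fun ζ hζ => ?_⟩
      obtain ⟨j, -, hj⟩ := hζ0.eq_pow_of_pow_eq_one hζ
      rw [← hj, map_pow, ← hi, ← pow_mul, ← pow_mul, mul_comm]
    obtain ⟨i, hi⟩ := hact σ
    obtain ⟨j, hj⟩ := hact τ
    have h2 : ∀ x ∈ S, ((τ * σ)⁻¹ * (σ * τ)) x = x := by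
      intro x hx
      have h3 : (σ * τ) x = (τ * σ) x := by
        change σ (τ x) = τ (σ x)
        rcases hS x hx with h | h
        · rw [hτ x h, hσ x h, hτ x h]
        · rw [hj x h, hi x h, map_pow, map_pow, hi x h, hj x h, ← pow_mul, ← pow_mul, mul_comm]
      change (τ * σ)⁻¹ ((σ * τ) x) = x
      rw [h3]
      change ((τ * σ)⁻¹ * (τ * σ)) x = x
      rw [inv_mul_cancel]
      rfl
    have h4 := fix_of_adjoin h2 hy
    have h5 : (τ * σ) (((τ * σ)⁻¹ * (σ * τ)) y) = (τ * σ) y := by rw [h4]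
    have h6 : (τ * σ) (((τ * σ)⁻¹ * (σ * τ)) y) = (σ * τ) y := by
      change ((τ * σ) * ((τ * σ)⁻¹ * (σ * τ))) y = _
      rw [mul_inv_cancel_left]
    rw [h6] at h5
    exact h5
  -- one factor
  have hone : ∀ (l a b : ℕ), 0 < a → 0 < b → n = a * b → l.Coprime a → 1 ≤ l →
      ∃ w1 ∈ K, w1 ^ a = (w ^ n) ^ (l ^ C - 1) := by
    intro l a b ha hb hnab hla hl
    obtain ⟨σ0, hσ0, hσ0'⟩ := hCaut a l ha hla
    let τ : A ≃ₐ[k] A := AlgEquiv.ofRingEquiv (f := (σ0 : A ≃+* A)) (fun x =>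
      hσ0 ⟨algebraMap k A x, K.algebraMap_mem x⟩)
    have hτ : ∀ x ∈ K, τ x = x := fun x hx => hσ0 ⟨x, hx⟩
    have hwb : (w ^ b) ^ a = w ^ n := by rw [← pow_mul, hnab, mul_comm]
    obtain ⟨w1, hw1, hw1'⟩ := desc K (m := a) (w := w ^ b) (pow_ne_zero _ hw0) (by rw [hwb]; exact hwK)
      hτ (t := l ^ C) (Nat.one_le_pow _ _ hl) (fun ζ hζ => hσ0' ζ hζ)
      (fun σ hσ => hcomm σ τ hσ hτ _ (pow_mem hw b))
    exact ⟨w1, hw1, by rw [hw1', hwb]⟩
  obtain ⟨s, m, hm2, hnm⟩ := Nat.exists_eq_two_pow_mul_odd hn.ne'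
  have hmpos : 0 < m := hm2.pos
  obtain ⟨y, hy, hy'⟩ := hone 2 m (2 ^ s) hmpos (by positivity) (by rw [hnm, mul_comm])
    (Nat.coprime_two_left.2 hm2) (by norm_num)
  obtain ⟨z, hz, hz'⟩ := hone 3 (2 ^ s) m (by positivity) hmpos hnm
    (Nat.Coprime.pow_right _ (by norm_num)) (by norm_num)
  have hwn : w ^ n ≠ 0 := pow_ne_zero _ hw0
  obtain ⟨w1, hw1, hw1'⟩ := pow_of_coprime K (a := m) (b := 2 ^ s)
    (x := (w ^ n) ^ ((2 ^ C - 1) * (3 ^ C - 1))) (y := y ^ (3 ^ C - 1)) (z := z ^ (2 ^ C - 1))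
    (Nat.Coprime.pow_right _ (Nat.coprime_two_right.2 hm2)) (pow_ne_zero _ hwn)
    (pow_mem hy _) (pow_mem hz _)
    (by rw [← pow_mul, mul_comm, pow_mul, hy', ← pow_mul])
    (by rw [← pow_mul, mul_comm, pow_mul, hz', ← pow_mul, mul_comm (3 ^ C - 1)]) hmpos
    (by positivity)
  refine ⟨w1, hw1, ?_⟩
  rw [← hw1']
  congr 1
  rw [hnm, mul_comm]

end

end Pool.Agent.V7H2.KS
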