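import Mathlib.LinearAlgebra.Lagrange
import Mathlib.Algebra.Polynomial.Monic
import Mathlib.Algebra.Polynomial.BigOperators
import Mathlib.Data.Rat.Cast.CharZero
import Mathlib.Algebra.GroupWithZero.Units.Fintype
import Mathlib.Data.Fintype.Pi
import Mathlib.Algebra.Polynomial.Degree.Lemmas

/-!
# Interpolation with signs
-/

set_option autoImplicit false

namespace Pool.Agent.V7H2.KS

open Polynomial

variable {d : ℕ}

/-- the monic polynomial of degree `d` with the values `b i` at the points `c i` -/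
noncomputable def pS (c b : Fin d → ℚ) : ℚ[X] :=
  X ^ d + Lagrange.interpolate Finset.univ c (fun i => b i - c i ^ d)

lemma deg_int {c : Fin d → ℚ} (hc : Function.Injective c) (b : Fin d → ℚ) :
    (Lagrange.interpolate Finset.univ c (fun i => b i - c i ^ d)).degree < d := by
  have h := Lagrange.degree_interpolate_lt (s := Finset.univ) (v := c)
    (fun i => b i - c i ^ d) hc.injOn
  simpa using h

lemma pS_monic {c : Fin d → ℚ} (hc : Function.Injective c) (b : Fin d → ℚ) : (pS c b).Monic :=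
  monic_X_pow_add (deg_int hc b)

lemma pS_eval {c : Fin d → ℚ} (hc : Function.Injective c) (b : Fin d → ℚ) (i : Fin d) :
    (pS c b).eval (c i) = b i := by
  unfold pS
  rw [eval_add, eval_pow, eval_X, Lagrange.eval_interpolate_at_node _ hc.injOn (Finset.mem_univ i)]
  ring

/-- the product over all signs -/
noncomputable def bigP (c b : Fin d → ℚ) : ℚ[X] :=
  ∏ s : Fin d → ℤˣ, pS c (fun i => ((s i : ℤ) : ℚ) * b i)

lemma bigP_ne_zero {c : Fin d → ℚ} (hc : Function.Injective c) (b : Fin d → ℚ) :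
    bigP c b ≠ 0 :=
  Finset.prod_ne_zero_iff.2 (fun _ _ => (pS_monic hc _).ne_zero)

theorem interp {L : Type} [Field L] [CharZero L] {ι : Type} [Fintype ι]
    (hd : Fintype.card ι = d) {c : Fin d → ℚ} (hc : Function.Injective c) (b : Fin d → ℚ)
    (X0 : ι → L) (h : ∀ i, (∏ t, (X0 t - (c i : L))) ^ 2 = ((b i : ℚ) : L) ^ 2) (t : ι) :
    eval₂ (Rat.castHom L) (X0 t) (bigP c b) = 0 := by
  classical
  have hs : ∀ i, ∃ s : ℤˣ, ∏ t, ((c i : L) - X0 t) = (((s : ℤ) : ℚ) * b i : ℚ) := by
    intro i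
    have h1 : (∏ t, ((c i : L) - X0 t)) ^ 2 = ((b i : ℚ) : L) ^ 2 := by
      rw [← h i, ← Finset.prod_pow, ← Finset.prod_pow]
      exact Finset.prod_congr rfl (fun t _ => by ring)
    rcases sq_eq_sq_iff_eq_or_eq_neg.1 h1 with h2 | h2
    · exact ⟨1, by rw [h2]; simp⟩
    · exact ⟨-1, by rw [h2]; simp⟩
  choose s hs using hs
  set Φ : L[X] := ∏ t : ι, (X - C (X0 t)) with hΦ
  have hΦm : Φ.Monic := monic_prod_of_monic _ _ (fun t _ => monic_X_sub_C _)
  have hΦd : Φ.degree = d := by
    rw [hΦ, degree_prod_of_monic _ _ (fun t _ => monic_X_sub_C _)]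
    simp [hd]
  have hPm : ((pS c (fun i => ((s i : ℤ) : ℚ) * b i)).map (Rat.castHom L)).Monic :=
    (pS_monic hc _).map _
  have hPd : ((pS c (fun i => ((s i : ℤ) : ℚ) * b i)).map (Rat.castHom L)).degree = d := by
    rw [(pS_monic hc _).degree_map]
    unfold pS
    rw [degree_add_eq_left_of_degree_lt (by rw [degree_X_pow]; exact deg_int hc _), degree_X_pow]
  have hinj : Function.Injective (fun i => (c i : L)) := fun i j hij =>
    hc (Rat.cast_injective hij)
  have heq : Φ = (pS c (fun i => ((s i : ℤ) : ℚ) * b i)).map (Rat.castHom L) := by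
    refine Polynomial.eq_of_degree_sub_lt_of_eval_index_eq (s := Finset.univ)
      (v := fun i => (c i : L)) hinj.injOn ?_ (fun i _ => ?_)
    · have h3 : (Φ - (pS c (fun i => ((s i : ℤ) : ℚ) * b i)).map (Rat.castHom L)).degree <
          Φ.degree := by
        refine degree_sub_lt (by rw [hΦd, hPd]) hΦm.ne_zero ?_
        rw [hΦm.leadingCoeff, hPm.leadingCoeff]
      rw [hΦd] at h3
      simpa using h3
    · have h4 : eval (c i : L) Φ = ∏ t, ((c i : L) - X0 t) := by
        rw [hΦ, eval_prod]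
        exact Finset.prod_congr rfl (fun t _ => by rw [eval_sub, eval_X, eval_C])
      have h5 : eval (c i : L) ((pS c (fun i => ((s i : ℤ) : ℚ) * b i)).map (Rat.castHom L)) =
          ((((s i : ℤ) : ℚ) * b i : ℚ) : L) := by
        have h6 : (c i : L) = Rat.castHom L (c i) := rfl
        rw [h6, eval_map, eval₂_hom, pS_eval hc]
        rfl
      rw [h4, h5, hs i]
  unfold bigP
  rw [eval₂_finsetProd]
  refine Finset.prod_eq_zero (Finset.mem_univ s) ?_
  rw [← eval_map, ← heq, hΦ, eval_prod]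
  exact Finset.prod_eq_zero (Finset.mem_univ t) (by rw [eval_sub, eval_X, eval_C, sub_self])

end Pool.Agent.V7H2.KS
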