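import Pool.Agent.V7H2.KS.Interp
import Pool.Agent.TH954.SFix

/-!
# Interpolation with radicals
-/

set_option autoImplicit false

namespace Pool.Agent.V7H2.KS

open Polynomial

section

variable {E : Type} [Field E] {d : ℕ}

/-- the monic polynomial of degree `d` with the values `b i` at the points `c i` -/
noncomputable def pE (c b : Fin d → E) : E[X] :=
  X ^ d + Lagrange.interpolate Finset.univ c (fun i => b i - c i ^ d)

lemma pE_deg_int {c : Fin d → E} (hc : Function.Injective c) (b : Fin d → E) :
    (Lagrange.interpolate Finset.univ c (fun i => b i - c i ^ d)).degree < d := by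
  have h := Lagrange.degree_interpolate_lt (s := Finset.univ) (v := c)
    (fun i => b i - c i ^ d) hc.injOn
  simpa using h

lemma pE_monic {c : Fin d → E} (hc : Function.Injective c) (b : Fin d → E) : (pE c b).Monic :=
  monic_X_pow_add (pE_deg_int hc b)

lemma pE_degree {c : Fin d → E} (hc : Function.Injective c) (b : Fin d → E) :
    (pE c b).degree = d := by
  unfold pE
  rw [degree_add_eq_left_of_degree_lt (by rw [degree_X_pow]; exact pE_deg_int hc _), degree_X_pow]

lemma pE_eval {c : Fin d → E} (hc : Function.Injective c) (b : Fin d → E) (i : Fin d) :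
    (pE c b).eval (c i) = b i := by
  unfold pE
  rw [eval_add, eval_pow, eval_X, Lagrange.eval_interpolate_at_node _ hc.injOn (Finset.mem_univ i)]
  ring

/-- a monic polynomial is determined by `d` values -/
lemma prod_eq_pE {C : Type} [Field C] (e : E →+* C) {ι : Type} [Fintype ι]
    (hd : Fintype.card ι = d) {c : Fin d → E} (hc : Function.Injective c) (b : Fin d → E)
    (X0 : ι → C) (h : ∀ i, ∏ t, (e (c i) - X0 t) = e (b i)) :
    ∏ t, (X - Polynomial.C (X0 t)) = (pE c b).map e := by
  classical
  set Φ : C[X] := ∏ t : ι, (X - Polynomial.C (X0 t)) with hΦ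
  have hΦm : Φ.Monic := monic_prod_of_monic _ _ (fun t _ => monic_X_sub_C _)
  have hΦd : Φ.degree = d := by
    rw [hΦ, degree_prod_of_monic _ _ (fun t _ => monic_X_sub_C _)]
    simp [hd]
  have hPm : ((pE c b).map e).Monic := (pE_monic hc _).map _
  have hPd : ((pE c b).map e).degree = d := by
    rw [(pE_monic hc _).degree_map, pE_degree hc]
  have hinj : Function.Injective (fun i => e (c i)) := fun i j hij => hc (e.injective hij)
  refine Polynomial.eq_of_degree_sub_lt_of_eval_index_eq (s := Finset.univ)
    (v := fun i => e (c i)) hinj.injOn ?_ (fun i _ => ?_)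
  · have h3 : (Φ - (pE c b).map e).degree < Φ.degree := by
      refine degree_sub_lt_left (by rw [hΦd, hPd]) hΦm.ne_zero ?_
      rw [hΦm.leadingCoeff, hPm.leadingCoeff]
    rw [hΦd] at h3
    simpa using h3
  · have h4 : eval (e (c i)) Φ = ∏ t, (e (c i) - X0 t) := by
      rw [hΦ, eval_prod]
      exact Finset.prod_congr rfl (fun t _ => by rw [eval_sub, eval_X, eval_C])
    rw [h4, h i, eval_map, eval₂_hom, pE_eval hc]

end

/-- **Elimination of radicals.** There is a nonzero polynomial with the following property: if the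
`M`-th powers of the products of the `X t - c i` are `β i`, for `d` elements `X t` of an extension
and for `d` different elements `c i`, then the `X t` are zeros of the polynomial. -/
theorem exists_poly {k0 k : Type} [Field k0] [Field k] [Algebra k0 k] {d : ℕ} {c : Fin d → k0}
    (hc : Function.Injective c) (β : Fin d → k0) {M : ℕ} (hM : 0 < M) :
    ∃ g : k[X], g ≠ 0 ∧ ∀ (L : Type) [Field L] (j : k →+* L) (ι : Type) [Fintype ι]
      (X0 : ι → L), Fintype.card ι = d →
      (∀ i, (∏ t, (X0 t - j (algebraMap k0 k (c i)))) ^ M = j (algebraMap k0 k (β i))) →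
      ∀ t, eval₂ j (X0 t) g = 0 := by
  classical
  set c' : Fin d → AlgebraicClosure k := fun i =>
    algebraMap k (AlgebraicClosure k) (algebraMap k0 k (c i)) with hc'
  have hc'i : Function.Injective c' := fun i i' h =>
    hc ((algebraMap k0 k).injective ((algebraMap k (AlgebraicClosure k)).injective h))
  set S : Finset (Fin d → AlgebraicClosure k) := Fintype.piFinset (fun i =>
    (nthRoots (2 * M) (algebraMap k (AlgebraicClosure k)
      (algebraMap k0 k (β i) ^ 2))).toFinset) with hS
  set g : k[X] := ∏ r ∈ S, ∏ ξ ∈ (pE c' r).roots.toFinset, minpoly k ξ with hg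
  have hint : ∀ ξ : AlgebraicClosure k, IsIntegral k ξ := fun ξ => Algebra.IsIntegral.isIntegral ξ
  refine ⟨g, Finset.prod_ne_zero_iff.2 (fun r _ => Finset.prod_ne_zero_iff.2
    (fun ξ _ => minpoly.ne_zero (hint ξ))), ?_⟩
  intro L _ j ι _ X0 hd h t
  let _ : Algebra k (AlgebraicClosure L) := ((algebraMap L (AlgebraicClosure L)).comp j).toAlgebra
  have hj : ∀ y : k, algebraMap k (AlgebraicClosure L) y = algebraMap L (AlgebraicClosure L) (j y) :=
    fun y => rfl
  let e : AlgebraicClosure k →ₐ[k] AlgebraicClosure L := IsAlgClosed.lift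
  have hec : ∀ i, e (c' i) = algebraMap L (AlgebraicClosure L) (j (algebraMap k0 k (c i))) :=
    fun i => e.commutes _
  have hpow : ∀ i, (∏ t, (e (c' i) - algebraMap L (AlgebraicClosure L) (X0 t))) ^ (2 * M) =
      algebraMap k (AlgebraicClosure L) (algebraMap k0 k (β i) ^ 2) := by
    intro i
    have h1 : ((∏ t, (X0 t - j (algebraMap k0 k (c i)))) ^ M) ^ 2 =
        j (algebraMap k0 k (β i)) ^ 2 := by rw [h i]
    have h2 : (∏ t, (j (algebraMap k0 k (c i)) - X0 t)) ^ 2 =
        (∏ t, (X0 t - j (algebraMap k0 k (c i)))) ^ 2 := by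
      rw [← Finset.prod_pow, ← Finset.prod_pow]
      exact Finset.prod_congr rfl (fun t _ => by ring)
    have h3 : (∏ t, (j (algebraMap k0 k (c i)) - X0 t)) ^ (2 * M) =
        j (algebraMap k0 k (β i) ^ 2) := by
      rw [pow_mul, h2, ← pow_mul, mul_comm 2 M, pow_mul, h1, map_pow]
    rw [hj, ← h3, map_pow, map_prod]
    congr 1
    exact Finset.prod_congr rfl (fun t _ => by rw [hec, map_sub])
  have hr : ∀ i, ∃ r : AlgebraicClosure k,
      e r = ∏ t, (e (c' i) - algebraMap L (AlgebraicClosure L) (X0 t)) := by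
    intro i
    refine Pool.Agent.TH954.alg_range e ⟨X ^ (2 * M) - C (algebraMap k0 k (β i) ^ 2),
      X_pow_sub_C_ne_zero (by omega) _, ?_⟩
    rw [map_sub, map_pow, aeval_X, aeval_C, hpow i, sub_self]
  choose r hr using hr
  have hrS : r ∈ S := by
    rw [hS, Fintype.mem_piFinset]
    intro i
    rw [Multiset.mem_toFinset, mem_nthRoots (by omega)]
    apply e.injective
    change e (r i ^ (2 * M)) = e (algebraMap k (AlgebraicClosure k) (algebraMap k0 k (β i) ^ 2))
    rw [map_pow, hr i, hpow i]
    exact (e.commutes _).symm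
  have hprod := prod_eq_pE (e : AlgebraicClosure k →+* AlgebraicClosure L) hd hc'i r
    (fun t => algebraMap L (AlgebraicClosure L) (X0 t)) (fun i => (hr i).symm)
  have hroot : ((pE c' r).map (e : AlgebraicClosure k →+* AlgebraicClosure L)).IsRoot
      (algebraMap L (AlgebraicClosure L) (X0 t)) := by
    rw [← hprod, IsRoot.def, eval_prod]
    exact Finset.prod_eq_zero (Finset.mem_univ t) (by rw [eval_sub, eval_X, eval_C, sub_self])
  have hs : (pE c' r).Splits := IsAlgClosed.splits _
  obtain ⟨ξ, hξ⟩ := hs.mem_range_of_isRoot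
    (i := (e : AlgebraicClosure k →+* AlgebraicClosure L)) (pE_monic hc'i r).ne_zero hroot
  have hξ' : e ξ = algebraMap L (AlgebraicClosure L) (X0 t) := hξ
  have hξr : ξ ∈ (pE c' r).roots.toFinset := by
    rw [Multiset.mem_toFinset, mem_roots (pE_monic hc'i r).ne_zero, IsRoot.def]
    apply e.injective
    change e (eval ξ (pE c' r)) = e 0
    rw [map_zero]
    rw [IsRoot.def, eval_map, ← hξ'] at hroot
    have h5 : eval₂ (e : AlgebraicClosure k →+* AlgebraicClosure L) (e ξ) (pE c' r) =
        e (eval ξ (pE c' r)) := eval₂_hom _ _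
    rw [← h5]
    exact hroot
  have hdvd : minpoly k ξ ∣ g := by
    rw [hg]
    exact (Finset.dvd_prod_of_mem (fun ξ => minpoly k ξ) hξr).trans
      (Finset.dvd_prod_of_mem (fun r => ∏ ξ ∈ (pE c' r).roots.toFinset, minpoly k ξ) hrS)
  apply (algebraMap L (AlgebraicClosure L)).injective
  rw [map_zero, hom_eval₂, ← hξ']
  have h6 : aeval ξ g = 0 := by
    obtain ⟨q, hq⟩ := hdvd
    rw [hq, map_mul, minpoly.aeval, zero_mul]
  have h7 : aeval (e ξ) g = 0 := by rw [aeval_algHom_apply, h6, map_zero]
  exact h7

end Pool.Agent.V7H2.KS
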