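import Pool.Agent.V7H2.KS.Places
import Pool.Agent.V7H2.KS.Interp
import Mathlib.FieldTheory.Normal.Closure
import Mathlib.FieldTheory.IsAlgClosed.AlgebraicClosure
import Mathlib.RingTheory.Norm.Basic

/-!
# Adelic points with units at rational numbers have finitely many coordinates
-/

set_option autoImplicit false

namespace Pool.Agent.V7H2.KS

open IsDedekindDomain HeightOneSpectrum NumberField WithZero Polynomial

/-- a number field containing all conjugates of `k` -/
lemma exists_closure (k : Type) [Field k] [NumberField k] :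
    ∃ (N : Type) (_ : Field N) (_ : NumberField N) (ι : Type) (_ : Fintype ι) (f : ι → k →+* N),
      Fintype.card ι = Module.finrank ℚ k ∧
      ∀ y : k, ∏ t, f t y = ((Algebra.norm ℚ y : ℚ) : N) := by
  classical
  have hfd : FiniteDimensional ℚ (IntermediateField.normalClosure ℚ k (AlgebraicClosure ℚ)) :=
    normalClosure.is_finiteDimensional ℚ k (AlgebraicClosure ℚ)
  have hnf : NumberField (IntermediateField.normalClosure ℚ k (AlgebraicClosure ℚ)) :=
    { to_charZero := inferInstance
      to_finiteDimensional := hfd }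
  refine ⟨IntermediateField.normalClosure ℚ k (AlgebraicClosure ℚ), inferInstance, hnf,
    k →ₐ[ℚ] AlgebraicClosure ℚ, inferInstance,
    fun t => ((normalClosure.algHomEquiv ℚ k (AlgebraicClosure ℚ)).symm t : k →+* _), ?_, ?_⟩
  · exact AlgHom.card ℚ k (AlgebraicClosure ℚ)
  · intro y
    apply (algebraMap (IntermediateField.normalClosure ℚ k (AlgebraicClosure ℚ))
      (AlgebraicClosure ℚ)).injective
    rw [map_prod, map_ratCast]
    have h := Algebra.norm_eq_prod_embeddings ℚ (AlgebraicClosure ℚ) y
    rw [eq_ratCast] at h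
    rw [h]
    rfl

variable {k : Type} [Field k] [NumberField k]

/-- the valuation of the constant in a Kummer decomposition -/
lemma val_of_kummer {v : HeightOneSpectrum (𝓞 k)} {m : ℤ} {a z : v.adicCompletion k} {e : k}
    {n : ℕ} (ha : Valued.v a = exp (-m)) (h : a = algebraMap k (v.adicCompletion k) e * z ^ n)
    (hn : 0 < n) : ∃ l : ℤ, v.valuation k e = exp (-(m + n * l)) := by
  rw [h, map_mul, map_pow, vA] at ha
  have hz0 : Valued.v z ≠ 0 := by
    intro h0
    rw [h0, zero_pow hn.ne', mul_zero] at ha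
    exact exp_ne_zero ha.symm
  refine ⟨log (Valued.v z), ?_⟩
  have h1 : Valued.v z ^ n = exp ((n : ℤ) * log (Valued.v z)) := by
    conv_lhs => rw [← exp_log hz0]
    rw [← exp_nsmul, nsmul_eq_mul]
  rw [h1] at ha
  have h2 : exp ((n : ℤ) * log (Valued.v z)) ≠ (0 : ℤᵐ⁰) := exp_ne_zero
  rw [← mul_left_inj' h2, ha, ← exp_add]
  congr 1
  ring

/-- **Main local statement.** Adelic points `x` whose translates by `[k : ℚ]` distinct rational
numbers are, up to `n`-th powers, elements of `k`, and have only finitely many nonzero valuations,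
are zeros of a fixed polynomial. -/
theorem aeval_bigP {c : Fin (Module.finrank ℚ k) → ℚ} (hc : Function.Injective c)
    {m : Fin (Module.finrank ℚ k) → HeightOneSpectrum (𝓞 k) → ℤ}
    (hm : ∀ i, {v | m i v ≠ 0}.Finite) (x : ∀ v : HeightOneSpectrum (𝓞 k), v.adicCompletion k)
    (hx : ∀ i v, Valued.v (x v - algebraMap k (v.adicCompletion k) (c i : k)) = exp (-(m i v)))
    (hK : ∀ i (n : ℕ), 0 < n → ∃ e : k, e ≠ 0 ∧ ∀ v : HeightOneSpectrum (𝓞 k),
      ∃ z : v.adicCompletion k, x v - algebraMap k (v.adicCompletion k) (c i : k) =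
        algebraMap k (v.adicCompletion k) e * z ^ n) (v : HeightOneSpectrum (𝓞 k)) :
    aeval (x v) ((bigP c (fun i => nrm (m i))).map (algebraMap ℚ k)) = 0 := by
  classical
  obtain ⟨N, _, _, ι, _, f, hcard, hnorm⟩ := exists_closure k
  have hι : Nonempty ι := by
    rw [← Fintype.card_pos_iff, hcard]
    exact Module.finrank_pos
  obtain ⟨t0⟩ := hι
  obtain ⟨w, rfl⟩ := exists_above (f t0) v
  choose j hj using fun t => exists_map (f t) w
  have hL : CharZero (w.adicCompletion N) :=
    charZero_of_injective_algebraMap (algebraMap N (w.adicCompletion N)).injective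
  set X0 : ι → w.adicCompletion N := fun t => j t (x (below (f t) w)) with hX0
  have key : ∀ i, (∏ t, (X0 t - (c i : w.adicCompletion N))) ^ 2 =
      ((nrm (m i) : ℚ) : w.adicCompletion N) ^ 2 := by
    intro i
    have hb : (nrm (m i) : ℚ) ≠ 0 := (nrm_pos (m i)).ne'
    have hbL : ((nrm (m i) : ℚ) : w.adicCompletion N) ≠ 0 := by exact_mod_cast hb
    have h1 : ∀ t, X0 t - (c i : w.adicCompletion N) =
        j t (x (below (f t) w) - algebraMap k ((below (f t) w).adicCompletion k) (c i : k)) := by
      intro t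
      rw [map_sub, hj, map_ratCast, map_ratCast]
    have hne : (∏ t, (X0 t - (c i : w.adicCompletion N))) ≠ 0 := by
      refine Finset.prod_ne_zero_iff.2 (fun t _ => ?_)
      rw [h1, _root_.map_ne_zero]
      intro h0
      have h2 := hx i (below (f t) w)
      rw [h0, map_zero] at h2
      exact exp_ne_zero h2.symm
    have hy : (∏ t, (X0 t - (c i : w.adicCompletion N))) ^ 2 /
        ((nrm (m i) : ℚ) : w.adicCompletion N) ^ 2 = 1 := by
      refine eq_one_of_pow w (div_ne_zero (pow_ne_zero 2 hne) (pow_ne_zero 2 hbL))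
        (fun n hn => ?_)
      obtain ⟨e, he0, he⟩ := hK i n hn
      obtain ⟨r, hr0, hr⟩ := norm_form (hm i) hn he0 (fun v => by
        obtain ⟨z, hz⟩ := he v
        exact val_of_kummer (hx i v) hz hn)
      choose z hz using fun t => he (below (f t) w)
      have h3 : (∏ t, (X0 t - (c i : w.adicCompletion N))) =
          ((Algebra.norm ℚ e : ℚ) : w.adicCompletion N) * (∏ t, j t (z t)) ^ n := by
        have h5 : ∀ t, X0 t - (c i : w.adicCompletion N) =
            algebraMap N (w.adicCompletion N) (f t e) * (j t (z t)) ^ n := by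
          intro t
          rw [h1 t, hz t, map_mul, map_pow, hj]
        rw [Finset.prod_congr rfl (fun t _ => h5 t), Finset.prod_mul_distrib, Finset.prod_pow,
          ← map_prod, hnorm, map_ratCast]
      refine ⟨(r : w.adicCompletion N) ^ 2 * (∏ t, j t (z t)) ^ 2, ?_⟩
      have h4 : ((Algebra.norm ℚ e : ℚ) : w.adicCompletion N) ^ 2 =
          ((nrm (m i) : ℚ) : w.adicCompletion N) ^ 2 * ((r : w.adicCompletion N) ^ n) ^ 2 := by
        have h6 : (Algebra.norm ℚ e) ^ 2 = (nrm (m i)) ^ 2 * (r ^ n) ^ 2 := by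
          rw [← mul_pow, ← hr, sq_abs]
        exact_mod_cast congrArg (fun q : ℚ => (q : w.adicCompletion N)) h6
      rw [eq_div_iff (pow_ne_zero 2 hbL), h3, mul_pow _ _ 2, h4]
      ring
    rwa [div_eq_one_iff_eq (pow_ne_zero 2 hbL)] at hy
  have h7 := interp hcard hc (fun i => nrm (m i)) X0 key t0
  apply (j t0).injective
  rw [map_zero, aeval_def, hom_eval₂, eval₂_map, ← h7]
  congr 1
  exact Subsingleton.elim _ _

end Pool.Agent.V7H2.KS
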