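import Pool.Agent.V7H2.KS.Places
import Pool.Agent.V7H2.KS.Interp2
import Pool.Agent.V7H2.KS.Cls
import Mathlib.FieldTheory.Normal.Closure
import Mathlib.FieldTheory.IsAlgClosed.AlgebraicClosure
import Mathlib.RingTheory.Norm.Basic
import Mathlib.NumberTheory.NumberField.Norm

/-!
# Adelic points with units at points over a field with finitely many units
-/

set_option autoImplicit false

namespace Pool.Agent.V7H2.KS

open IsDedekindDomain HeightOneSpectrum NumberField WithZero Polynomial

/-- a number field containing all conjugates of `k` over `k0` -/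
lemma exists_closure2 (k0 k : Type) [Field k0] [NumberField k0] [Field k] [NumberField k]
    [Algebra k0 k] :
    ∃ (N : Type) (_ : Field N) (_ : NumberField N) (f0 : k0 →+* N) (ι : Type) (_ : Fintype ι)
      (f : ι → k →+* N), Fintype.card ι = Module.finrank k0 k ∧
      (∀ t y, f t (algebraMap k0 k y) = f0 y) ∧
      ∀ y : k, ∏ t, f t y = f0 (Algebra.norm k0 y) := by
  classical
  have hfin : FiniteDimensional k0 k := Module.Finite.of_restrictScalars_finite ℚ k0 k
  have hfd : FiniteDimensional k0 (IntermediateField.normalClosure k0 k (AlgebraicClosure k0)) :=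
    normalClosure.is_finiteDimensional k0 k (AlgebraicClosure k0)
  have hnf : NumberField (IntermediateField.normalClosure k0 k (AlgebraicClosure k0)) :=
    NumberField.of_module_finite k0 _
  refine ⟨IntermediateField.normalClosure k0 k (AlgebraicClosure k0), inferInstance, hnf,
    algebraMap k0 _, k →ₐ[k0] AlgebraicClosure k0, inferInstance,
    fun t => ((normalClosure.algHomEquiv k0 k (AlgebraicClosure k0)).symm t : k →+* _),
    ?_, ?_, ?_⟩
  · exact AlgHom.card k0 k (AlgebraicClosure k0)
  · intro t y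
    exact ((normalClosure.algHomEquiv k0 k (AlgebraicClosure k0)).symm t).commutes y
  · intro y
    apply (algebraMap (IntermediateField.normalClosure k0 k (AlgebraicClosure k0))
      (AlgebraicClosure k0)).injective
    rw [map_prod, ← IsScalarTower.algebraMap_apply]
    exact (Algebra.norm_eq_prod_embeddings k0 (AlgebraicClosure k0) y).symm

lemma norm_unit {k0 k : Type} [Field k0] [NumberField k0] [Field k] [NumberField k]
    [Algebra k0 k] (u : (𝓞 k)ˣ) :
    (Algebra.norm k0 (algebraMap (𝓞 k) k u)) ^ Nat.card (𝓞 k0)ˣ = 1 := by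
  have h1 := pow_card_eq_one' (x := Units.map (RingOfIntegers.norm k0 : 𝓞 k →* 𝓞 k0) u)
  have h2 := congrArg (fun z : (𝓞 k0)ˣ => algebraMap (𝓞 k0) k0 (z : 𝓞 k0)) h1
  simp only [Units.val_pow_eq_pow_val, map_pow, Units.val_one, map_one] at h2
  exact h2

variable {k0 k : Type} [Field k0] [NumberField k0] [Field k] [NumberField k] [Algebra k0 k]

/-- the valuation of the constant in a Kummer decomposition -/
lemma val_of_kummer2 {v : HeightOneSpectrum (𝓞 k)} {m : ℤ} {a z : v.adicCompletion k} {e : k}
    {n : ℕ} (ha : Valued.v a = exp (-m)) (h : a = algebraMap k (v.adicCompletion k) e * z ^ n)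
    (hn : 0 < n) : ∃ l : ℤ, v.valuation k e = exp (-(m + n * l)) := by
  rw [h, map_mul, map_pow, vA] at ha
  have hz0 : Valued.v z ≠ 0 := by
    intro h0
    rw [h0, zero_pow hn.ne', mul_zero] at ha
    exact exp_ne_zero ha.symm
  refine ⟨log (Valued.v z), ?_⟩
  have h1 : Valued.v z ^ n = exp ((n : ℤ) * log (Valued.v z)) := by
    conv_lhs => rw [← exp_log hz0]
    rw [← exp_nsmul, nsmul_eq_mul]
  rw [h1] at ha
  have h2 : exp ((n : ℤ) * log (Valued.v z)) ≠ (0 : ℤᵐ⁰) := exp_ne_zero
  rw [← mul_left_inj' h2, ha, ← exp_add]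
  congr 1
  ring

/-- **Main local statement.** Let `k0` be a subfield of `k` with finitely many units. The adelic
points `x` whose translates by `[k : k0]` different elements of `k0` have given valuations, almost
all of them zero, and are, up to `n`-th powers, elements of `k`, are zeros of a fixed polynomial. -/
theorem exists_G [Finite (𝓞 k0)ˣ] {c : Fin (Module.finrank k0 k) → k0}
    (hc : Function.Injective c)
    {m : Fin (Module.finrank k0 k) → HeightOneSpectrum (𝓞 k) → ℤ}
    (hm : ∀ i, {v | m i v ≠ 0}.Finite) :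
    ∃ g : k[X], g ≠ 0 ∧ ∀ x : (∀ v : HeightOneSpectrum (𝓞 k), v.adicCompletion k),
      (∀ i v, Valued.v (x v - algebraMap k (v.adicCompletion k) (algebraMap k0 k (c i))) =
        exp (-(m i v))) →
      (∀ i (n : ℕ), 0 < n → ∃ e : k, e ≠ 0 ∧ ∀ v : HeightOneSpectrum (𝓞 k),
        ∃ z : v.adicCompletion k,
          x v - algebraMap k (v.adicCompletion k) (algebraMap k0 k (c i)) =
            algebraMap k (v.adicCompletion k) e * z ^ n) →
      ∀ v, aeval (x v) g = 0 := by
  classical
  choose b hb0 hb using fun i => class_form (hm i)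
  have hW : 0 < Nat.card (𝓞 k0)ˣ := Nat.card_pos
  have hh : 0 < classNumber k := Fintype.card_pos
  have hfin : FiniteDimensional k0 k := Module.Finite.of_restrictScalars_finite ℚ k0 k
  obtain ⟨g, hg0, hg⟩ := exists_poly (k := k) hc
    (fun i => (Algebra.norm k0 (b i)) ^ Nat.card (𝓞 k0)ˣ)
    (M := classNumber k * Nat.card (𝓞 k0)ˣ) (Nat.mul_pos hh hW)
  refine ⟨g, hg0, fun x hx hK v => ?_⟩
  obtain ⟨N, _, _, f0, ι, _, f, hcard, hf0, hnorm⟩ := exists_closure2 k0 k
  have hι : Nonempty ι := by
    rw [← Fintype.card_pos_iff, hcard]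
    exact Module.finrank_pos
  obtain ⟨t0⟩ := hι
  obtain ⟨w, rfl⟩ := exists_above (f t0) v
  choose j hj using fun t => exists_map (f t) w
  set X0 : ι → w.adicCompletion N := fun t => j t (x (below (f t) w)) with hX0
  have hj0 : ∀ t y, j t (algebraMap k ((below (f t) w).adicCompletion k) (algebraMap k0 k y)) =
      algebraMap N (w.adicCompletion N) (f0 y) := by
    intro t y
    rw [hj, hf0]
  apply (j t0).injective
  rw [map_zero, aeval_def, hom_eval₂]
  refine hg (w.adicCompletion N) ((j t0).comp (algebraMap k _)) ι X0 hcard (fun i => ?_) t0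
  rw [RingHom.comp_apply, RingHom.comp_apply, hj0, hj0]
  set F : w.adicCompletion N :=
    ∏ t, (X0 t - algebraMap N (w.adicCompletion N) (f0 (c i))) with hF
  have h1 : ∀ t, X0 t - algebraMap N (w.adicCompletion N) (f0 (c i)) =
      j t (x (below (f t) w) - algebraMap k ((below (f t) w).adicCompletion k)
        (algebraMap k0 k (c i))) := by
    intro t
    rw [map_sub, hj0]
  have hne : F ≠ 0 := by
    refine Finset.prod_ne_zero_iff.2 (fun t _ => ?_)
    rw [h1, _root_.map_ne_zero]
    intro h0
    have h2 := hx i (below (f t) w)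
    rw [h0, map_zero] at h2
    exact exp_ne_zero h2.symm
  have hB : algebraMap N (w.adicCompletion N)
      (f0 ((Algebra.norm k0 (b i)) ^ Nat.card (𝓞 k0)ˣ)) ≠ 0 := by
    rw [_root_.map_ne_zero, _root_.map_ne_zero]
    exact pow_ne_zero _ (Algebra.norm_ne_zero_iff.2 (hb0 i))
  have hy : F ^ (classNumber k * Nat.card (𝓞 k0)ˣ) / algebraMap N (w.adicCompletion N)
      (f0 ((Algebra.norm k0 (b i)) ^ Nat.card (𝓞 k0)ˣ)) = 1 := by
    refine eq_one_of_pow w (div_ne_zero (pow_ne_zero _ hne) hB) (fun n hn => ?_)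
    obtain ⟨e, he0, he⟩ := hK i n hn
    obtain ⟨q, u, hq0, hq⟩ := hb i n e hn he0 (fun v => by
      obtain ⟨z, hz⟩ := he v
      exact val_of_kummer2 (hx i v) hz hn)
    choose z hz using fun t => he (below (f t) w)
    have h3 : F = algebraMap N (w.adicCompletion N) (f0 (Algebra.norm k0 e)) *
        (∏ t, j t (z t)) ^ n := by
      have h5 : ∀ t, X0 t - algebraMap N (w.adicCompletion N) (f0 (c i)) =
          algebraMap N (w.adicCompletion N) (f t e) * (j t (z t)) ^ n := by
        intro t
        rw [h1 t, hz t, map_mul, map_pow, hj]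
      rw [hF, Finset.prod_congr rfl (fun t _ => h5 t), Finset.prod_mul_distrib, Finset.prod_pow,
        ← map_prod, hnorm]
    have h4 : (Algebra.norm k0 e) ^ (classNumber k * Nat.card (𝓞 k0)ˣ) =
        (Algebra.norm k0 (b i)) ^ Nat.card (𝓞 k0)ˣ *
          ((Algebra.norm k0 q) ^ Nat.card (𝓞 k0)ˣ) ^ n := by
      rw [pow_mul, ← map_pow (Algebra.norm k0), hq, map_mul, map_mul, map_pow, mul_pow,
        norm_unit, one_mul, mul_pow, ← pow_mul, ← pow_mul, mul_comm n]
    refine ⟨algebraMap N (w.adicCompletion N) (f0 ((Algebra.norm k0 q) ^ Nat.card (𝓞 k0)ˣ)) *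
      (∏ t, j t (z t)) ^ (classNumber k * Nat.card (𝓞 k0)ˣ), ?_⟩
    rw [eq_div_iff hB, h3, mul_pow (algebraMap N (w.adicCompletion N) (f0 (Algebra.norm k0 e))),
      ← map_pow (algebraMap N (w.adicCompletion N)), ← map_pow f0, h4, map_mul f0, map_mul,
      map_pow f0 _ n, map_pow (algebraMap N (w.adicCompletion N)) _ n]
    ring
  rwa [div_eq_one_iff_eq hB] at hy

end Pool.Agent.V7H2.KS
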