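import Pool.Agent.TH954.SBirMain
import Pool.Agent.TH954.SEt2
import Pool.Agent.N890.KO.All
import Pool.Agent.V7H2.KS.Local

/-!
# Sections with adelic units are geometric
-/

set_option autoImplicit false

namespace Pool.Agent.V7H2.KS

open IsDedekindDomain HeightOneSpectrum NumberField WithZero Polynomial
open Pool.Agent.TH954

/-- The function `f` takes at the local points `p v` values `a v` in `k_v`, all different from zero,
which are units of the ring of integers for all but finitely many `v`. -/
def AdelicUnit {k F Ω : Type} [Field k] [NumberField k] [Field F] [Field Ω] [Algebra F Ω]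
    [Algebra k Ω]
    (p : ∀ v : HeightOneSpectrum (𝓞 k), Plc k Ω (AlgebraicClosure (v.adicCompletion k)))
    (f : F) : Prop :=
  ∃ a : ∀ v : HeightOneSpectrum (𝓞 k), v.adicCompletion k,
    (∀ v, a v ≠ 0 ∧ (p v).val (algebraMap F Ω f)
      (algebraMap (v.adicCompletion k) (AlgebraicClosure (v.adicCompletion k)) (a v))) ∧
    {v | Valued.v (a v) ≠ 1}.Finite

variable {k : Type} [Field k] [NumberField k] {F Ω B : Type} [Field F] [Field Ω] [Field B]
  [Algebra k F] [Algebra F Ω] [Algebra k Ω] [Algebra k B] [IsScalarTower k F Ω]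
  [IsAlgClosure F Ω] [IsAlgClosure k B]

omit [NumberField k] in
lemma geo_of_given [CharZero k] [Algebra.IsAlgebraic F Ω] (s : GalSection k F Ω B) {L : Type}
    [Field L] [Algebra k L] {p : Plc k Ω (AlgebraicClosure L)} (hp : s.GivenBy L p) :
    GeoPlc (toSAct s) p := by
  intro σ τ hστ x
  refine hp σ ((eqv k B).autCongr τ) ?_ x _ ⟨x.2, rfl⟩
  intro z c hc
  obtain ⟨y, rfl⟩ := (eqv k B).surjective z
  have e1 : p.val ((toSAct s).j y) (p.iot (toSAct s).j y) := Plc.val_j _ y
  have e2 : p.val ((toSAct s).j (τ y)) (p.iot (toSAct s).j (τ y)) := Plc.val_j _ (τ y)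
  have e3 : s.j ((eqv k B).autCongr τ (eqv k B y)) = (toSAct s).j (τ y) := by
    change s.j (eqv k B (τ ((eqv k B).symm (eqv k B y)))) = _
    rw [AlgEquiv.symm_apply_apply]
    rfl
  have e4 : p.iot (toSAct s).j y = c := e1.unique hc
  rw [e3, ← e4, ← hστ y]
  exact e2

/-- A section is geometric if a nonzero function vanishes at all local points. -/
theorem ring_of_zero
    (hF : ∃ t : F, Transcendental k t ∧
      Algebra.IsAlgebraic (IntermediateField.adjoin k {t}) F)
    (s : GalSection k F Ω B)
    (pl : ∀ v : HeightOneSpectrum (𝓞 k), Plc k Ω (AlgebraicClosure (v.adicCompletion k)))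
    (hp : ∀ v, s.GivenBy (v.adicCompletion k) (pl v)) {t : F} (ht0 : t ≠ 0)
    (ht : ∀ v, (pl v).val (algebraMap F Ω t) 0) :
    ∃! O : ValuationSubring F, s.ArisesFrom O := by
  have hΩ1 : IsAlgClosed Ω := IsAlgClosure.isAlgClosed F
  have hΩ2 : Algebra.IsAlgebraic F Ω := IsAlgClosure.isAlgebraic
  set A := toSAct s with hA
  have hpl : ∀ v, GeoPlc A (pl v) := fun v => geo_of_given s (hp v)
  have hAF : ∀ (τ : AlgebraicClosure k ≃ₐ[k] AlgebraicClosure k) (x : F),
      A.s τ (algebraMap F Ω x) = algebraMap F Ω x :=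
    fun τ x => (s.s ((eqv k B).autCongr τ)).commutes x
  have ht00 : algebraMap F Ω t ≠ 0 := (_root_.map_ne_zero _).2 ht0
  have hx0W : ∀ v, algebraMap F Ω t⁻¹ ∉ (pl v).W := by
    intro v
    refine Plc.notMem_of_val_inv ((_root_.map_ne_zero _).2 (inv_ne_zero ht0)) ?_
    rw [← map_inv₀, inv_inv]
    exact ht v
  have hfinV : ∀ x, FinVal A pl x := by
    refine finVal_of_alg A pl (t := algebraMap F Ω t) ht00 ht (fun x hx => ?_)
    exact (alg_adjoin_of_dim hF x hx).isAlgebraic _
  obtain ⟨U, hU⟩ := exists_ultra (A := A) (pl := pl) hpl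
  have hfixF : ∀ x : F, algebraMap F Ω x ∈ A.fix := fun x τ => hAF τ x
  have hst : ∀ (g : B ≃ₐ[k] B) (x : Ω), x ∈ limW pl U → s.s g x ∈ limW pl U := by
    intro g x hx
    rw [← toSAct_s s]
    exact limW_stable hU hfinV _ hx
  have hres : ∀ a ∈ (limW pl U).comap (algebraMap F Ω), ∃ c : k,
      ((limW pl U).comap (algebraMap F Ω)).valuation (a - algebraMap k F c) < 1 := by
    intro a ha
    obtain ⟨c, hc⟩ := exists_value hU (hfixF a) (hfinV _) ha
    refine ⟨c, (ValuationSubring.mem_nonunits_iff_or _).2 ?_⟩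
    by_cases h0 : a - algebraMap k F c = 0
    · exact Or.inl h0
    · right
      intro h3
      have h4 := mem_limW.1 (ValuationSubring.mem_comap.1 h3)
      obtain ⟨v, hv1, hv2⟩ := (hc.and h4).exists
      have h5 : (pl v).val (algebraMap F Ω (a - algebraMap k F c)) 0 := by
        have := hv1.sub (Plc.val_alg (pl := pl v) c)
        rw [sub_self] at this
        rw [map_sub, ← IsScalarTower.algebraMap_apply]
        exact this
      rw [map_inv₀] at hv2
      refine Plc.notMem_of_val_inv (pl := pl v)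
        (x := (algebraMap F Ω (a - algebraMap k F c))⁻¹)
        (inv_ne_zero ((_root_.map_ne_zero _).2 h0)) ?_ hv2
      rw [inv_inv]
      exact h5
  have hcon : ∀ c : k, algebraMap k F c ∈ (limW pl U).comap (algebraMap F Ω) := by
    intro c
    rw [ValuationSubring.mem_comap, ← IsScalarTower.algebraMap_apply]
    exact alg_mem_limW c
  refine ⟨(limW pl U).comap (algebraMap F Ω), ⟨?_, hcon, hres, limW pl U, rfl,
    fun g x => ⟨fun h => ?_, hst g x⟩⟩, ?_⟩
  · intro htop
    have h3 : t⁻¹ ∈ (limW pl U).comap (algebraMap F Ω) := by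
      rw [htop]
      exact ValuationSubring.mem_top _
    obtain ⟨v, hv⟩ := (mem_limW.1 (ValuationSubring.mem_comap.1 h3)).exists
    exact hx0W v hv
  · have h3 := hst g⁻¹ _ h
    have h4 : s.s g⁻¹ (s.s g x) = x := by
      change (s.s g⁻¹ * s.s g) x = x
      rw [← map_mul, inv_mul_cancel, map_one]
      rfl
    rwa [h4] at h3
  · rintro O ⟨-, hO2, hO3, W, hW, hO4⟩
    exact unique_ring A hfixF O _ hO2 hcon hO3 hres W (limW pl U) hW rfl
      (fun τ x hx => (hO4 _ x).2 hx) (fun τ x hx => limW_stable hU hfinV τ hx)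

/-- values of elements of the fixed field at the local points -/
lemma val_base {A : SAct k Ω} {L : Type} [Field L] [CharZero L] [Algebra k L]
    {p : Plc k Ω (AlgebraicClosure L)} (hp : GeoPlc A p) {g : Ω} (hg : g ∈ A.fix)
    (hgW : g ∈ p.W) : ∃ z : L, p.val g (algebraMap L (AlgebraicClosure L) z) := by
  obtain ⟨z, hz⟩ := value_base A hp hg hgW
  exact ⟨z, hgW, hz.symm⟩

/-- **Sections with adelic units are geometric.** -/
theorem ring_of_units
    (hF : ∃ t : F, Transcendental k t ∧
      Algebra.IsAlgebraic (IntermediateField.adjoin k {t}) F)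
    (s : GalSection k F Ω B)
    (pl : ∀ v : HeightOneSpectrum (𝓞 k), Plc k Ω (AlgebraicClosure (v.adicCompletion k)))
    (hp : ∀ v, s.GivenBy (v.adicCompletion k) (pl v)) {x : F}
    (hx : x ∉ Set.range (algebraMap k F)) {c : Fin (Module.finrank ℚ k) → ℚ}
    (hc : Function.Injective c)
    (hu : ∀ i, AdelicUnit pl (x - algebraMap k F (c i : k))) :
    ∃! O : ValuationSubring F, s.ArisesFrom O := by
  have hΩ1 : IsAlgClosed Ω := IsAlgClosure.isAlgClosed F
  have hΩ2 : Algebra.IsAlgebraic F Ω := IsAlgClosure.isAlgebraic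
  have hcv : ∀ v : HeightOneSpectrum (𝓞 k), CharZero (v.adicCompletion k) := fun v =>
    charZero_of_injective_algebraMap (algebraMap k (v.adicCompletion k)).injective
  set A := toSAct s with hA
  have hpl : ∀ v, GeoPlc A (pl v) := fun v => geo_of_given s (hp v)
  have hfixF : ∀ x : F, algebraMap F Ω x ∈ A.fix := fun x τ =>
    (s.s ((eqv k B).autCongr τ)).commutes x
  choose a ha hfin using hu
  let i0 : Fin (Module.finrank ℚ k) := ⟨0, Module.finrank_pos⟩
  set x0 : ∀ v : HeightOneSpectrum (𝓞 k), v.adicCompletion k := fun v =>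
    a i0 v + algebraMap k (v.adicCompletion k) (c i0 : k) with hx0
  have hx0v : ∀ v, (pl v).val (algebraMap F Ω x)
      (algebraMap (v.adicCompletion k) (AlgebraicClosure (v.adicCompletion k)) (x0 v)) := by
    intro v
    have h1 := (ha i0 v).2.add (Plc.val_alg (pl := pl v) (c i0 : k))
    rw [map_sub, ← IsScalarTower.algebraMap_apply, sub_add_cancel] at h1
    rw [hx0, map_add, ← IsScalarTower.algebraMap_apply]
    exact h1
  have hai : ∀ i v, x0 v - algebraMap k (v.adicCompletion k) (c i : k) = a i v := by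
    intro i v
    apply (algebraMap (v.adicCompletion k) (AlgebraicClosure (v.adicCompletion k))).injective
    have h1 := (hx0v v).sub (Plc.val_alg (pl := pl v) (c i : k))
    have h2 := (ha i v).2
    rw [map_sub, ← IsScalarTower.algebraMap_apply] at h2
    rw [map_sub, ← IsScalarTower.algebraMap_apply]
    exact h1.unique h2
  have hm : ∀ i, {v | -log (Valued.v (a i v)) ≠ 0}.Finite := by
    intro i
    refine (hfin i).subset (fun v hv h0 => hv ?_)
    rw [h0, log_one, neg_zero]
  have hroot := aeval_bigP hc (m := fun i v => -log (Valued.v (a i v))) hm x0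
    (fun i v => by
      rw [hai, neg_neg, exp_log]
      exact (Valuation.ne_zero_iff _).2 (ha i v).1)
    (fun i n hn => by
      have hne : algebraMap F Ω (x - algebraMap k F (c i : k)) ≠ 0 := by
        rw [_root_.map_ne_zero, sub_ne_zero]
        rintro h
        exact hx ⟨_, h.symm⟩
      obtain ⟨e, he0, g, hg, hfg⟩ := A.kummer (hfixF (x - algebraMap k F (c i : k))) hne hn
      refine ⟨e, he0, fun v => ?_⟩
      have hgn : g ^ n = algebraMap F Ω (x - algebraMap k F (c i : k)) * algebraMap k Ω e⁻¹ := by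
        rw [hfg, map_inv₀]
        field_simp [(_root_.map_ne_zero (algebraMap k Ω)).2 he0]
      have hgW : g ∈ (pl v).W := by
        apply Plc.mem_of_pow_mem hn
        rw [hgn]
        exact mul_mem (ha i v).2.mem ((pl v).alg_mem _)
      obtain ⟨z, hz⟩ := val_base (hpl v) hg hgW
      refine ⟨z, ?_⟩
      rw [hai]
      apply (algebraMap (v.adicCompletion k) (AlgebraicClosure (v.adicCompletion k))).injective
      have h2 := (Plc.val_alg (pl := pl v) e).mul (hz.pow n)
      rw [← hfg] at h2
      rw [map_mul, map_pow, ← IsScalarTower.algebraMap_apply]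
      exact (ha i v).2.unique h2)
  set P : k[X] := (bigP c (fun i => nrm (fun v => -log (Valued.v (a i v))))).map
    (algebraMap ℚ k) with hP
  have hP0 : P ≠ 0 := (Polynomial.map_ne_zero_iff (algebraMap ℚ k).injective).2
    (bigP_ne_zero hc _)
  refine ring_of_zero hF s pl hp (t := aeval x P) ?_ (fun v => ?_)
  · intro h0
    have halg : IsAlgebraic k (algebraMap F Ω x) := by
      refine ⟨P, hP0, ?_⟩
      rw [aeval_algebraMap_apply, h0, map_zero]
    obtain ⟨z, hz⟩ := alg_range A.j halg
    obtain ⟨b, hb⟩ := A.fix_j (z := z) (by rw [hz]; exact hfixF x)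
    apply hx
    refine ⟨b, ?_⟩
    apply (algebraMap F Ω).injective
    rw [← IsScalarTower.algebraMap_apply, ← hz, ← hb, A.j.commutes]
  · have h1 := Plc.val_aeval (hx0v v) P
    rw [aeval_algebraMap_apply, aeval_algebraMap_apply, hroot v, map_zero] at h1
    exact h1

end Pool.Agent.V7H2.KS
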