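import Pool.Agent.TH954.SFinV
import Pool.Agent.TH954.SBir

/-!
# Sections of quotients: Kummer theory for fields closed under taking roots
-/

set_option autoImplicit false
set_option linter.unusedSectionVars false

open IsDedekindDomain NumberField

namespace Pool.Agent.V7H2.KS

open Pool.Agent.TH954

/-- every element is an `n`-th power for all `n ≥ 1` -/
def RootClosed (M : Type) [Field M] : Prop := ∀ (n : ℕ), 0 < n → ∀ y : M, ∃ z : M, z ^ n = y

lemma rootClosed_of_algClosed (M : Type) [Field M] [IsAlgClosed M] : RootClosed M :=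
  fun _ hn y => IsAlgClosed.exists_pow_nat_eq y hn

section general

variable {K : Type} [Field K] [CharZero K] {M : Type} [Field M] [Algebra K M] (A : SAct K M)

/-- **Kummer theory.** Elements of the fixed field are `n`-th powers up to constants. -/
theorem kummerQ (hM : RootClosed M) {f : M} (hf : f ∈ A.fix) (hf0 : f ≠ 0) {n : ℕ} (hn : 0 < n) :
    ∃ c : K, c ≠ 0 ∧ ∃ g ∈ A.fix, f = algebraMap K M c * g ^ n := by
  classical
  have : IsGalois K (AlgebraicClosure K) := ⟨⟩
  obtain ⟨w, hw⟩ := hM n hn f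
  have hw0 : w ≠ 0 := by
    rintro rfl
    rw [zero_pow hn.ne'] at hw
    exact hf0 hw.symm
  obtain ⟨E, hE, hEw⟩ := A.cont w
  obtain ⟨β, hβ0, hβ⟩ := Pool.Agent.W620.SC.exists_fixed_multiple A.ra
    (A.j : AlgebraicClosure K →+* M) (fun σ a => A.hj σ a) ⊤ w hw0 (by
      intro σ _
      have h1 : (A.s σ w / w) ^ n = 1 := by
        rw [div_pow, ← map_pow, hw, hf σ, div_self hf0]
      obtain ⟨ζ, hζ⟩ := Pool.Agent.W620.SC.root_mem (A.j : AlgebraicClosure K →+* M) hn
        (h := A.s σ w / w) (b := 1) (by rw [h1, map_one])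
      refine ⟨ζ, ?_⟩
      rw [hζ]
      change A.s σ w = A.s σ w / w * w
      rw [div_mul_cancel₀ _ hw0]) E (by
      intro σ hσ
      exact hEw σ (fun z hz => (IntermediateField.mem_fixingSubgroup_iff _ _).1 hσ z hz))
  have hg : A.j β * w ∈ A.fix := fun τ => hβ τ (Subgroup.mem_top τ)
  have hβn : A.j (β ^ n) ∈ A.fix := by
    have e : A.j (β ^ n) = (A.j β * w) ^ n / f := by
      rw [mul_pow, hw, map_pow, mul_div_assoc, div_self hf0, mul_one]
    rw [e]
    exact div_mem (pow_mem hg n) hf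
  obtain ⟨c, hc⟩ := A.fix_j hβn
  have hc0 : c ≠ 0 := by
    rintro rfl
    rw [map_zero] at hc
    exact pow_ne_zero n hβ0 hc.symm
  refine ⟨c⁻¹, inv_ne_zero hc0, _, hg, ?_⟩
  have e : algebraMap K M c = A.j β ^ n := by
    rw [← A.j.commutes c, hc, map_pow]
  rw [map_inv₀, e, mul_pow, hw, inv_mul_cancel_left₀]
  exact pow_ne_zero _ ((map_ne_zero A.j).2 hβ0)

lemma mem_of_integralWQ {W : ValuationSubring M} (hW : ∀ c : K, algebraMap K M c ∈ W) {x : M}
    (hx : IsIntegral K x) : x ∈ W := by
  have h3 : IsIntegral W x := by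
    obtain ⟨p, hp, hp'⟩ := hx
    refine ⟨p.map ((algebraMap K M).codRestrict W hW), hp.map _, ?_⟩
    rw [Polynomial.eval₂_map]
    exact hp'
  obtain ⟨y, hy⟩ := IsIntegrallyClosed.isIntegral_iff.1 h3
  rw [← hy]
  exact y.2

lemma j_memWQ {W : ValuationSubring M} (hW : ∀ c : K, algebraMap K M c ∈ W)
    (z : AlgebraicClosure K) : A.j z ∈ W :=
  mem_of_integralWQ hW ((Algebra.IsAlgebraic.isAlgebraic z).isIntegral.map A.j)

lemma one_le_val_prodQ {W : ValuationSubring M} {ι : Type} (s : Finset ι) (f : ι → M)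
    (h : ∀ i ∈ s, 1 ≤ W.valuation (f i)) : 1 ≤ W.valuation (∏ i ∈ s, f i) := by
  classical
  induction s using Finset.induction_on with
  | empty => rw [Finset.prod_empty, map_one]
  | insert i s hi ih =>
    rw [Finset.prod_insert hi, map_mul]
    exact one_le_mul (h i (Finset.mem_insert_self _ _))
      (ih (fun j hj => h j (Finset.mem_insert_of_mem hj)))

/-- elements of the fixed field which are one modulo a stable valuation ring are powers -/
theorem exists_rootQ (hM : RootClosed M) {W : ValuationSubring M}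
    (hW : ∀ c : K, algebraMap K M c ∈ W)
    (hst : ∀ τ x, x ∈ W → A.s τ x ∈ W) {f : M} (hf : f ∈ A.fix) (hf1 : W.valuation (f - 1) < 1)
    {N : ℕ} (hN : 0 < N) : ∃ g ∈ A.fix, g ^ N = f := by
  classical
  have hchar : CharZero M := charZero_of_injective_algebraMap (algebraMap K M).injective
  have : NeZero (N : AlgebraicClosure K) := ⟨by exact_mod_cast hN.ne'⟩
  obtain ⟨ζ0, hζ0⟩ := HasEnoughRootsOfUnity.exists_primitiveRoot (AlgebraicClosure K) N
  have hζ := hζ0.map_of_injective (f := A.j) A.j.injective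
  set ζ : M := A.j ζ0 with hζdef
  obtain ⟨w, hw⟩ := hM N hN f
  have hprod := congrArg (Polynomial.eval 1) (X_pow_sub_C_eq_prod hζ hN hw)
  rw [Polynomial.eval_sub, Polynomial.eval_pow, Polynomial.eval_X, Polynomial.eval_C, one_pow,
    Polynomial.eval_prod] at hprod
  obtain ⟨g, hgN, hg⟩ : ∃ g : M, g ^ N = f ∧ W.valuation (1 - g) < 1 := by
    by_contra hcon
    push Not at hcon
    have h1 : 1 ≤ W.valuation (1 - f) := by
      rw [hprod]
      refine one_le_val_prodQ _ _ (fun i _ => ?_)
      rw [Polynomial.eval_sub, Polynomial.eval_X, Polynomial.eval_C]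
      apply hcon
      rw [mul_pow, hw, ← pow_mul, mul_comm i N, pow_mul, hζ.pow_eq_one, one_pow, one_mul]
    rw [Valuation.map_sub_swap] at h1
    exact absurd hf1 (not_lt.2 h1)
  have hf0 : f ≠ 0 := by
    rintro rfl
    rw [zero_sub, Valuation.map_neg, map_one] at hf1
    exact lt_irrefl _ hf1
  have hg0 : g ≠ 0 := by
    rintro rfl
    rw [zero_pow hN.ne'] at hgN
    exact hf0 hgN.symm
  have hgv : W.valuation g = 1 := by
    have h1 : W.valuation (1 - (1 - g)) = W.valuation 1 :=
      Valuation.map_sub_eq_of_lt_left _ (by rw [map_one]; exact hg)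
    rw [sub_sub_cancel, map_one] at h1
    exact h1
  have hstv : ∀ τ x, W.valuation x < 1 → W.valuation (A.s τ x) < 1 := by
    intro τ x hx
    by_contra hcon
    rw [not_lt] at hcon
    have hx0 : x ≠ 0 := by
      rintro rfl
      rw [map_zero, map_zero] at hcon
      exact absurd hcon (not_le.2 zero_lt_one)
    have h1 : (A.s τ x)⁻¹ ∈ W := by
      rw [← ValuationSubring.valuation_le_one_iff, map_inv₀]
      exact inv_le_one_of_one_le₀ hcon
    have h2 := hst τ⁻¹ _ h1
    rw [map_inv₀] at h2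
    have h3 : A.s τ⁻¹ (A.s τ x) = x := by
      change (A.s τ⁻¹ * A.s τ) x = x
      rw [← map_mul, inv_mul_cancel, map_one]
      rfl
    rw [h3, ← ValuationSubring.valuation_le_one_iff, map_inv₀] at h2
    have h4 : 0 < W.valuation x := zero_lt_iff.2 ((Valuation.ne_zero_iff _).2 hx0)
    exact absurd h2 (not_le.2 ((one_lt_inv₀ h4).2 hx))
  refine ⟨g, fun τ => ?_, hgN⟩
  have h1 : (A.s τ g / g) ^ N = 1 := by
    rw [div_pow, ← map_pow, hgN, hf τ, div_self hf0]
  obtain ⟨z, hz⟩ := Pool.Agent.W620.SC.root_mem (A.j : AlgebraicClosure K →+* M) hN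
    (h := A.s τ g / g) (b := 1) (by rw [h1, map_one])
  have hz' : A.j z = A.s τ g / g := hz
  by_contra hne
  have hz1 : 1 - z ≠ 0 := by
    intro h0
    rw [sub_eq_zero] at h0
    rw [← h0, map_one, eq_div_iff hg0, one_mul] at hz'
    exact hne hz'.symm
  have h2 : W.valuation (A.j (1 - z)) < 1 := by
    have e : A.j (1 - z) = ((1 - A.s τ g) - (1 - g)) / g := by
      rw [map_sub, map_one, hz']
      field_simp
      ring
    have h3 := hstv τ _ hg
    rw [map_sub (A.s τ), map_one (A.s τ)] at h3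
    rw [e, map_div₀, hgv, div_one]
    exact Valuation.map_sub_lt _ h3 hg
  have h3 : W.valuation (A.j (1 - z)⁻¹) ≤ 1 :=
    (ValuationSubring.valuation_le_one_iff _ _).2 (j_memWQ A hW _)
  have h4 : W.valuation (A.j (1 - z)) * W.valuation (A.j (1 - z)⁻¹) = 1 := by
    rw [← map_mul, ← map_mul, mul_inv_cancel₀ hz1, map_one, map_one]
  have h5 := mul_lt_one_of_lt_of_le h2 h3
  rw [h4] at h5
  exact lt_irrefl _ h5

end general

section

variable {K : Type} [Field K] [NumberField K]
variable {M : Type} [Field M] [Algebra K M] {A : SAct K M}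
  {pl : ∀ v : HeightOneSpectrum (𝓞 K), Plc K M (AlgebraicClosure (v.adicCompletion K))}

/-- elements of `DSet` have a rational value -/
theorem exists_ratQ (hM : RootClosed M) (hpl : ∀ v, GeoPlc A (pl v)) {u : M}
    (hu : DSet A pl u) : ∃ v, Rat pl u v := by
  classical
  obtain ⟨huf, huW, R, hR⟩ := hu
  obtain ⟨R', hRR', hR'⟩ := exists_stable R
  obtain ⟨l, a, hl, hob⟩ := obstruct (R'.filter (fun θ =>
    ∃ σ : AlgebraicClosure K ≃ₐ[K] AlgebraicClosure K, σ θ ≠ θ)) (by
      intro σ θ hθ
      rw [Finset.mem_filter] at hθ ⊢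
      obtain ⟨h1, σ', h2⟩ := hθ
      refine ⟨hR' σ θ h1, σ * σ' * σ⁻¹, fun h3 => h2 ?_⟩
      have h4 : (σ * σ' * σ⁻¹) (σ θ) = σ (σ' θ) := by
        change σ (σ' (σ.symm (σ θ))) = _
        rw [σ.symm_apply_apply]
      rw [h4] at h3
      exact σ.injective h3) (fun θ hθ => (Finset.mem_filter.1 hθ).2)
  by_cases hua : u = algebraMap K M a
  · obtain ⟨v, -⟩ := hob 1 one_ne_zero
    refine ⟨v, a, ?_⟩
    rw [hua]
    exact Plc.val_alg a
  · obtain ⟨c, hc, g, hg, hfg⟩ := kummerQ A hM (f := u - algebraMap K M a)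
      (sub_mem huf (A.fix.algebraMap_mem a)) (sub_ne_zero.2 hua) (n := l) (by omega)
    obtain ⟨v, hv⟩ := hob c hc
    refine ⟨v, ?_⟩
    have : CharZero (v.adicCompletion K) :=
      charZero_of_injective_algebraMap (algebraMap K (v.adicCompletion K)).injective
    obtain ⟨β, hβ, hval⟩ := hR v (huW v)
    by_cases hfix : ∀ σ : AlgebraicClosure K ≃ₐ[K] AlgebraicClosure K, σ β = β
    · obtain ⟨c', hc'⟩ := base_of_fixed hfix
      refine ⟨c', ?_⟩
      rw [← hc'] at hval
      rw [← ((pl v).iot A.j).commutes c']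
      exact hval
    · exfalso
      push Not at hfix
      have hgl : g ^ l = (u - algebraMap K M a) * algebraMap K M c⁻¹ := by
        rw [hfg, map_inv₀]
        field_simp [(map_ne_zero (algebraMap K M)).2 hc]
      have hgW : g ∈ (pl v).W := by
        apply Plc.mem_of_pow_mem (n := l) (by omega)
        rw [hgl]
        exact mul_mem (sub_mem (huW v) ((pl v).alg_mem a)) ((pl v).alg_mem _)
      obtain ⟨z, hz⟩ := value_base A (hpl v) hg hgW
      refine hv ((pl v).iot A.j) β (Finset.mem_filter.2 ⟨hRR' hβ, hfix⟩) z ?_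
      have h1 : (pl v).val (u - algebraMap K M a)
          ((pl v).iot A.j β - algebraMap K (AlgebraicClosure (v.adicCompletion K)) a) :=
        hval.sub (Plc.val_alg a)
      have h2 : (pl v).val (algebraMap K M c * g ^ l)
          (algebraMap K (AlgebraicClosure (v.adicCompletion K)) c *
            (algebraMap (v.adicCompletion K) (AlgebraicClosure (v.adicCompletion K)) z) ^ l) :=
        (Plc.val_alg c).mul (Plc.val.pow ⟨hgW, hz.symm⟩ l)
      rw [← hfg] at h2
      have h3 := h1.unique h2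
      rw [map_sub, ((pl v).iot A.j).commutes a, h3, map_mul, map_pow,
        ← IsScalarTower.algebraMap_apply]

/-- the ultrafilter -/
theorem exists_ultraQ (hM : RootClosed M) (hpl : ∀ v, GeoPlc A (pl v)) :
    ∃ U : Ultrafilter (HeightOneSpectrum (𝓞 K)), ∀ u, DSet A pl u →
      ∀ᶠ v in (U : Filter (HeightOneSpectrum (𝓞 K))), Rat pl u v := by
  have : Nonempty {u : M // DSet A pl u} := ⟨⟨0, DSet.zero⟩⟩
  let f : {u : M // DSet A pl u} → Filter (HeightOneSpectrum (𝓞 K)) :=
    fun u => Filter.principal {v | Rat pl u.1 v}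
  have hne : (⨅ u, f u).NeBot := by
    apply Filter.iInf_neBot_of_directed'
    · rintro ⟨u1, h1⟩ ⟨u2, h2⟩
      obtain ⟨u, hu, h⟩ := h1.combine h2
      refine ⟨⟨u, hu⟩, ?_, ?_⟩
      · exact Filter.principal_mono.2 (fun v hv => (h v hv).1)
      · exact Filter.principal_mono.2 (fun v hv => (h v hv).2)
    · rintro ⟨u, hu⟩
      obtain ⟨v, hv⟩ := exists_ratQ hM hpl hu
      exact Filter.principal_neBot_iff.2 ⟨v, hv⟩
  refine ⟨Ultrafilter.of (⨅ u, f u), fun u hu => ?_⟩
  have h1 : (Ultrafilter.of (⨅ u, f u) : Filter (HeightOneSpectrum (𝓞 K))) ≤ f ⟨u, hu⟩ :=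
    (Ultrafilter.of_le _).trans (iInf_le f ⟨u, hu⟩)
  exact h1 (Filter.mem_principal_self _)

end

/-- two valuation rings with the same residue field `K` which are fixed by a section are equal -/
theorem unique_ringQ {K : Type} [Field K] [NumberField K] {M : Type} [Field M] [Algebra K M]
    (hM : RootClosed M) (A : SAct K M) {F : Type} [Field F] [Algebra K F] [Algebra F M]
    [IsScalarTower K F M] (hF : ∀ x : F, algebraMap F M x ∈ A.fix)
    (O1 O2 : ValuationSubring F)
    (h1 : ∀ c : K, algebraMap K F c ∈ O1) (h2 : ∀ c : K, algebraMap K F c ∈ O2)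
    (h1' : ∀ a ∈ O1, ∃ c : K, O1.valuation (a - algebraMap K F c) < 1)
    (h2' : ∀ a ∈ O2, ∃ c : K, O2.valuation (a - algebraMap K F c) < 1)
    (W1 W2 : ValuationSubring M) (hW1 : W1.comap (algebraMap F M) = O1)
    (hW2 : W2.comap (algebraMap F M) = O2)
    (hs1 : ∀ τ x, x ∈ W1 → A.s τ x ∈ W1) (hs2 : ∀ τ x, x ∈ W2 → A.s τ x ∈ W2) : O1 = O2 := by
  have hle : ∀ O O' : ValuationSubring F, (∀ c : K, algebraMap K F c ∈ O) →
      (∀ a ∈ O', ∃ c : K, O'.valuation (a - algebraMap K F c) < 1) → O ≤ O' → O' ≤ O := by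
    intro O O' hc hr hOO x hx
    obtain ⟨c, hc'⟩ := hr x hx
    have h3 : x - algebraMap K F c ∈ O := by
      rcases (ValuationSubring.mem_nonunits_iff_or _).1 hc' with h | h
      · rw [h]
        exact zero_mem _
      · exact (O.mem_or_inv_mem _).resolve_right (fun h4 => h (hOO h4))
    have h4 := add_mem h3 (hc c)
    rwa [sub_add_cancel] at h4
  by_contra hne
  have hn1 : ¬ O1 ≤ O2 := fun h => hne (le_antisymm h (hle O1 O2 h1 h2' h))
  have hn2 : ¬ O2 ≤ O1 := fun h => hne (le_antisymm (hle O2 O1 h2 h1' h) h)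
  obtain ⟨a, ha1, ha2⟩ := Set.not_subset.1 hn1
  obtain ⟨b, hb2, hb1⟩ := Set.not_subset.1 hn2
  have ha1' : O1.valuation a ≤ 1 := (O1.valuation_le_one_iff a).2 ha1
  have ha2' : 1 < O2.valuation a := not_le.1 (fun h => ha2 ((O2.valuation_le_one_iff a).1 h))
  have hb2' : O2.valuation b ≤ 1 := (O2.valuation_le_one_iff b).2 hb2
  have hb1' : 1 < O1.valuation b := not_le.1 (fun h => hb1 ((O1.valuation_le_one_iff b).1 h))
  have ha0 : a ≠ 0 := by
    rintro rfl
    rw [map_zero] at ha2'
    exact absurd ha2' (not_lt.2 zero_le_one)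
  have hb0 : b ≠ 0 := by
    rintro rfl
    rw [map_zero] at hb1'
    exact absurd hb1' (not_lt.2 zero_le_one)
  set t : F := a / b with ht
  have ht1 : O1.valuation t < 1 := by
    rw [ht, map_div₀, div_lt_one₀ (zero_lt_one.trans hb1')]
    exact lt_of_le_of_lt ha1' hb1'
  have ht2 : 1 < O2.valuation t := by
    rw [ht, map_div₀]
    have hb0' : 0 < O2.valuation b := zero_lt_iff.2 ((Valuation.ne_zero_iff _).2 hb0)
    rw [one_lt_div₀ hb0']
    exact lt_of_le_of_lt hb2' ha2'
  have h1t1 : O1.valuation (1 + t) = 1 := by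
    have := Valuation.map_add_eq_of_lt_left O1.valuation (x := 1) (y := t)
      (by rw [map_one]; exact ht1)
    rwa [map_one] at this
  have h1t2 : O2.valuation (1 + t) = O2.valuation t :=
    Valuation.map_add_eq_of_lt_right O2.valuation (by rw [map_one]; exact ht2)
  have h1t0 : (1 + t) ≠ 0 := by
    intro h
    rw [h, map_zero] at h1t1
    exact zero_ne_one h1t1
  have hcharF : CharZero F := charZero_of_injective_algebraMap (algebraMap K F).injective
  have h22 : O2.valuation (2 : F) = 1 := by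
    have e1 : O2.valuation (2 : F) ≤ 1 := by
      rw [O2.valuation_le_one_iff]
      have := h2 2
      rwa [map_ofNat] at this
    have e2 : O2.valuation (2 : F)⁻¹ ≤ 1 := by
      rw [O2.valuation_le_one_iff]
      have := h2 2⁻¹
      rwa [map_inv₀, map_ofNat] at this
    refine le_antisymm e1 ?_
    rw [map_inv₀] at e2
    exact (inv_le_one₀ (zero_lt_iff.2 ((Valuation.ne_zero_iff _).2 two_ne_zero))).1 e2
  set N : ℕ := Module.finrank ℚ K + 1 with hN
  have hK1 : ∀ c : K, algebraMap K M c ∈ W1 := by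
    intro c
    have h3 : algebraMap K F c ∈ W1.comap (algebraMap F M) := by rw [hW1]; exact h1 c
    rw [ValuationSubring.mem_comap, ← IsScalarTower.algebraMap_apply] at h3
    exact h3
  have hK2 : ∀ c : K, algebraMap K M c ∈ W2 := by
    intro c
    have h3 : algebraMap K F c ∈ W2.comap (algebraMap F M) := by rw [hW2]; exact h2 c
    rw [ValuationSubring.mem_comap, ← IsScalarTower.algebraMap_apply] at h3
    exact h3
  have hval : ∀ (O : ValuationSubring F) (W : ValuationSubring M),
      W.comap (algebraMap F M) = O → ∀ x : F, O.valuation x < 1 →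
        W.valuation (algebraMap F M x) < 1 := by
    intro O W hOW x hx
    rcases (ValuationSubring.mem_nonunits_iff_or _).1 hx with h | h
    · rw [h, map_zero, map_zero]
      exact zero_lt_one
    · apply (ValuationSubring.mem_nonunits_iff_or _).2
      right
      intro h3
      apply h
      rw [← hOW, ValuationSubring.mem_comap, map_inv₀]
      exact h3
  have hf1 : O1.valuation ((1 + 2 * t) / (1 + t) - 1) < 1 := by
    have e : (1 + 2 * t) / (1 + t) - 1 = t / (1 + t) := by
      field_simp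
      ring
    rw [e, map_div₀, h1t1, div_one]
    exact ht1
  have hf2 : O2.valuation ((1 + 2 * t) / (1 + t) / 2 - 1) < 1 := by
    have e : (1 + 2 * t) / (1 + t) / 2 - 1 = -(1 / (2 * (1 + t))) := by
      field_simp
      ring
    rw [e, Valuation.map_neg, map_div₀, map_one, map_mul, h22, one_mul, h1t2]
    rw [div_lt_one₀ (zero_lt_one.trans ht2)]
    exact ht2
  obtain ⟨g1, hg1, hg1N⟩ := exists_rootQ A hM hK1 hs1 (hF ((1 + 2 * t) / (1 + t))) (by
    have := hval O1 W1 hW1 _ hf1
    rwa [map_sub, map_one] at this) (N := N) (by omega)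
  obtain ⟨g2, hg2, hg2N⟩ := exists_rootQ A hM hK2 hs2 (hF ((1 + 2 * t) / (1 + t) / 2)) (by
    have := hval O2 W2 hW2 _ hf2
    rwa [map_sub, map_one] at this) (N := N) (by omega)
  have hcharM : CharZero M := charZero_of_injective_algebraMap (algebraMap K M).injective
  have hnz : algebraMap F M ((1 + 2 * t) / (1 + t)) ≠ 0 := by
    intro h0
    have h3 := hval O1 W1 hW1 _ hf1
    rw [map_sub, h0, map_one, zero_sub, Valuation.map_neg, map_one] at h3
    exact lt_irrefl _ h3
  have hpow : (g1 / g2) ^ N = 2 := by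
    rw [div_pow, hg1N, hg2N, map_div₀ (algebraMap F M) _ 2, map_ofNat]
    field_simp
  obtain ⟨z, hz⟩ := Pool.Agent.W620.SC.root_mem (A.j : AlgebraicClosure K →+* M)
    (n := N) (by omega) (h := g1 / g2) (b := 2) (by rw [hpow, map_ofNat])
  have hzf : A.j z ∈ A.fix := by
    have hz' : A.j z = g1 / g2 := hz
    rw [hz']
    exact div_mem hg1 hg2
  obtain ⟨c, hc⟩ := A.fix_j hzf
  refine two_not_pow c ?_
  apply (algebraMap K (AlgebraicClosure K)).injective
  apply (A.j : AlgebraicClosure K →+* M).injective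
  rw [map_pow, map_pow, hc, hz, map_ofNat, map_ofNat]
  exact hpow

end Pool.Agent.V7H2.KS
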