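import Pool.Agent.TH954.SBirMain
import Pool.Agent.TH954.SEt2
import Pool.Agent.N890.KO.All
import Pool.Agent.V7H2.KS.Local2
import Pool.Agent.V7H2.KS.Quot

/-!
# Sections with tame values are geometric
-/

set_option autoImplicit false

namespace Pool.Agent.V7H2.KS

open IsDedekindDomain HeightOneSpectrum NumberField WithZero Polynomial
open Pool.Agent.TH954

/-- The function `f` takes at the local points `p v` values `a v` in `k_v`, all different from zero,
and for some `n ≥ 1` only finitely many of the valuations of the elements `a v` are different from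
zero and divisible by `n`. For example: almost all the `a v` are units (`n = 1`), or the valuations
of the `a v` are bounded. -/
def TameValues {k F M : Type} [Field k] [NumberField k] [Field F] [Field M] [Algebra F M]
    [Algebra k M]
    (p : ∀ v : HeightOneSpectrum (𝓞 k), Plc k M (AlgebraicClosure (v.adicCompletion k)))
    (f : F) : Prop :=
  ∃ (n : ℕ) (a : ∀ v : HeightOneSpectrum (𝓞 k), v.adicCompletion k), 0 < n ∧
    (∀ v, a v ≠ 0 ∧ (p v).val (algebraMap F M f)
      (algebraMap (v.adicCompletion k) (AlgebraicClosure (v.adicCompletion k)) (a v))) ∧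
    {v | Valued.v (a v) ≠ 1 ∧ ∃ m : ℤ, Valued.v (a v) = exp ((n : ℤ) * m)}.Finite

variable {k : Type} [Field k] [NumberField k] {F M B : Type} [Field F] [Field M] [Field B]
  [Algebra k F] [Algebra F M] [Algebra k M] [Algebra k B] [IsScalarTower k F M]
  [Algebra.IsAlgebraic F M] [IsAlgClosure k B]

omit [NumberField k] in
lemma geo_of_givenQ [CharZero k] (s : GalSection k F M B) {L : Type}
    [Field L] [Algebra k L] {p : Plc k M (AlgebraicClosure L)} (hp : s.GivenBy L p) :
    GeoPlc (toSAct s) p := by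
  intro σ τ hστ x
  refine hp σ ((eqv k B).autCongr τ) ?_ x _ ⟨x.2, rfl⟩
  intro z c hc
  obtain ⟨y, rfl⟩ := (eqv k B).surjective z
  have e1 : p.val ((toSAct s).j y) (p.iot (toSAct s).j y) := Plc.val_j _ y
  have e2 : p.val ((toSAct s).j (τ y)) (p.iot (toSAct s).j (τ y)) := Plc.val_j _ (τ y)
  have e3 : s.j ((eqv k B).autCongr τ (eqv k B y)) = (toSAct s).j (τ y) := by
    change s.j (eqv k B (τ ((eqv k B).symm (eqv k B y)))) = _
    rw [AlgEquiv.symm_apply_apply]
    rfl
  have e4 : p.iot (toSAct s).j y = c := e1.unique hc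
  rw [e3, ← e4, ← hστ y]
  exact e2

/-- A section is geometric if a nonzero function vanishes at all local points. -/
theorem ring_of_zeroQ (hM : RootClosed M)
    (hF : ∃ t : F, Transcendental k t ∧
      Algebra.IsAlgebraic (IntermediateField.adjoin k {t}) F)
    (s : GalSection k F M B)
    (pl : ∀ v : HeightOneSpectrum (𝓞 k), Plc k M (AlgebraicClosure (v.adicCompletion k)))
    (hp : ∀ v, s.GivenBy (v.adicCompletion k) (pl v)) {t : F} (ht0 : t ≠ 0)
    (ht : ∀ v, (pl v).val (algebraMap F M t) 0) :
    ∃! O : ValuationSubring F, s.ArisesFrom O := by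
  set A := toSAct s with hA
  have hpl : ∀ v, GeoPlc A (pl v) := fun v => geo_of_givenQ s (hp v)
  have hAF : ∀ (τ : AlgebraicClosure k ≃ₐ[k] AlgebraicClosure k) (x : F),
      A.s τ (algebraMap F M x) = algebraMap F M x :=
    fun τ x => (s.s ((eqv k B).autCongr τ)).commutes x
  have ht00 : algebraMap F M t ≠ 0 := (_root_.map_ne_zero _).2 ht0
  have hx0W : ∀ v, algebraMap F M t⁻¹ ∉ (pl v).W := by
    intro v
    refine Plc.notMem_of_val_inv ((_root_.map_ne_zero _).2 (inv_ne_zero ht0)) ?_
    rw [← map_inv₀, inv_inv]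
    exact ht v
  have hfinV : ∀ x, FinVal A pl x := by
    refine finVal_of_alg A pl (t := algebraMap F M t) ht00 ht (fun x hx => ?_)
    exact (alg_adjoin_of_dim hF x hx).isAlgebraic _
  obtain ⟨U, hU⟩ := exists_ultraQ (A := A) (pl := pl) hM hpl
  have hfixF : ∀ x : F, algebraMap F M x ∈ A.fix := fun x τ => hAF τ x
  have hst : ∀ (g : B ≃ₐ[k] B) (x : M), x ∈ limW pl U → s.s g x ∈ limW pl U := by
    intro g x hx
    rw [← toSAct_s s]
    exact limW_stable hU hfinV _ hx
  have hres : ∀ a ∈ (limW pl U).comap (algebraMap F M), ∃ c : k,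
      ((limW pl U).comap (algebraMap F M)).valuation (a - algebraMap k F c) < 1 := by
    intro a ha
    obtain ⟨c, hc⟩ := exists_value hU (hfixF a) (hfinV _) ha
    refine ⟨c, (ValuationSubring.mem_nonunits_iff_or _).2 ?_⟩
    by_cases h0 : a - algebraMap k F c = 0
    · exact Or.inl h0
    · right
      intro h3
      have h4 := mem_limW.1 (ValuationSubring.mem_comap.1 h3)
      obtain ⟨v, hv1, hv2⟩ := (hc.and h4).exists
      have h5 : (pl v).val (algebraMap F M (a - algebraMap k F c)) 0 := by
        have := hv1.sub (Plc.val_alg (pl := pl v) c)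
        rw [sub_self] at this
        rw [map_sub, ← IsScalarTower.algebraMap_apply]
        exact this
      rw [map_inv₀] at hv2
      refine Plc.notMem_of_val_inv (pl := pl v)
        (x := (algebraMap F M (a - algebraMap k F c))⁻¹)
        (inv_ne_zero ((_root_.map_ne_zero _).2 h0)) ?_ hv2
      rw [inv_inv]
      exact h5
  have hcon : ∀ c : k, algebraMap k F c ∈ (limW pl U).comap (algebraMap F M) := by
    intro c
    rw [ValuationSubring.mem_comap, ← IsScalarTower.algebraMap_apply]
    exact alg_mem_limW c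
  refine ⟨(limW pl U).comap (algebraMap F M), ⟨?_, hcon, hres, limW pl U, rfl,
    fun g x => ⟨fun h => ?_, hst g x⟩⟩, ?_⟩
  · intro htop
    have h3 : t⁻¹ ∈ (limW pl U).comap (algebraMap F M) := by
      rw [htop]
      exact ValuationSubring.mem_top _
    obtain ⟨v, hv⟩ := (mem_limW.1 (ValuationSubring.mem_comap.1 h3)).exists
    exact hx0W v hv
  · have h3 := hst g⁻¹ _ h
    have h4 : s.s g⁻¹ (s.s g x) = x := by
      change (s.s g⁻¹ * s.s g) x = x
      rw [← map_mul, inv_mul_cancel, map_one]
      rfl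
    rwa [h4] at h3
  · rintro O ⟨-, hO2, hO3, W, hW, hO4⟩
    exact unique_ringQ hM A hfixF O _ hO2 hcon hO3 hres W (limW pl U) hW rfl
      (fun τ x hx => (hO4 _ x).2 hx) (fun τ x hx => limW_stable hU hfinV τ hx)

/-- values of elements of the fixed field at the local points -/
lemma val_baseQ {A : SAct k M} {L : Type} [Field L] [CharZero L] [Algebra k L]
    {p : Plc k M (AlgebraicClosure L)} (hp : GeoPlc A p) {g : M} (hg : g ∈ A.fix)
    (hgW : g ∈ p.W) : ∃ z : L, p.val g (algebraMap L (AlgebraicClosure L) z) := by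
  obtain ⟨z, hz⟩ := value_base A hp hg hgW
  exact ⟨z, hgW, hz.symm⟩

/-- the valuations of an element of `k` are trivial at almost all places -/
lemma unit_aeQ {a : k} (ha : a ≠ 0) :
    {v : HeightOneSpectrum (𝓞 k) |
      Valued.v (algebraMap k (v.adicCompletion k) a) ≠ 1}.Finite := by
  refine (count_finite a).subset (fun v hv h0 => hv ?_)
  rw [vA, valuation_eq_exp_count v ha, h0, neg_zero, exp_zero]

/-- the Kummer decomposition at the local points -/
lemma kummer_local (hM : RootClosed M) (s : GalSection k F M B)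
    (pl : ∀ v : HeightOneSpectrum (𝓞 k), Plc k M (AlgebraicClosure (v.adicCompletion k)))
    (hp : ∀ v, s.GivenBy (v.adicCompletion k) (pl v)) {f : F} (hf : f ≠ 0)
    {a : ∀ v : HeightOneSpectrum (𝓞 k), v.adicCompletion k}
    (ha : ∀ v, (pl v).val (algebraMap F M f)
      (algebraMap (v.adicCompletion k) (AlgebraicClosure (v.adicCompletion k)) (a v)))
    {n : ℕ} (hn : 0 < n) : ∃ e : k, e ≠ 0 ∧ ∀ v : HeightOneSpectrum (𝓞 k),
      ∃ z : v.adicCompletion k, a v = algebraMap k (v.adicCompletion k) e * z ^ n := by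
  have hcv : ∀ v : HeightOneSpectrum (𝓞 k), CharZero (v.adicCompletion k) := fun v =>
    charZero_of_injective_algebraMap (algebraMap k (v.adicCompletion k)).injective
  have hpl : ∀ v, GeoPlc (toSAct s) (pl v) := fun v => geo_of_givenQ s (hp v)
  have hfixF : ∀ x : F, algebraMap F M x ∈ (toSAct s).fix := fun x τ =>
    (s.s ((eqv k B).autCongr τ)).commutes x
  have hne : algebraMap F M f ≠ 0 := (_root_.map_ne_zero _).2 hf
  obtain ⟨e, he0, g, hg, hfg⟩ := kummerQ (toSAct s) hM (hfixF f) hne hn
  refine ⟨e, he0, fun v => ?_⟩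
  have hgn : g ^ n = algebraMap F M f * algebraMap k M e⁻¹ := by
    rw [hfg, map_inv₀]
    field_simp [(_root_.map_ne_zero (algebraMap k M)).2 he0]
  have hgW : g ∈ (pl v).W := by
    apply Plc.mem_of_pow_mem hn
    rw [hgn]
    exact mul_mem (ha v).mem ((pl v).alg_mem _)
  obtain ⟨z, hz⟩ := val_baseQ (hpl v) hg hgW
  refine ⟨z, ?_⟩
  apply (algebraMap (v.adicCompletion k) (AlgebraicClosure (v.adicCompletion k))).injective
  have h2 := (Plc.val_alg (pl := pl v) e).mul (hz.pow n)
  rw [← hfg] at h2
  rw [map_mul, map_pow, ← IsScalarTower.algebraMap_apply]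
  exact (ha v).unique h2

/-- tame values are units at almost all places -/
lemma units_of_tame (hM : RootClosed M) (s : GalSection k F M B)
    (pl : ∀ v : HeightOneSpectrum (𝓞 k), Plc k M (AlgebraicClosure (v.adicCompletion k)))
    (hp : ∀ v, s.GivenBy (v.adicCompletion k) (pl v)) {f : F} (hf : f ≠ 0)
    (h : TameValues pl f) : ∃ a : ∀ v : HeightOneSpectrum (𝓞 k), v.adicCompletion k,
      (∀ v, a v ≠ 0) ∧ (∀ v, (pl v).val (algebraMap F M f)
        (algebraMap (v.adicCompletion k) (AlgebraicClosure (v.adicCompletion k)) (a v))) ∧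
      {v | Valued.v (a v) ≠ 1}.Finite := by
  obtain ⟨n, a, hn, ha, hfin⟩ := h
  refine ⟨a, fun v => (ha v).1, fun v => (ha v).2, ?_⟩
  obtain ⟨e, he0, he⟩ := kummer_local hM s pl hp hf (fun v => (ha v).2) hn
  refine (hfin.union (unit_aeQ he0)).subset (fun v hv => ?_)
  by_cases h1 : Valued.v (algebraMap k (v.adicCompletion k) e) = 1
  · left
    refine ⟨hv, ?_⟩
    obtain ⟨z, hz⟩ := he v
    have hz0 : Valued.v z ≠ 0 := by
      intro h0
      have h2 : z = 0 := (map_eq_zero _).1 h0
      apply (ha v).1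
      rw [hz, h2, zero_pow hn.ne', mul_zero]
    refine ⟨log (Valued.v z), ?_⟩
    rw [hz, map_mul, h1, one_mul, map_pow]
    conv_lhs => rw [← exp_log hz0]
    rw [← exp_nsmul, nsmul_eq_mul]
  · right
    exact h1

/-- **Sections with tame values are geometric.** -/
theorem ring_of_tame {k0 : Type} [Field k0] [NumberField k0] [Algebra k0 k] [Finite (𝓞 k0)ˣ]
    (hM : RootClosed M)
    (hF : ∃ t : F, Transcendental k t ∧
      Algebra.IsAlgebraic (IntermediateField.adjoin k {t}) F)
    (s : GalSection k F M B)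
    (pl : ∀ v : HeightOneSpectrum (𝓞 k), Plc k M (AlgebraicClosure (v.adicCompletion k)))
    (hp : ∀ v, s.GivenBy (v.adicCompletion k) (pl v)) {x : F}
    (hx : x ∉ Set.range (algebraMap k F)) {c : Fin (Module.finrank k0 k) → k0}
    (hc : Function.Injective c)
    (hu : ∀ i, TameValues pl (x - algebraMap k F (algebraMap k0 k (c i)))) :
    ∃! O : ValuationSubring F, s.ArisesFrom O := by
  have hcv : ∀ v : HeightOneSpectrum (𝓞 k), CharZero (v.adicCompletion k) := fun v =>
    charZero_of_injective_algebraMap (algebraMap k (v.adicCompletion k)).injective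
  have hfin0 : FiniteDimensional k0 k := Module.Finite.of_restrictScalars_finite ℚ k0 k
  have hfixF : ∀ x : F, algebraMap F M x ∈ (toSAct s).fix := fun x τ =>
    (s.s ((eqv k B).autCongr τ)).commutes x
  have hne : ∀ i, x - algebraMap k F (algebraMap k0 k (c i)) ≠ 0 := by
    intro i h
    rw [sub_eq_zero] at h
    exact hx ⟨_, h.symm⟩
  choose a ha0 ha hfin using fun i => units_of_tame hM s pl hp (hne i) (hu i)
  let i0 : Fin (Module.finrank k0 k) := ⟨0, Module.finrank_pos⟩
  set x0 : ∀ v : HeightOneSpectrum (𝓞 k), v.adicCompletion k := fun v =>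
    a i0 v + algebraMap k (v.adicCompletion k) (algebraMap k0 k (c i0)) with hx0
  have hx0v : ∀ v, (pl v).val (algebraMap F M x)
      (algebraMap (v.adicCompletion k) (AlgebraicClosure (v.adicCompletion k)) (x0 v)) := by
    intro v
    have h1 := (ha i0 v).add (Plc.val_alg (pl := pl v) (algebraMap k0 k (c i0)))
    rw [map_sub, ← IsScalarTower.algebraMap_apply, sub_add_cancel] at h1
    rw [hx0, map_add, ← IsScalarTower.algebraMap_apply]
    exact h1
  have hai : ∀ i v, x0 v - algebraMap k (v.adicCompletion k) (algebraMap k0 k (c i)) = a i v := by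
    intro i v
    apply (algebraMap (v.adicCompletion k) (AlgebraicClosure (v.adicCompletion k))).injective
    have h1 := (hx0v v).sub (Plc.val_alg (pl := pl v) (algebraMap k0 k (c i)))
    have h2 := ha i v
    rw [map_sub, ← IsScalarTower.algebraMap_apply] at h2
    rw [map_sub, ← IsScalarTower.algebraMap_apply]
    exact h1.unique h2
  have hm : ∀ i, {v | -log (Valued.v (a i v)) ≠ 0}.Finite := by
    intro i
    refine (hfin i).subset (fun v hv h0 => hv ?_)
    rw [h0, log_one, neg_zero]
  obtain ⟨g, hg0, hg⟩ := exists_G (k0 := k0) (k := k) hc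
    (m := fun i v => -log (Valued.v (a i v))) hm
  have hroot := hg x0
    (fun i v => by
      rw [hai, neg_neg, exp_log]
      exact (Valuation.ne_zero_iff _).2 (ha0 i v))
    (fun i n hn => by
      obtain ⟨e, he0, he⟩ := kummer_local hM s pl hp (hne i) (ha i) hn
      refine ⟨e, he0, fun v => ?_⟩
      rw [hai]
      exact he v)
  refine ring_of_zeroQ hM hF s pl hp (t := aeval x g) ?_ (fun v => ?_)
  · intro h0
    have halg : IsAlgebraic k (algebraMap F M x) := by
      refine ⟨g, hg0, ?_⟩
      rw [aeval_algebraMap_apply, h0, map_zero]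
    obtain ⟨z, hz⟩ := alg_range (toSAct s).j halg
    obtain ⟨b, hb⟩ := (toSAct s).fix_j (z := z) (by rw [hz]; exact hfixF x)
    apply hx
    refine ⟨b, ?_⟩
    apply (algebraMap F M).injective
    rw [← IsScalarTower.algebraMap_apply, ← hz, ← hb, (toSAct s).j.commutes]
  · have h1 := Plc.val_aeval (hx0v v) g
    rw [aeval_algebraMap_apply, aeval_algebraMap_apply, hroot v, map_zero] at h1
    exact h1

end Pool.Agent.V7H2.KS
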