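import Pool.Agent.W620.SC.Norm
import Mathlib.GroupTheory.CosetCover
import Mathlib.GroupTheory.OrderOfElement

/-!
# An automorphism which moves finitely many radicals of arbitrary degree
-/

set_option autoImplicit false
set_option linter.unusedSectionVars false

open scoped Pointwise

namespace Pool.Agent.V7H2.KS

/-- an automorphism over `F` which moves finitely many radicals -/
theorem exists_move2 {K A : Type} [Field K] [CharZero K] [Field A] [Algebra K A] [IsAlgClosed A]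
    [Algebra.IsAlgebraic K A] (F : IntermediateField K A) {n : ℕ} (hn : 0 < n) {ζ : A}
    (hζ : IsPrimitiveRoot ζ n) (hζF : ζ ∈ F) {ι : Type} (T : Finset ι)
    (ρ : ι → A) (hρn : ∀ i ∈ T, ρ i ^ n ∈ F)
    (hρ : ∀ i ∈ T, ∀ j : ℕ, 0 < j → j ≤ T.card → ρ i ^ j ∉ F) :
    ∃ σ : A ≃ₐ[K] A, (∀ x ∈ F, σ x = x) ∧ ∀ i ∈ T, σ (ρ i) ≠ ρ i := by
  classical
  have : IsAlgClosure K A := ⟨inferInstance, inferInstance⟩
  have : Normal K A := IsAlgClosure.normal K A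
  have : IsGalois K A := ⟨⟩
  by_contra hcon
  push Not at hcon
  let H : ι → Subgroup F.fixingSubgroup := fun i =>
    (MulAction.stabilizer (A ≃ₐ[K] A) (ρ i)).comap F.fixingSubgroup.subtype
  have hmem : ∀ i (h : F.fixingSubgroup), h ∈ H i ↔ (h : A ≃ₐ[K] A) (ρ i) = ρ i := fun i h =>
    Iff.rfl
  have hcov : ⋃ i ∈ T, (1 : F.fixingSubgroup) • (H i : Set F.fixingSubgroup) = Set.univ := by
    rw [Set.eq_univ_iff_forall]
    intro h
    obtain ⟨i, hi, he⟩ := hcon h.1 (fun x hx =>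
      (IntermediateField.mem_fixingSubgroup_iff _ _).1 h.2 x hx)
    rw [Set.mem_iUnion₂]
    refine ⟨i, hi, ?_⟩
    rw [one_smul]
    exact (hmem i h).2 he
  obtain ⟨i, hi, hfi, hind⟩ := Subgroup.exists_index_le_card_of_leftCoset_cover hcov
  have hρ0 : ρ i ≠ 0 := by
    intro h0
    refine hρ i hi 1 one_pos (Finset.card_pos.2 ⟨i, hi⟩) ?_
    rw [h0, pow_one]
    exact F.zero_mem
  have hfixF : ∀ (g : F.fixingSubgroup), ∀ x ∈ F, (g : A ≃ₐ[K] A) x = x := fun g x hx =>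
    (IntermediateField.mem_fixingSubgroup_iff _ _).1 g.2 x hx
  -- the character
  have hchar : ∀ g : F.fixingSubgroup, ∃ ξ ∈ F, (g : A ≃ₐ[K] A) (ρ i) = ξ * ρ i := by
    intro g
    refine ⟨(g : A ≃ₐ[K] A) (ρ i) / ρ i, ?_, by rw [div_mul_cancel₀ _ hρ0]⟩
    have hξl : ((g : A ≃ₐ[K] A) (ρ i) / ρ i) ^ n = 1 := by
      rw [div_pow, ← map_pow, hfixF g _ (hρn i hi), div_self (pow_ne_zero _ hρ0)]
    have : NeZero n := ⟨hn.ne'⟩
    obtain ⟨k, -, hk⟩ := hζ.eq_pow_of_pow_eq_one hξl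
    rw [← hk]
    exact pow_mem hζF k
  have hnorm : (H i).Normal := by
    refine ⟨fun h hh g => ?_⟩
    rw [hmem] at hh ⊢
    obtain ⟨ξ, hξF, hξ⟩ := hchar g⁻¹
    have e1 : ((g * h * g⁻¹ : F.fixingSubgroup) : A ≃ₐ[K] A) (ρ i) =
        (g : A ≃ₐ[K] A) ((h : A ≃ₐ[K] A) (((g⁻¹ : F.fixingSubgroup) : A ≃ₐ[K] A) (ρ i))) := rfl
    rw [e1, hξ, map_mul (h : A ≃ₐ[K] A), hh, hfixF h _ hξF, ← hξ]
    change ((g * g⁻¹ : F.fixingSubgroup) : A ≃ₐ[K] A) (ρ i) = ρ i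
    rw [mul_inv_cancel]
    rfl
  refine hρ i hi (H i).index (Nat.pos_of_ne_zero hfi.index_ne_zero) hind ?_
  apply Pool.Agent.W620.SC.mem_of_fixed F
  intro σ hσ
  let g : F.fixingSubgroup := ⟨σ, hσ⟩
  obtain ⟨ξ, hξF, hξ⟩ := hchar g
  have hpow : ∀ m : ℕ, ((g ^ m : F.fixingSubgroup) : A ≃ₐ[K] A) (ρ i) = ξ ^ m * ρ i := by
    intro m
    induction m with
    | zero => rw [pow_zero, pow_zero, one_mul]; rfl
    | succ m ih =>
      rw [pow_succ' g]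
      change (g : A ≃ₐ[K] A) (((g ^ m : F.fixingSubgroup) : A ≃ₐ[K] A) (ρ i)) = _
      rw [ih, map_mul, hfixF g _ (pow_mem hξF m), hξ]
      ring
  have h1 := (hmem i _).1 ((H i).pow_index_mem g)
  rw [hpow] at h1
  have h2 : ξ ^ (H i).index = 1 := mul_right_cancel₀ hρ0 (h1.trans (one_mul _).symm)
  have h3 : σ (ρ i) = ξ * ρ i := hξ
  rw [map_pow, h3, mul_pow, h2, one_mul]

end Pool.Agent.V7H2.KS
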