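import Mathlib.NumberTheory.NumberField.Basic
import Mathlib.RingTheory.DedekindDomain.Factorization
import Mathlib.RingTheory.DedekindDomain.AdicValuation
import Mathlib.RingTheory.FractionalIdeal.Norm
import Mathlib.NumberTheory.NumberField.Completion.FinitePlace

/-!
# The norm of an element and its valuations
-/

set_option autoImplicit false

namespace Pool.Agent.V7H2.KS

open IsDedekindDomain HeightOneSpectrum NumberField nonZeroDivisors

variable {K : Type} [Field K] [NumberField K]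

lemma valuation_eq_exp_count (v : HeightOneSpectrum (𝓞 K)) {x : K} (hx : x ≠ 0) :
    v.valuation K x = WithZero.exp
      (-(FractionalIdeal.count K v (FractionalIdeal.spanSingleton (𝓞 K)⁰ x))) := by
  classical
  obtain ⟨r, s, rfl⟩ := IsLocalization.exists_mk'_eq (𝓞 K)⁰ x
  have hr : r ≠ 0 := by
    rintro rfl
    exact hx (IsLocalization.mk'_zero _)
  have hs : (s : 𝓞 K) ≠ 0 := nonZeroDivisors.coe_ne_zero s
  have hI : FractionalIdeal.spanSingleton (𝓞 K)⁰ (IsLocalization.mk' K r s) ≠ 0 := by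
    rwa [Ne, FractionalIdeal.spanSingleton_eq_zero_iff]
  have h1 : FractionalIdeal.spanSingleton (𝓞 K)⁰ (IsLocalization.mk' K r s) =
      FractionalIdeal.spanSingleton (𝓞 K)⁰ ((algebraMap (𝓞 K) K) s)⁻¹ *
        ((Ideal.span {r} : Ideal (𝓞 K)) : FractionalIdeal (𝓞 K)⁰ K) := by
    rw [FractionalIdeal.coeIdeal_span_singleton, FractionalIdeal.spanSingleton_mul_spanSingleton,
      IsFractionRing.mk'_eq_div, div_eq_mul_inv, mul_comm]
  rw [FractionalIdeal.count_well_defined K v hI h1, valuation_of_mk', intValuation_if_neg _ hr,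
    intValuation_if_neg _ hs, ← WithZero.exp_sub]
  congr 1
  ring

/-- the norm of the ideal with the exponents `m v` -/
noncomputable def nrm (m : HeightOneSpectrum (𝓞 K) → ℤ) : ℚ :=
  ∏ᶠ v : HeightOneSpectrum (𝓞 K), (Ideal.absNorm v.asIdeal : ℚ) ^ m v

lemma absNorm_pos (v : HeightOneSpectrum (𝓞 K)) : (0 : ℚ) < Ideal.absNorm v.asIdeal := by
  have h := Ideal.absNorm_eq_zero_iff.not.2 v.ne_bot
  exact_mod_cast Nat.pos_of_ne_zero h

lemma nrm_pos (m : HeightOneSpectrum (𝓞 K) → ℤ) : 0 < nrm m := by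
  unfold nrm
  refine finprod_induction (fun x : ℚ => 0 < x) one_pos (fun _ _ => mul_pos) (fun v => ?_)
  exact zpow_pos (absNorm_pos v) _

lemma supp_fin {m : HeightOneSpectrum (𝓞 K) → ℤ} (hm : {v | m v ≠ 0}.Finite) :
    (Function.mulSupport fun v : HeightOneSpectrum (𝓞 K) =>
      (Ideal.absNorm v.asIdeal : ℚ) ^ m v).Finite := by
  refine hm.subset (fun v hv h0 => hv ?_)
  change (Ideal.absNorm v.asIdeal : ℚ) ^ m v = 1
  rw [h0, zpow_zero]

lemma nrm_add_mul {m k : HeightOneSpectrum (𝓞 K) → ℤ} (hm : {v | m v ≠ 0}.Finite)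
    (hk : {v | k v ≠ 0}.Finite) (n : ℕ) :
    nrm (fun v => m v + n * k v) = nrm m * nrm k ^ n := by
  unfold nrm
  rw [finprod_pow (supp_fin hk), ← finprod_mul_distrib (supp_fin hm)]
  · refine finprod_congr (fun v => ?_)
    rw [zpow_add₀ (absNorm_pos v).ne', mul_comm (n : ℤ), zpow_mul, zpow_natCast]
  · refine (supp_fin hk).subset (fun v hv h0 => hv ?_)
    change ((Ideal.absNorm v.asIdeal : ℚ) ^ k v) ^ n = 1
    change (Ideal.absNorm v.asIdeal : ℚ) ^ k v = 1 at h0
    rw [h0, one_pow]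

lemma count_finite (x : K) :
    {v : HeightOneSpectrum (𝓞 K) | FractionalIdeal.count K v
      (FractionalIdeal.spanSingleton (𝓞 K)⁰ x) ≠ 0}.Finite :=
  Filter.eventually_cofinite.1 (FractionalIdeal.finite_factors _)

lemma norm_eq_nrm {x : K} (hx : x ≠ 0) {m : HeightOneSpectrum (𝓞 K) → ℤ}
    (h : ∀ v : HeightOneSpectrum (𝓞 K), v.valuation K x = WithZero.exp (-(m v))) :
    {v | m v ≠ 0}.Finite ∧ |Algebra.norm ℚ x| = nrm m := by
  have hm : m = fun v => FractionalIdeal.count K v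
      (FractionalIdeal.spanSingleton (𝓞 K)⁰ x) := by
    funext v
    have h1 := h v
    rw [valuation_eq_exp_count v hx, WithZero.exp_inj, neg_inj] at h1
    exact h1.symm
  have hI : FractionalIdeal.spanSingleton (𝓞 K)⁰ x ≠ 0 := by
    rwa [Ne, FractionalIdeal.spanSingleton_eq_zero_iff]
  refine ⟨by rw [hm]; exact count_finite x, ?_⟩
  rw [← FractionalIdeal.absNorm_span_singleton (𝓞 K) x, hm]
  conv_lhs => rw [← FractionalIdeal.finprod_heightOneSpectrum_factorization' K hI]
  unfold nrm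
  have h2 := MonoidHom.map_finprod
    ((FractionalIdeal.absNorm : FractionalIdeal (𝓞 K)⁰ K →*₀ ℚ) :
      FractionalIdeal (𝓞 K)⁰ K →* ℚ)
    (f := fun v : HeightOneSpectrum (𝓞 K) => (v.asIdeal : FractionalIdeal (𝓞 K)⁰ K) ^
      (FractionalIdeal.count K v (FractionalIdeal.spanSingleton (𝓞 K)⁰ x)))
    ((count_finite x).subset (fun v hv h0 => hv (by
      change (v.asIdeal : FractionalIdeal (𝓞 K)⁰ K) ^
        (FractionalIdeal.count K v (FractionalIdeal.spanSingleton (𝓞 K)⁰ x)) = 1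
      rw [h0, zpow_zero])))
  refine h2.trans (finprod_congr (fun v => ?_))
  change FractionalIdeal.absNorm ((v.asIdeal : FractionalIdeal (𝓞 K)⁰ K) ^ _) = _
  rw [map_zpow₀, FractionalIdeal.coeIdeal_absNorm]

/-- **Norm form.** If the valuations of `c` are those of an idele times an `n`-th power, then the
norm of `c` is, up to sign, the norm of the idele times an `n`-th power. -/
theorem norm_form {m : HeightOneSpectrum (𝓞 K) → ℤ} (hm : {v | m v ≠ 0}.Finite) {n : ℕ}
    (hn : 0 < n) {c : K} (hc : c ≠ 0)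
    (h : ∀ v : HeightOneSpectrum (𝓞 K), ∃ k : ℤ,
      v.valuation K c = WithZero.exp (-(m v + n * k))) :
    ∃ r : ℚ, r ≠ 0 ∧ |Algebra.norm ℚ c| = nrm m * r ^ n := by
  choose k hk using h
  obtain ⟨h1, h2⟩ := norm_eq_nrm hc hk
  have h3 : {v | k v ≠ 0}.Finite := by
    refine (hm.union h1).subset (fun v hv => ?_)
    by_contra hcon
    simp only [Set.mem_union, Set.mem_ofPred_eq, not_or, not_not] at hcon
    rw [hcon.1, zero_add, mul_eq_zero] at hcon
    rcases hcon.2 with h4 | h4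
    · exact hn.ne' (by exact_mod_cast h4)
    · exact hv h4
  refine ⟨nrm k, (nrm_pos k).ne', ?_⟩
  rw [h2, nrm_add_mul hm h3]

end Pool.Agent.V7H2.KS
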