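import Pool.Agent.TH115.TC.Compl
import Pool.Agent.V7H2.KS.Norm
import Mathlib.RingTheory.Ideal.GoingUp

/-!
# Places below and above, and divisible elements of completions
-/

set_option autoImplicit false

namespace Pool.Agent.V7H2.KS

open IsDedekindDomain HeightOneSpectrum NumberField nonZeroDivisors WithZero Filter Topology

section below

variable {k N : Type} [Field k] [NumberField k] [Field N] [NumberField N]

/-- the place of `k` below the place `w` of `N` for the embedding `f` -/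
def below (f : k →+* N) (w : HeightOneSpectrum (𝓞 N)) : HeightOneSpectrum (𝓞 k) where
  asIdeal := w.asIdeal.comap (RingOfIntegers.mapRingHom f)
  isPrime := by
    have := w.isPrime
    exact Ideal.comap_isPrime _ _
  ne_bot := by
    intro h0
    have h1 : ((Ideal.absNorm w.asIdeal : ℕ) : 𝓞 k) ∈
        w.asIdeal.comap (RingOfIntegers.mapRingHom f) := by
      rw [Ideal.mem_comap, map_natCast]
      exact Ideal.absNorm_mem _
    rw [h0, Submodule.mem_bot] at h1
    exact Ideal.absNorm_eq_zero_iff.not.2 w.ne_bot (by exact_mod_cast h1)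

lemma mem_below {f : k →+* N} {w : HeightOneSpectrum (𝓞 N)} {x : 𝓞 k} :
    x ∈ (below f w).asIdeal ↔ RingOfIntegers.mapRingHom f x ∈ w.asIdeal := Iff.rfl

lemma val_map_le (f : k →+* N) (w : HeightOneSpectrum (𝓞 N)) (x : 𝓞 k) :
    w.valuation N (f (algebraMap (𝓞 k) k x)) ≤ 1 :=
  w.valuation_le_one (RingOfIntegers.mapRingHom f x)

lemma val_map_lt (f : k →+* N) (w : HeightOneSpectrum (𝓞 N)) (x : 𝓞 k) :
    w.valuation N (f (algebraMap (𝓞 k) k x)) < 1 ↔ x ∈ (below f w).asIdeal :=
  w.valuation_lt_one_iff_mem (RingOfIntegers.mapRingHom f x)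

lemma below_le (f : k →+* N) (w : HeightOneSpectrum (𝓞 N)) {x : k}
    (hx : (below f w).valuation k x ≤ 1) : w.valuation N (f x) ≤ 1 := by
  obtain ⟨n, d, hnd⟩ := (below f w).exists_primeCompl_mul_eq_of_integer x hx
  have hd : w.valuation N (f (algebraMap (𝓞 k) k d)) = 1 := by
    refine le_antisymm (val_map_le f w d) ?_
    have h1 : (d : 𝓞 k) ∉ (below f w).asIdeal := d.2
    rw [← val_map_lt, not_lt] at h1
    exact h1
  have h1 := congrArg (fun z => w.valuation N (f z)) hnd
  simp only [map_mul] at h1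
  rw [hd, mul_one] at h1
  rw [h1]
  exact val_map_le f w n

lemma below_lt (f : k →+* N) (w : HeightOneSpectrum (𝓞 N)) {x : k}
    (hx : (below f w).valuation k x < 1) : w.valuation N (f x) < 1 := by
  obtain ⟨n, d, hnd⟩ := (below f w).exists_primeCompl_mul_eq_of_integer x hx.le
  have hd : w.valuation N (f (algebraMap (𝓞 k) k d)) = 1 := by
    refine le_antisymm (val_map_le f w d) ?_
    have h1 : (d : 𝓞 k) ∉ (below f w).asIdeal := d.2
    rw [← val_map_lt, not_lt] at h1
    exact h1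
  have hdv : (below f w).valuation k (algebraMap (𝓞 k) k d) = 1 :=
    (below f w).valuation_eq_one_iff_notMem.2 d.2
  have h1 := congrArg (fun z => w.valuation N (f z)) hnd
  have h2 := congrArg (fun z => (below f w).valuation k z) hnd
  simp only [map_mul] at h1 h2
  rw [hd, mul_one] at h1
  rw [hdv, mul_one] at h2
  rw [h2] at hx
  rw [h1]
  exact (val_map_lt f w n).2 (((below f w).valuation_lt_one_iff_mem _).1 hx)

/-- every place of `k` is below a place of `N` -/
lemma exists_above (f : k →+* N) (v : HeightOneSpectrum (𝓞 k)) :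
    ∃ w : HeightOneSpectrum (𝓞 N), below f w = v := by
  let _ : Algebra k N := f.toAlgebra
  have hinj : Function.Injective (algebraMap (𝓞 k) (𝓞 N)) := by
    intro a b h
    have h1 : f (algebraMap (𝓞 k) k a) = f (algebraMap (𝓞 k) k b) :=
      congrArg (fun z : 𝓞 N => (z : N)) h
    exact RingOfIntegers.ext (f.injective h1)
  have hint : Algebra.IsIntegral (𝓞 k) (𝓞 N) := by
    refine ⟨fun x => ?_⟩
    have h1 : IsIntegral ℤ x := RingOfIntegers.isIntegral x
    exact h1.tower_top
  have := v.isPrime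
  obtain ⟨Q, -, hQ1, hQ2⟩ := Ideal.exists_ideal_over_prime_of_isIntegral (S := 𝓞 N) v.asIdeal ⊥ (by
    intro x hx
    rw [Ideal.mem_comap, Submodule.mem_bot] at hx
    have h2 : x = 0 := hinj (by rw [hx, map_zero])
    rw [h2]
    exact zero_mem _)
  refine ⟨⟨Q, hQ1, ?_⟩, ?_⟩
  · rintro rfl
    apply v.ne_bot
    rw [← hQ2]
    ext x
    rw [Ideal.mem_comap, Submodule.mem_bot, Submodule.mem_bot]
    exact ⟨fun h => hinj (by rw [h, map_zero]), fun h => by rw [h, map_zero]⟩
  · exact HeightOneSpectrum.ext hQ2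

/-- the map of the completions -/
lemma exists_map (f : k →+* N) (w : HeightOneSpectrum (𝓞 N)) :
    ∃ j : (below f w).adicCompletion k →+* w.adicCompletion N,
      ∀ x : k, j (algebraMap k ((below f w).adicCompletion k) x) =
        algebraMap N (w.adicCompletion N) (f x) := by
  obtain ⟨j, hj, -⟩ := Pool.Agent.TH115.GD.exists_compl_map (below f w) w f
    (fun x hx => below_le f w hx) (fun x hx => below_lt f w hx)
  exact ⟨j, hj⟩

end below

section divisible

variable {K : Type} [Field K] [NumberField K] (v : HeightOneSpectrum (𝓞 K))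

lemma vA (x : K) : Valued.v (algebraMap K (v.adicCompletion K) x) = v.valuation K x :=
  valuedAdicCompletion_eq_valuation' v x

lemma exists_near (z : v.adicCompletion K) (hz : Valued.v z ≤ 1) (j : ℕ) :
    ∃ a : 𝓞 K, Valued.v (z - algebraMap K (v.adicCompletion K) a) ≤ exp (-(j : ℤ)) := by
  have hg : exp (-(j : ℤ)) ≠ (0 : ℤᵐ⁰) := exp_ne_zero
  obtain ⟨γ0, hγ0⟩ := v.valuation_surjective K (exp (-(j : ℤ)))
  have hγ00 : γ0 ≠ 0 := by
    rintro rfl
    rw [map_zero] at hγ0
    exact exp_ne_zero hγ0.symm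
  have hU : {y : v.adicCompletion K | Valued.v y < exp (-(j : ℤ))} ∈
      𝓝 (0 : v.adicCompletion K) := by
    rw [Valued.mem_nhds_zero]
    have hne : (Valued.v (R := v.adicCompletion K)).restrict
        (algebraMap K (v.adicCompletion K) γ0) ≠ 0 := by
      rw [Valuation.ne_zero_iff]
      exact (map_ne_zero _).2 hγ00
    refine ⟨Units.mk0 _ hne, fun y hy => ?_⟩
    have h1 : Valued.v y < Valued.v (algebraMap K (v.adicCompletion K) γ0) :=
      (Valuation.restrict_lt_iff _).1 hy
    rw [vA v γ0, hγ0] at h1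
    exact h1
  have ht : Tendsto (fun y : v.adicCompletion K => z - y) (𝓝 z) (𝓝 0) := by
    have h5 : Tendsto (fun y : v.adicCompletion K => z - y) (𝓝 z) (𝓝 (z - z)) :=
      tendsto_const_nhds.sub tendsto_id
    rwa [sub_self] at h5
  obtain ⟨_, hx, x, rfl⟩ := mem_closure_iff_nhds.1
    (HeightOneSpectrum.denseRange_algebraMap K v z) _ (ht hU)
  have hx' : Valued.v (z - algebraMap K (v.adicCompletion K) x) < exp (-(j : ℤ)) := hx
  have hj1 : exp (-(j : ℤ)) ≤ (1 : ℤᵐ⁰) := by
    rw [← exp_zero, exp_le_exp]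
    omega
  have hx1 : v.valuation K x ≤ 1 := by
    rw [← vA v x]
    have e : algebraMap K (v.adicCompletion K) x =
      z - (z - algebraMap K (v.adicCompletion K) x) := by ring
    have h2 : Valued.v (algebraMap K (v.adicCompletion K) x) ≤ 1 := by
      rw [e]
      exact (Valuation.map_sub _ _ _).trans (max_le hz (hx'.le.trans hj1))
    exact h2
  obtain ⟨a, ha⟩ := v.exists_valuation_sub_lt_of_integer hx1 (Units.mk0 _ hg)
  refine ⟨a, ?_⟩
  have e : z - algebraMap K (v.adicCompletion K) a =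
      (z - algebraMap K (v.adicCompletion K) x) +
        algebraMap K (v.adicCompletion K) (x - a) := by
    rw [map_sub]
    ring
  rw [e]
  refine (Valuation.map_add _ _ _).trans (max_le hx'.le ?_)
  have h3 : Valued.v (algebraMap K (v.adicCompletion K) (x - a)) = v.valuation K (x - a) :=
    valuedAdicCompletion_eq_valuation' v (x - a)
  rw [h3, Valuation.map_sub_swap]
  exact ha.le

lemma val_sub_pow {a z : v.adicCompletion K} (ha : Valued.v a ≤ 1) (hz : Valued.v z ≤ 1)
    {γ : ℤᵐ⁰} (h : Valued.v (z - a) ≤ γ) (n : ℕ) : Valued.v (z ^ n - a ^ n) ≤ γ := by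
  induction n with
  | zero => rw [pow_zero, pow_zero, sub_self, map_zero]; exact zero_le
  | succ n ih =>
    have e : z ^ (n + 1) - a ^ (n + 1) = (z ^ n - a ^ n) * z + a ^ n * (z - a) := by ring
    rw [e]
    refine (Valuation.map_add _ _ _).trans (max_le ?_ ?_)
    · rw [map_mul]
      exact (mul_le_mul' ih hz).trans_eq (mul_one _)
    · rw [map_mul, map_pow]
      exact (mul_le_mul' (pow_le_one₀ zero_le ha) h).trans_eq (one_mul _)

/-- **Divisible elements of the multiplicative group of a completion are trivial.** -/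
theorem eq_one_of_pow {y : v.adicCompletion K} (hy : y ≠ 0)
    (h : ∀ n : ℕ, 0 < n → ∃ z, z ^ n = y) : y = 1 := by
  have hval : ∀ z : v.adicCompletion K, z ≠ 0 → Valued.v z = exp (log (Valued.v z)) := by
    intro z hz
    rw [exp_log]
    exact (Valuation.ne_zero_iff _).2 hz
  have hy1 : log (Valued.v y) = 0 := by
    by_contra h0
    obtain ⟨z, hz⟩ := h ((log (Valued.v y)).natAbs + 1) (by omega)
    have h1 : log (Valued.v y) = ((log (Valued.v y)).natAbs + 1 : ℕ) * log (Valued.v z) := by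
      conv_lhs => rw [← hz]
      rw [map_pow, log_pow, nsmul_eq_mul]
    have h2 : (((log (Valued.v y)).natAbs + 1 : ℕ) : ℤ) ∣ log (Valued.v y) := ⟨_, h1⟩
    have h3 := Int.le_of_dvd (Int.natAbs_pos.2 h0 |> fun h => by exact_mod_cast h)
      ((Int.dvd_natAbs).2 h2)
    omega
  by_contra hne
  have hg0 : Valued.v (y - 1) ≠ 0 := (Valuation.ne_zero_iff _).2 (sub_ne_zero.2 hne)
  obtain ⟨j0, hj0, -⟩ := exists_exp_neg_natCast_lt_and_lt hg0 hg0
  obtain ⟨j, hj, hjne⟩ : ∃ j : ℕ, exp (-(j : ℤ)) < Valued.v (y - 1) ∧ j ≠ 0 := by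
    refine ⟨j0 + 1, lt_of_le_of_lt ?_ hj0, by omega⟩
    rw [exp_le_exp]
    push_cast
    omega
  have hvj : v.asIdeal ^ j ≠ ⊥ := pow_ne_zero j v.ne_bot
  have hfin : Finite (𝓞 K ⧸ v.asIdeal ^ j) := Ideal.finiteQuotientOfFreeOfNeBot _ hvj
  have hcard : 0 < Nat.card (𝓞 K ⧸ v.asIdeal ^ j)ˣ := Nat.card_pos
  obtain ⟨z, hz⟩ := h _ hcard
  have hz0 : z ≠ 0 := by
    rintro rfl
    rw [zero_pow hcard.ne'] at hz
    exact hy hz.symm
  have hz1 : Valued.v z = 1 := by
    have h1 : ((Nat.card (𝓞 K ⧸ v.asIdeal ^ j)ˣ : ℕ) : ℤ) * log (Valued.v z) = 0 := by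
      rw [← nsmul_eq_mul, ← log_pow, ← map_pow, hz, hy1]
    rw [hval z hz0]
    rcases mul_eq_zero.1 h1 with h2 | h2
    · exact absurd h2 (by exact_mod_cast hcard.ne')
    · rw [h2, exp_zero]
  obtain ⟨a, ha⟩ := exists_near v z hz1.le (j + 1)
  have ha1 : Valued.v (algebraMap K (v.adicCompletion K) a) = 1 := by
    have e : algebraMap K (v.adicCompletion K) a =
      z - (z - algebraMap K (v.adicCompletion K) a) := by ring
    rw [e, Valuation.map_sub_eq_of_lt_left _ ?_, hz1]
    rw [hz1]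
    refine lt_of_le_of_lt ha ?_
    rw [← exp_zero, exp_lt_exp]
    push_cast
    omega
  have ha2 : v.valuation K (algebraMap (𝓞 K) K a) = 1 := by
    rw [← vA v]
    exact ha1
  have ha3 : a ∉ v.asIdeal := v.valuation_eq_one_iff_notMem.1 ha2
  have hunit : IsUnit (Ideal.Quotient.mk (v.asIdeal ^ j) a) := by
    rw [Ideal.Quotient.isUnit_mk_pow_iff_notMem _ hjne]
    exact ha3
  obtain ⟨u, hu⟩ := hunit
  have h4 : (Ideal.Quotient.mk (v.asIdeal ^ j) a) ^ Nat.card (𝓞 K ⧸ v.asIdeal ^ j)ˣ = 1 := by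
    rw [← hu, ← Units.val_pow_eq_pow_val, pow_card_eq_one', Units.val_one]
  have h5 : a ^ Nat.card (𝓞 K ⧸ v.asIdeal ^ j)ˣ - 1 ∈ v.asIdeal ^ j := by
    rw [← Ideal.Quotient.eq_zero_iff_mem, map_sub, map_pow, h4, map_one, sub_self]
  have h6 : Valued.v (algebraMap K (v.adicCompletion K)
      (algebraMap (𝓞 K) K (a ^ Nat.card (𝓞 K ⧸ v.asIdeal ^ j)ˣ - 1))) ≤ exp (-(j : ℤ)) := by
    have h7 : Valued.v (algebraMap K (v.adicCompletion K)
      (algebraMap (𝓞 K) K (a ^ Nat.card (𝓞 K ⧸ v.asIdeal ^ j)ˣ - 1))) =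
        v.valuation K (algebraMap (𝓞 K) K (a ^ Nat.card (𝓞 K ⧸ v.asIdeal ^ j)ˣ - 1)) :=
      valuedAdicCompletion_eq_valuation' v _
    rw [h7, valuation_of_algebraMap]
    exact (v.intValuation_le_pow_iff_mem _ _).2 h5
  have h8 : Valued.v (y - 1) ≤ exp (-(j : ℤ)) := by
    have e : y - 1 = (z ^ Nat.card (𝓞 K ⧸ v.asIdeal ^ j)ˣ -
        (algebraMap K (v.adicCompletion K) a) ^ Nat.card (𝓞 K ⧸ v.asIdeal ^ j)ˣ) +
        algebraMap K (v.adicCompletion K)
          (algebraMap (𝓞 K) K (a ^ Nat.card (𝓞 K ⧸ v.asIdeal ^ j)ˣ - 1)) := by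
      rw [hz, map_sub, map_pow, map_one, map_sub, map_pow, map_one]
      ring
    rw [e]
    refine (Valuation.map_add _ _ _).trans (max_le ?_ h6)
    refine val_sub_pow v ha1.le hz1.le (ha.trans ?_) _
    rw [exp_le_exp]
    push_cast
    omega
  exact absurd hj (not_lt.2 h8)

end divisible

end Pool.Agent.V7H2.KS
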