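import Pool.Agent.V7H2.KS.Cyc
import Pool.Agent.V7H2.KS.Move2
import Pool.Agent.V7H2.KS.Cheb2
import Pool.Agent.V7H2.KS.Places
import Pool.Agent.TH954.SObs2

/-!
# Families of local roots of a polynomial which are locally everywhere in classes of `K` modulo
powers are constant
-/

set_option autoImplicit false
set_option linter.unusedSectionVars false

open IsDedekindDomain NumberField Polynomial Pool.Agent.TH954

namespace Pool.Agent.V7H2.KS

variable {K : Type} [Field K] [NumberField K]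

/-- local roots come from algebraic roots -/
lemma exists_theta {h : K[X]} (hh : h ≠ 0) (v : HeightOneSpectrum (𝓞 K))
    (ι : AlgebraicClosure K →ₐ[K] AlgebraicClosure (v.adicCompletion K))
    {y : v.adicCompletion K} (hy : aeval y h = 0) :
    ∃ θ : AlgebraicClosure K, ι θ = algebraMap (v.adicCompletion K)
      (AlgebraicClosure (v.adicCompletion K)) y ∧ aeval θ h = 0 := by
  have hs : (h.map (algebraMap K (AlgebraicClosure K))).Splits := IsAlgClosed.splits _
  have h0 : h.map (algebraMap K (AlgebraicClosure K)) ≠ 0 :=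
    (Polynomial.map_ne_zero_iff (algebraMap K (AlgebraicClosure K)).injective).2 hh
  obtain ⟨θ, hθ⟩ := hs.mem_range_of_isRoot (i := (ι : AlgebraicClosure K →+* _))
    (x := algebraMap (v.adicCompletion K) (AlgebraicClosure (v.adicCompletion K)) y) h0 (by
      rw [Polynomial.IsRoot.def, Polynomial.eval_map, Polynomial.eval₂_map]
      have e1 : (ι : AlgebraicClosure K →+* AlgebraicClosure (v.adicCompletion K)).comp
          (algebraMap K (AlgebraicClosure K)) =
            algebraMap K (AlgebraicClosure (v.adicCompletion K)) := ι.comp_algebraMap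
      rw [e1, ← Polynomial.aeval_def, aeval_algebraMap_apply, hy, map_zero])
  have hθ' : ι θ = algebraMap (v.adicCompletion K)
      (AlgebraicClosure (v.adicCompletion K)) y := hθ
  refine ⟨θ, hθ', ?_⟩
  have h1 : ι (aeval θ h) = 0 := by
    rw [← Polynomial.aeval_algHom_apply, hθ', aeval_algebraMap_apply, hy, map_zero]
  exact (map_eq_zero ι).1 h1

/-- **Families of local roots** of a polynomial over `K`, none of them zero, which for every `n` are
all in the class of one element of `K` modulo `n`-th powers, are constant. -/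
theorem rational_of_kummer {h : K[X]} (hh : h ≠ 0)
    (y : ∀ v : HeightOneSpectrum (𝓞 K), v.adicCompletion K) (hy0 : ∀ v, y v ≠ 0)
    (hy : ∀ v, aeval (y v) h = 0)
    (hk : ∀ n : ℕ, 0 < n → ∃ e : K, e ≠ 0 ∧ ∀ v : HeightOneSpectrum (𝓞 K),
      ∃ z : v.adicCompletion K, y v = algebraMap K (v.adicCompletion K) e * z ^ n) :
    ∃ b : K, ∀ v, y v = algebraMap K (v.adicCompletion K) b := by
  classical
  set A := AlgebraicClosure K with hA
  have halgA : Algebra.IsAlgebraic K A := inferInstance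
  -- the finite set
  set T0 : Finset A := (h.aroots A).toFinset.erase 0 with hT0def
  have hmem0 : ∀ θ, θ ∈ T0 ↔ θ ≠ 0 ∧ aeval θ h = 0 := by
    intro θ
    rw [hT0def, Finset.mem_erase, Multiset.mem_toFinset, Polynomial.mem_aroots]
    exact ⟨fun h1 => ⟨h1.1, h1.2.2⟩, fun h1 => ⟨h1.1, hh, h1.2⟩⟩
  obtain ⟨D, hD, hDint⟩ := exists_denom T0
  have hDK : (D : K) ≠ 0 := by exact_mod_cast hD
  have hDA : (D : A) ≠ 0 := by exact_mod_cast hD
  set T : Finset A := T0.image (fun θ => (D : A) * θ) with hTdef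
  have hTst : ∀ σ : A ≃ₐ[K] A, ∀ θ ∈ T, σ θ ∈ T := by
    intro σ x hx
    obtain ⟨θ, hθ, rfl⟩ := Finset.mem_image.1 hx
    refine Finset.mem_image.2 ⟨σ θ, ?_, ?_⟩
    · rw [hmem0] at hθ ⊢
      refine ⟨(_root_.map_ne_zero σ).2 hθ.1, ?_⟩
      rw [Polynomial.aeval_algHom_apply, hθ.2, map_zero]
    · rw [map_mul, map_natCast]
  have hTint : ∀ θ ∈ T, IsIntegral ℤ θ := by
    intro x hx
    obtain ⟨θ, hθ, rfl⟩ := Finset.mem_image.1 hx
    exact hDint θ hθ
  have hTne : ∀ θ ∈ T, θ ≠ 0 := by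
    intro x hx
    obtain ⟨θ, hθ, rfl⟩ := Finset.mem_image.1 hx
    exact mul_ne_zero hDA ((hmem0 θ).1 hθ).1
  -- the field
  set E : IntermediateField K A := IntermediateField.adjoin K (T : Set A) with hEdef
  have hTE : ∀ θ ∈ T, θ ∈ E := fun θ hθ => IntermediateField.subset_adjoin K _ hθ
  have hfd : FiniteDimensional K E := IntermediateField.finiteDimensional_adjoin
    (fun x _ => (Algebra.IsAlgebraic.isAlgebraic x).isIntegral)
  have hnf : NumberField E := NumberField.of_module_finite K E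
  obtain ⟨N, hN, hdesc⟩ := exists_desc E
  set P : ℕ := T.card.factorial * N with hP
  have hPpos : 0 < P := Nat.mul_pos (Nat.factorial_pos _) hN
  set d' : ℕ := Module.finrank K E with hd'
  have hd'pos : 0 < d' := Module.finrank_pos
  -- the main step
  have hmain : ∀ n : ℕ, 0 < n → ∃ θ : E, ∃ c b : K, (θ : A) ∈ T ∧ c ≠ 0 ∧ b ≠ 0 ∧
      (∀ v : HeightOneSpectrum (𝓞 K), ∃ z : v.adicCompletion K,
        (D : v.adicCompletion K) * y v = algebraMap K (v.adicCompletion K) c * z ^ n) ∧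
      (Algebra.norm K θ) ^ P = c ^ (P * d') * b ^ n := by
    intro n hn
    obtain ⟨e, he0, he⟩ := hk n hn
    obtain ⟨c1, d, hd, hcd⟩ : ∃ (c1 : 𝓞 K) (d : 𝓞 K), d ≠ 0 ∧
        (c1 : K) = (D : K) * e * (d : K) := by
      obtain ⟨x, w, hw, hxw⟩ := IsFractionRing.div_surjective (𝓞 K) ((D : K) * e)
      have hw0 : w ≠ 0 := nonZeroDivisors.ne_zero hw
      refine ⟨x, w, hw0, ?_⟩
      rw [← hxw, div_mul_cancel₀]
      exact fun h0 => hw0 (RingOfIntegers.coe_injective (by rw [map_zero]; exact h0))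
    have hdK : (d : K) ≠ 0 :=
      fun h0 => hd (RingOfIntegers.coe_injective (by rw [map_zero]; exact h0))
    have hc1 : c1 ≠ 0 := by
      rintro rfl
      have : (D : K) * e * (d : K) = 0 := by rw [← hcd]; simp
      exact mul_ne_zero (mul_ne_zero hDK he0) hdK this
    set c : 𝓞 K := c1 * d ^ (n - 1) with hc
    have hc0 : c ≠ 0 := mul_ne_zero hc1 (pow_ne_zero _ hd)
    have hcK : (c : K) ≠ 0 := fun h0 => hc0 (RingOfIntegers.coe_injective (by rw [map_zero]; exact h0))
    have hcval : (c : K) = (D : K) * e * (d : K) ^ n := by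
      have e4 : (c : K) = (c1 : K) * (d : K) ^ (n - 1) := by
        rw [hc]
        simp
      rw [e4, hcd]
      have : n = (n - 1) + 1 := by omega
      conv_rhs => rw [this]
      ring
    have hloc : ∀ v : HeightOneSpectrum (𝓞 K), ∃ z : v.adicCompletion K,
        (D : v.adicCompletion K) * y v = toLoc v c * z ^ n := by
      intro v
      obtain ⟨z, hz⟩ := he v
      have hdv : algebraMap K (v.adicCompletion K) (d : K) ≠ 0 := (_root_.map_ne_zero _).2 hdK
      refine ⟨z / algebraMap K (v.adicCompletion K) (d : K), ?_⟩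
      change _ = algebraMap K (v.adicCompletion K) (c : K) * _
      rw [hcval, map_mul, map_mul, map_pow, map_natCast, div_pow, hz]
      field_simp
    set cA : A := algebraMap K A (c : K) with hcA
    have hcA0 : cA ≠ 0 := (_root_.map_ne_zero _).2 hcK
    have hρex : ∀ θ : A, ∃ r : A, r ^ n = cA ^ (n - 1) * θ := fun θ =>
      IsAlgClosed.exists_pow_nat_eq _ hn
    choose ρ hρ using hρex
    have : NeZero (n : A) := ⟨by exact_mod_cast hn.ne'⟩
    obtain ⟨ζ, hζ⟩ := HasEnoughRootsOfUnity.exists_primitiveRoot A n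
    set S : Set A := (E : Set A) ∪ {ζ} with hS
    set F : IntermediateField K A := IntermediateField.adjoin K S with hF
    have hEF : ∀ x ∈ E, x ∈ F := fun x hx => IntermediateField.subset_adjoin K S (Or.inl hx)
    have hζF : ζ ∈ F := IntermediateField.subset_adjoin K S (Or.inr rfl)
    have hcE : cA ∈ E := E.algebraMap_mem _
    have hρE : ∀ θ ∈ T, ρ θ ^ n ∈ E := by
      intro θ hθ
      rw [hρ]
      exact mul_mem (pow_mem hcE _) (hTE θ hθ)
    obtain ⟨θ, hθT, j, hj0, hjT, hjF⟩ : ∃ θ ∈ T, ∃ j : ℕ, 0 < j ∧ j ≤ T.card ∧ ρ θ ^ j ∈ F := by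
      by_contra hcon
      push Not at hcon
      obtain ⟨σ, hσF, hσρ⟩ := exists_move2 F hn hζ hζF T ρ (fun θ hθ => hEF _ (hρE θ hθ)) hcon
      obtain ⟨v, hv⟩ := frob_step T hTst hTint hTne hn hc0 ρ (fun θ _ => hρ θ) hζ
        (hσF ζ hζF) (fun θ hθ => hσF θ (hEF θ (hTE θ hθ))) hσρ
      let ι : A →ₐ[K] AlgebraicClosure (v.adicCompletion K) := IsAlgClosed.lift
      obtain ⟨θ, hθ1, hθ2⟩ := exists_theta hh v ι (hy v)
      obtain ⟨z, hz⟩ := hloc v
      have hθ0 : θ ≠ 0 := by
        rintro rfl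
        rw [map_zero] at hθ1
        exact hy0 v ((map_eq_zero _).1 hθ1.symm)
      refine hv ι ((D : A) * θ) (Finset.mem_image_of_mem _ ((hmem0 θ).2 ⟨hθ0, hθ2⟩)) z ?_
      rw [map_mul, map_natCast, hθ1, ← hz, map_mul, map_natCast]
    have hρ0 : ρ θ ≠ 0 := by
      intro h0
      have h1 := hρ θ
      rw [h0, zero_pow hn.ne'] at h1
      exact mul_ne_zero (pow_ne_zero _ hcA0) (hTne θ hθT) h1.symm
    obtain ⟨w1, hw1E, hw1⟩ := hdesc n hn S Set.subset_union_left (by
      rintro x (hx | hx)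
      · exact Or.inl hx
      · right
        rw [Set.mem_singleton_iff.1 hx]
        exact hζ.pow_eq_one) (ρ θ ^ j) hjF (by
        rw [← pow_mul, mul_comm, pow_mul]
        exact pow_mem (hρE θ hθT) j) (pow_ne_zero _ hρ0)
    obtain ⟨q, hq⟩ : j ∣ T.card.factorial := Nat.dvd_factorial hj0 hjT
    have hw1' : (w1 ^ q) ^ n = (cA ^ (n - 1) * θ) ^ P := by
      rw [← pow_mul, mul_comm q n, pow_mul, hw1, ← hρ θ, hP, hq, ← pow_mul, ← pow_mul, ← pow_mul,
        ← pow_mul]
      congr 1
      ring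
    set θE : E := ⟨θ, hTE θ hθT⟩ with hθE
    set wE : E := ⟨w1 ^ q, pow_mem hw1E q⟩ with hwE
    have hEeq : wE ^ n = (algebraMap K E (c : K) ^ (n - 1) * θE) ^ P := by
      apply Subtype.ext
      exact hw1'
    have hnorm := congrArg (Algebra.norm K) hEeq
    rw [map_pow, map_pow, map_mul, map_pow, Algebra.norm_algebraMap] at hnorm
    refine ⟨θE, (c : K), Algebra.norm K wE / (c : K) ^ (P * d'), hθT, hcK, ?_, hloc, ?_⟩
    · refine div_ne_zero (Algebra.norm_ne_zero_iff.2 ?_) (pow_ne_zero _ hcK)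
      intro h0
      have h1 : w1 ^ q = 0 := congrArg Subtype.val h0
      rw [h1, zero_pow hn.ne'] at hw1'
      exact pow_ne_zero _ (mul_ne_zero (pow_ne_zero _ hcA0) (hTne θ hθT)) hw1'.symm
    · rw [div_pow, hnorm, mul_pow]
      have e1 : ((c : K) ^ (P * d')) ^ n ≠ 0 := pow_ne_zero _ (pow_ne_zero _ hcK)
      rw [mul_div_assoc', eq_div_iff e1]
      have hn' : n = (n - 1) + 1 := by omega
      have e2 : ((c : K) ^ (P * d')) ^ n = (c : K) ^ (P * d') * (((c : K) ^ d') ^ (n - 1)) ^ P := by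
        conv_lhs => rw [hn']
        rw [← pow_mul, ← pow_mul, ← pow_mul, ← pow_add]
        congr 1
        ring
      rw [e2]
      ring
  -- the candidates
  set N2 : ℕ := P * d' with hN2
  have hN2pos : 0 < N2 := Nat.mul_pos hPpos hd'pos
  let cand : Finset K := (T.attach.image (fun θ => (Algebra.norm K
    (⟨θ.1, hTE θ.1 θ.2⟩ : E)) ^ P)).biUnion (fun β => (Polynomial.nthRoots N2 β).toFinset)
  have hcand : ∀ (θ : E) (a : K), (θ : A) ∈ T → a ^ N2 = (Algebra.norm K θ) ^ P → a ∈ cand := by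
    intro θ a hθ ha
    refine Finset.mem_biUnion.2 ⟨(Algebra.norm K θ) ^ P, Finset.mem_image.2
      ⟨⟨(θ : A), hθ⟩, Finset.mem_attach _ _, rfl⟩, ?_⟩
    rw [Multiset.mem_toFinset, Polynomial.mem_nthRoots hN2pos]
    exact ha
  have hall : ∃ a ∈ cand, ∀ m : ℕ, 0 < m → ∀ v : HeightOneSpectrum (𝓞 K),
      ∃ z : v.adicCompletion K,
        (D : v.adicCompletion K) * y v = algebraMap K (v.adicCompletion K) a * z ^ m := by
    by_contra hcon
    push Not at hcon
    choose! M hM0 V hV using hcon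
    set R : ℕ := ∏ a ∈ cand, M a with hR
    have hRpos : 0 < R := Finset.prod_pos (fun a ha => hM0 a ha)
    obtain ⟨θ, c, b, hθ, hc0, hb0, hloc, hnorm⟩ := hmain (N2 * R) (Nat.mul_pos hN2pos hRpos)
    have hmem : c * b ^ R ∈ cand := by
      refine hcand θ _ hθ ?_
      rw [mul_pow, ← pow_mul, hnorm, mul_comm R N2]
    obtain ⟨q, hq⟩ : M (c * b ^ R) ∣ R := Finset.dvd_prod_of_mem M hmem
    obtain ⟨v, hv⟩ : ∃ v : HeightOneSpectrum (𝓞 K), ∀ z : v.adicCompletion K,
        (D : v.adicCompletion K) * y v ≠ algebraMap K (v.adicCompletion K) (c * b ^ R) *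
          z ^ M (c * b ^ R) := ⟨V _ hmem, hV _ hmem⟩
    obtain ⟨z, hz⟩ := hloc v
    have hbv : algebraMap K (v.adicCompletion K) b ≠ 0 := (_root_.map_ne_zero _).2 hb0
    refine hv ((z ^ N2 / algebraMap K (v.adicCompletion K) b) ^ q) ?_
    have e1 : ((z ^ N2 / algebraMap K (v.adicCompletion K) b) ^ q) ^ M (c * b ^ R) =
        z ^ (N2 * R) / (algebraMap K (v.adicCompletion K) b) ^ R := by
      rw [← pow_mul, mul_comm q, ← hq, div_pow, ← pow_mul]
    rw [e1, hz, map_mul, map_pow]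
    field_simp
  obtain ⟨a, -, ha⟩ := hall
  refine ⟨a / D, fun v => ?_⟩
  have hcv : CharZero (v.adicCompletion K) :=
    charZero_of_injective_algebraMap (algebraMap K (v.adicCompletion K)).injective
  have hDv : (D : v.adicCompletion K) ≠ 0 := by exact_mod_cast hD
  have ha0 : algebraMap K (v.adicCompletion K) a ≠ 0 := by
    intro h0
    obtain ⟨z, hz⟩ := ha 1 one_pos v
    rw [h0, zero_mul] at hz
    exact mul_ne_zero hDv (hy0 v) hz
  have h1 : (D : v.adicCompletion K) * y v / algebraMap K (v.adicCompletion K) a = 1 := by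
    refine eq_one_of_pow v (div_ne_zero (mul_ne_zero hDv (hy0 v)) ha0) (fun n hn => ?_)
    obtain ⟨z, hz⟩ := ha n hn v
    exact ⟨z, by rw [hz, mul_div_cancel_left₀ _ ha0]⟩
  rw [div_eq_one_iff_eq ha0] at h1
  rw [map_div₀, map_natCast, ← h1, mul_div_cancel_left₀ _ hDv]

end Pool.Agent.V7H2.KS
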