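import Pool.Agent.V7H2.KS.Conv2
import Pool.Agent.V7H2.KS.Rat

/-!
# Functions with tame values are constant on the local points of a section, for arbitrary quotients
-/

set_option autoImplicit false
set_option linter.unusedSectionVars false

namespace Pool.Agent.V7H2.KS

open IsDedekindDomain HeightOneSpectrum NumberField WithZero Polynomial
open Pool.Agent.TH954

/-- **Kummer theory** for one element with an `n`-th root. -/
theorem kummerR {K : Type} [Field K] [CharZero K] {M : Type} [Field M] [Algebra K M]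
    (A : SAct K M) {f : M} (hf : f ∈ A.fix) (hf0 : f ≠ 0) {n : ℕ} (hn : 0 < n)
    (hr : ∃ w : M, w ^ n = f) :
    ∃ c : K, c ≠ 0 ∧ ∃ g ∈ A.fix, f = algebraMap K M c * g ^ n := by
  classical
  have : IsGalois K (AlgebraicClosure K) := ⟨⟩
  obtain ⟨w, hw⟩ := hr
  have hw0 : w ≠ 0 := by
    rintro rfl
    rw [zero_pow hn.ne'] at hw
    exact hf0 hw.symm
  obtain ⟨E, hE, hEw⟩ := A.cont w
  obtain ⟨β, hβ0, hβ⟩ := Pool.Agent.W620.SC.exists_fixed_multiple A.ra
    (A.j : AlgebraicClosure K →+* M) (fun σ a => A.hj σ a) ⊤ w hw0 (by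
      intro σ _
      have h1 : (A.s σ w / w) ^ n = 1 := by
        rw [div_pow, ← map_pow, hw, hf σ, div_self hf0]
      obtain ⟨ζ, hζ⟩ := Pool.Agent.W620.SC.root_mem (A.j : AlgebraicClosure K →+* M) hn
        (h := A.s σ w / w) (b := 1) (by rw [h1, map_one])
      refine ⟨ζ, ?_⟩
      rw [hζ]
      change A.s σ w = A.s σ w / w * w
      rw [div_mul_cancel₀ _ hw0]) E (by
      intro σ hσ
      exact hEw σ (fun z hz => (IntermediateField.mem_fixingSubgroup_iff _ _).1 hσ z hz))
  have hg : A.j β * w ∈ A.fix := fun τ => hβ τ (Subgroup.mem_top τ)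
  have hβn : A.j (β ^ n) ∈ A.fix := by
    have e : A.j (β ^ n) = (A.j β * w) ^ n / f := by
      rw [mul_pow, hw, map_pow, mul_div_assoc, div_self hf0, mul_one]
    rw [e]
    exact div_mem (pow_mem hg n) hf
  obtain ⟨c, hc⟩ := A.fix_j hβn
  have hc0 : c ≠ 0 := by
    rintro rfl
    rw [map_zero] at hc
    exact pow_ne_zero n hβ0 hc.symm
  refine ⟨c⁻¹, inv_ne_zero hc0, _, hg, ?_⟩
  have e : algebraMap K M c = A.j β ^ n := by
    rw [← A.j.commutes c, hc, map_pow]
  rw [map_inv₀, e, mul_pow, hw, inv_mul_cancel_left₀]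
  exact pow_ne_zero _ ((map_ne_zero A.j).2 hβ0)

variable {k : Type} [Field k] [NumberField k] {F M B : Type} [Field F] [Field M] [Field B]
  [Algebra k F] [Algebra F M] [Algebra k M] [Algebra k B] [IsScalarTower k F M]
  [Algebra.IsAlgebraic F M] [IsAlgClosure k B]

/-- `M` contains an `n`-th root of `f` for every `n ≥ 1` -/
def HasRoots (M : Type) {F : Type} [Field F] [Field M] [Algebra F M] (f : F) : Prop :=
  ∀ n : ℕ, 0 < n → ∃ w : M, w ^ n = algebraMap F M f

/-- the Kummer decomposition at the local points -/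
lemma kummer_localR (s : GalSection k F M B)
    (pl : ∀ v : HeightOneSpectrum (𝓞 k), Plc k M (AlgebraicClosure (v.adicCompletion k)))
    (hp : ∀ v, s.GivenBy (v.adicCompletion k) (pl v)) {f : F} (hf : f ≠ 0)
    (hr : HasRoots M f) {a : ∀ v : HeightOneSpectrum (𝓞 k), v.adicCompletion k}
    (ha : ∀ v, (pl v).val (algebraMap F M f)
      (algebraMap (v.adicCompletion k) (AlgebraicClosure (v.adicCompletion k)) (a v)))
    {n : ℕ} (hn : 0 < n) : ∃ e : k, e ≠ 0 ∧ ∀ v : HeightOneSpectrum (𝓞 k),
      ∃ z : v.adicCompletion k, a v = algebraMap k (v.adicCompletion k) e * z ^ n := by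
  have hcv : ∀ v : HeightOneSpectrum (𝓞 k), CharZero (v.adicCompletion k) := fun v =>
    charZero_of_injective_algebraMap (algebraMap k (v.adicCompletion k)).injective
  have hpl : ∀ v, GeoPlc (toSAct s) (pl v) := fun v => geo_of_givenQ s (hp v)
  have hfixF : ∀ x : F, algebraMap F M x ∈ (toSAct s).fix := fun x τ =>
    (s.s ((eqv k B).autCongr τ)).commutes x
  have hne : algebraMap F M f ≠ 0 := (_root_.map_ne_zero _).2 hf
  obtain ⟨e, he0, g, hg, hfg⟩ := kummerR (toSAct s) (hfixF f) hne hn (hr n hn)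
  refine ⟨e, he0, fun v => ?_⟩
  have hgn : g ^ n = algebraMap F M f * algebraMap k M e⁻¹ := by
    rw [hfg, map_inv₀]
    field_simp [(_root_.map_ne_zero (algebraMap k M)).2 he0]
  have hgW : g ∈ (pl v).W := by
    apply Plc.mem_of_pow_mem hn
    rw [hgn]
    exact mul_mem (ha v).mem ((pl v).alg_mem _)
  obtain ⟨z, hz⟩ := val_baseQ (hpl v) hg hgW
  refine ⟨z, ?_⟩
  apply (algebraMap (v.adicCompletion k) (AlgebraicClosure (v.adicCompletion k))).injective
  have h2 := (Plc.val_alg (pl := pl v) e).mul (hz.pow n)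
  rw [← hfg] at h2
  rw [map_mul, map_pow, ← IsScalarTower.algebraMap_apply]
  exact (ha v).unique h2

/-- tame values are units at almost all places -/
lemma units_of_tameR (s : GalSection k F M B)
    (pl : ∀ v : HeightOneSpectrum (𝓞 k), Plc k M (AlgebraicClosure (v.adicCompletion k)))
    (hp : ∀ v, s.GivenBy (v.adicCompletion k) (pl v)) {f : F} (hf : f ≠ 0)
    (hr : HasRoots M f) (h : TameValues pl f) :
    ∃ a : ∀ v : HeightOneSpectrum (𝓞 k), v.adicCompletion k,
      (∀ v, a v ≠ 0) ∧ (∀ v, (pl v).val (algebraMap F M f)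
        (algebraMap (v.adicCompletion k) (AlgebraicClosure (v.adicCompletion k)) (a v))) ∧
      {v | Valued.v (a v) ≠ 1}.Finite := by
  obtain ⟨n, a, hn, ha, hfin⟩ := h
  refine ⟨a, fun v => (ha v).1, fun v => (ha v).2, ?_⟩
  obtain ⟨e, he0, he⟩ := kummer_localR s pl hp hf hr (fun v => (ha v).2) hn
  refine (hfin.union (unit_aeQ he0)).subset (fun v hv => ?_)
  by_cases h1 : Valued.v (algebraMap k (v.adicCompletion k) e) = 1
  · left
    refine ⟨hv, ?_⟩
    obtain ⟨z, hz⟩ := he v
    have hz0 : Valued.v z ≠ 0 := by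
      intro h0
      have h2 : z = 0 := (map_eq_zero _).1 h0
      apply (ha v).1
      rw [hz, h2, zero_pow hn.ne', mul_zero]
    refine ⟨log (Valued.v z), ?_⟩
    rw [hz, map_mul, h1, one_mul, map_pow]
    conv_lhs => rw [← exp_log hz0]
    rw [← exp_nsmul, nsmul_eq_mul]
  · right
    exact h1

/-- **A function with tame values is constant on the local points.** -/
theorem const_of_tame {k0 : Type} [Field k0] [NumberField k0] [Algebra k0 k] [Finite (𝓞 k0)ˣ]
    (s : GalSection k F M B)
    (pl : ∀ v : HeightOneSpectrum (𝓞 k), Plc k M (AlgebraicClosure (v.adicCompletion k)))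
    (hp : ∀ v, s.GivenBy (v.adicCompletion k) (pl v)) {x : F}
    {c : Fin (Module.finrank k0 k) → k0} (hc : Function.Injective c)
    (hr : ∀ i, HasRoots M (x - algebraMap k F (algebraMap k0 k (c i))))
    (hu : ∀ i, TameValues pl (x - algebraMap k F (algebraMap k0 k (c i)))) :
    ∃ b : k, ∀ v, (pl v).val (algebraMap F M x)
      (algebraMap k (AlgebraicClosure (v.adicCompletion k)) b) := by
  by_cases hx : x ∈ Set.range (algebraMap k F)
  · obtain ⟨b, rfl⟩ := hx
    refine ⟨b, fun v => ?_⟩
    rw [← IsScalarTower.algebraMap_apply]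
    exact Plc.val_alg b
  have hcv : ∀ v : HeightOneSpectrum (𝓞 k), CharZero (v.adicCompletion k) := fun v =>
    charZero_of_injective_algebraMap (algebraMap k (v.adicCompletion k)).injective
  have hfin0 : FiniteDimensional k0 k := Module.Finite.of_restrictScalars_finite ℚ k0 k
  have hne : ∀ i, x - algebraMap k F (algebraMap k0 k (c i)) ≠ 0 := by
    intro i h
    rw [sub_eq_zero] at h
    exact hx ⟨_, h.symm⟩
  choose a ha0 ha hfin using fun i => units_of_tameR s pl hp (hne i) (hr i) (hu i)
  let i0 : Fin (Module.finrank k0 k) := ⟨0, Module.finrank_pos⟩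
  set x0 : ∀ v : HeightOneSpectrum (𝓞 k), v.adicCompletion k := fun v =>
    a i0 v + algebraMap k (v.adicCompletion k) (algebraMap k0 k (c i0)) with hx0
  have hx0v : ∀ v, (pl v).val (algebraMap F M x)
      (algebraMap (v.adicCompletion k) (AlgebraicClosure (v.adicCompletion k)) (x0 v)) := by
    intro v
    have h1 := (ha i0 v).add (Plc.val_alg (pl := pl v) (algebraMap k0 k (c i0)))
    rw [map_sub, ← IsScalarTower.algebraMap_apply k F M, sub_add_cancel] at h1
    rw [hx0, map_add, ← IsScalarTower.algebraMap_apply k (v.adicCompletion k)]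
    exact h1
  have hai : ∀ i v, x0 v - algebraMap k (v.adicCompletion k) (algebraMap k0 k (c i)) = a i v := by
    intro i v
    apply (algebraMap (v.adicCompletion k) (AlgebraicClosure (v.adicCompletion k))).injective
    have h1 := (hx0v v).sub (Plc.val_alg (pl := pl v) (algebraMap k0 k (c i)))
    have h2 := ha i v
    rw [map_sub, ← IsScalarTower.algebraMap_apply k F M] at h2
    rw [map_sub, ← IsScalarTower.algebraMap_apply k (v.adicCompletion k)]
    exact h1.unique h2
  have hm : ∀ i, {v | -log (Valued.v (a i v)) ≠ 0}.Finite := by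
    intro i
    refine (hfin i).subset (fun v hv h0 => hv ?_)
    rw [h0, log_one, neg_zero]
  obtain ⟨g, hg0, hg⟩ := exists_G (k0 := k0) (k := k) hc
    (m := fun i v => -log (Valued.v (a i v))) hm
  have hroot := hg x0
    (fun i v => by
      rw [hai, neg_neg, exp_log]
      exact (Valuation.ne_zero_iff _).2 (ha0 i v))
    (fun i n hn => by
      obtain ⟨e, he0, he⟩ := kummer_localR s pl hp (hne i) (hr i) (ha i) hn
      refine ⟨e, he0, fun v => ?_⟩
      rw [hai]
      exact he v)
  -- translate and apply the rationality theorem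
  obtain ⟨b, hb⟩ := rational_of_kummer (h := g.comp (X + C (algebraMap k0 k (c i0)))) (by
      intro h0
      apply hg0
      have h1 := congrArg (fun q : k[X] => q.comp (X - C (algebraMap k0 k (c i0)))) h0
      simp only [comp_assoc, add_comp, X_comp, C_comp, sub_add_cancel, comp_X, zero_comp] at h1
      exact h1) (a i0) (ha0 i0) (fun v => by
      rw [aeval_comp, map_add, aeval_X, aeval_C]
      have e1 : a i0 v + algebraMap k (v.adicCompletion k) (algebraMap k0 k (c i0)) = x0 v := by
        rw [hx0]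
      rw [e1]
      exact hroot v) (fun n hn => kummer_localR s pl hp (hne i0) (hr i0) (ha i0) hn)
  refine ⟨b + algebraMap k0 k (c i0), fun v => ?_⟩
  have h1 := hx0v v
  have e1 : x0 v = algebraMap k (v.adicCompletion k) (b + algebraMap k0 k (c i0)) := by
    rw [hx0, map_add, ← hb v]
  rw [e1, ← IsScalarTower.algebraMap_apply k (v.adicCompletion k)] at h1
  exact h1

end Pool.Agent.V7H2.KS
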