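import Pool.Agent.V7H2.KS.Main3

/-!
# Local points with a common rational coordinate lie over one rational place
-/

set_option autoImplicit false
set_option linter.unusedSectionVars false

namespace Pool.Agent.V7H2.KS

open IsDedekindDomain HeightOneSpectrum NumberField WithZero Polynomial
open Pool.Agent.TH954

/-- `O` is a nontrivial valuation ring of `F` over `k` with residue field `k`, that is, the local
ring of a `k`-rational point -/
def RationalPlace (k : Type) {F : Type} [Field k] [Field F] [Algebra k F] (O : ValuationSubring F) :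
    Prop :=
  O ≠ ⊤ ∧ (∀ c : k, algebraMap k F c ∈ O) ∧
    ∀ a ∈ O, ∃ c : k, O.valuation (a - algebraMap k F c) < 1

variable {k : Type} [Field k] [NumberField k] {F M B : Type} [Field F] [Field M] [Field B]
  [Algebra k F] [Algebra F M] [Algebra k M] [Algebra k B] [IsScalarTower k F M]
  [Algebra.IsAlgebraic F M] [IsAlgClosure k B]

/-- an element with finitely many values, all nonzero and finite, is constant -/
lemma const_of_finVal (s : GalSection k F M B)
    (pl : ∀ v : HeightOneSpectrum (𝓞 k), Plc k M (AlgebraicClosure (v.adicCompletion k)))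
    (hp : ∀ v, s.GivenBy (v.adicCompletion k) (pl v)) {g : F} (hg0 : g ≠ 0)
    (hr : HasRoots M g) (hfin : FinVal (toSAct s) pl (algebraMap F M g))
    (hW : ∀ v, algebraMap F M g ∈ (pl v).W) (hne : ∀ v, ¬ (pl v).val (algebraMap F M g) 0) :
    ∃ b : k, ∀ v, (pl v).val (algebraMap F M g)
      (algebraMap k (AlgebraicClosure (v.adicCompletion k)) b) := by
  classical
  have hcv : ∀ v : HeightOneSpectrum (𝓞 k), CharZero (v.adicCompletion k) := fun v =>
    charZero_of_injective_algebraMap (algebraMap k (v.adicCompletion k)).injective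
  have hpl : ∀ v, GeoPlc (toSAct s) (pl v) := fun v => geo_of_givenQ s (hp v)
  have hfixF : ∀ x : F, algebraMap F M x ∈ (toSAct s).fix := fun x τ =>
    (s.s ((eqv k B).autCongr τ)).commutes x
  obtain ⟨R, hR⟩ := hfin
  choose y hy using fun v => val_baseQ (hpl v) (hfixF g) (hW v)
  have hy0 : ∀ v, y v ≠ 0 := by
    intro v h0
    apply hne v
    have h1 := hy v
    rw [h0, map_zero] at h1
    exact h1
  obtain ⟨b, hb⟩ := rational_of_kummer (h := ∏ β ∈ R, minpoly k β)
    (Finset.prod_ne_zero_iff.2 (fun β _ =>
      minpoly.ne_zero (Algebra.IsAlgebraic.isAlgebraic β).isIntegral)) y hy0 (fun v => by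
      obtain ⟨β, hβR, hβ⟩ := hR v (hW v)
      have h1 := hβ.unique (hy v)
      rw [map_prod]
      refine Finset.prod_eq_zero hβR ?_
      apply (algebraMap (v.adicCompletion k) (AlgebraicClosure (v.adicCompletion k))).injective
      rw [← aeval_algebraMap_apply, ← h1, map_zero, aeval_algHom_apply, minpoly.aeval, map_zero])
    (fun n hn => kummer_localR s pl hp hg0 hr hy hn)
  refine ⟨b, fun v => ?_⟩
  have h1 := hy v
  rw [hb v, ← IsScalarTower.algebraMap_apply] at h1
  exact h1

lemma exists_nat_notMem (R : Finset (AlgebraicClosure k)) (S : Finset F) [CharZero F] :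
    ∃ a : ℕ, (a : AlgebraicClosure k) ∉ R ∧ (a : F) ∉ S := by
  classical
  have h1 : {a : ℕ | (a : AlgebraicClosure k) ∈ R}.Finite :=
    Set.Finite.preimage (Nat.cast_injective.injOn) R.finite_toSet
  have h2 : {a : ℕ | (a : F) ∈ S}.Finite :=
    Set.Finite.preimage (Nat.cast_injective.injOn) S.finite_toSet
  obtain ⟨a, ha⟩ := (h1.union h2).exists_notMem
  rw [Set.mem_union, not_or] at ha
  exact ⟨a, ha.1, ha.2⟩

/-- every function is constant on the local points or has a pole at all of them -/
theorem const_or_pole (hF : ∃ t : F, Transcendental k t ∧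
      Algebra.IsAlgebraic (IntermediateField.adjoin k {t}) F)
    (hr : ∀ f : F, HasRoots M f) (s : GalSection k F M B)
    (pl : ∀ v : HeightOneSpectrum (𝓞 k), Plc k M (AlgebraicClosure (v.adicCompletion k)))
    (hp : ∀ v, s.GivenBy (v.adicCompletion k) (pl v)) {t : F} (ht0 : t ≠ 0)
    (ht : ∀ v, (pl v).val (algebraMap F M t) 0) (f : F) :
    (∃ b : k, ∀ v, (pl v).val (algebraMap F M f)
      (algebraMap k (AlgebraicClosure (v.adicCompletion k)) b)) ∨
    ∀ v, algebraMap F M f ∉ (pl v).W := by
  classical
  have hcF : CharZero F := charZero_of_injective_algebraMap (algebraMap k F).injective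
  have ht00 : algebraMap F M t ≠ 0 := (_root_.map_ne_zero _).2 ht0
  have hfinV : ∀ x, FinVal (toSAct s) pl x := by
    refine finVal_of_alg (toSAct s) pl (t := algebraMap F M t) ht00 ht (fun x hx => ?_)
    exact (alg_adjoin_of_dim hF x hx).isAlgebraic _
  -- first translation
  obtain ⟨R, hR⟩ := hfinV (algebraMap F M f)
  obtain ⟨a, haR, haF⟩ := exists_nat_notMem R {f}
  have hfa : f - (a : F) ≠ 0 := by
    intro h
    rw [sub_eq_zero] at h
    exact haF (by rw [h]; exact Finset.mem_singleton_self _)
  set g : F := (f - (a : F))⁻¹ with hg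
  have hg0 : g ≠ 0 := inv_ne_zero hfa
  have hgW : ∀ v, algebraMap F M g ∈ (pl v).W := by
    intro v
    by_cases hfW : algebraMap F M f ∈ (pl v).W
    · obtain ⟨β, hβR, hβ⟩ := hR v hfW
      have h1 : (pl v).val (algebraMap F M (f - (a : F)))
          ((pl v).iot (toSAct s).j (β - (a : AlgebraicClosure k))) := by
        rw [map_sub, map_sub, map_natCast, map_natCast]
        exact hβ.sub (Plc.val_natCast a)
      have h2 : (pl v).iot (toSAct s).j (β - (a : AlgebraicClosure k)) ≠ 0 := by
        rw [Ne, map_eq_zero, sub_eq_zero]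
        intro h
        exact haR (h ▸ hβR)
      rw [hg, map_inv₀]
      exact (h1.inv h2).mem
    · have h1 : algebraMap F M (f - (a : F)) ∉ (pl v).W := by
        intro h
        apply hfW
        have h2 := add_mem h (natCast_mem (pl v).W a)
        rw [map_sub, map_natCast, sub_add_cancel] at h2
        exact h2
      rw [hg, map_inv₀]
      exact (Plc.val_inv_of_notMem h1).mem
  -- second translation
  obtain ⟨R', hR'⟩ := hfinV (algebraMap F M g)
  obtain ⟨a', haR', haF'⟩ := exists_nat_notMem (R'.image (fun β => -β)) {-g}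
  have hga : g + (a' : F) ≠ 0 := by
    intro h
    apply haF'
    rw [Finset.mem_singleton, eq_neg_iff_add_eq_zero, add_comm]
    exact h
  have hval : ∀ v, ∃ β ∈ R', (pl v).val (algebraMap F M (g + (a' : F)))
      ((pl v).iot (toSAct s).j (β + (a' : AlgebraicClosure k))) := by
    intro v
    obtain ⟨β, hβR, hβ⟩ := hR' v (hgW v)
    refine ⟨β, hβR, ?_⟩
    rw [map_add, map_add, map_natCast, map_natCast]
    exact hβ.add (Plc.val_natCast a')
  obtain ⟨b, hb⟩ := const_of_finVal s pl hp hga (hr _) (hfinV _) (fun v => by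
      obtain ⟨β, -, hβ⟩ := hval v
      exact hβ.mem) (fun v h0 => by
      obtain ⟨β, hβR, hβ⟩ := hval v
      have h1 := hβ.unique h0
      rw [map_eq_zero] at h1
      apply haR'
      rw [Finset.mem_image]
      exact ⟨β, hβR, by linear_combination -h1⟩)
  -- the value of `g`
  have hbg : ∀ v, (pl v).val (algebraMap F M g)
      (algebraMap k (AlgebraicClosure (v.adicCompletion k)) (b - (a' : k))) := by
    intro v
    have h1 := (hb v).sub (Plc.val_natCast (pl := pl v) a')
    rw [map_add, map_natCast, add_sub_cancel_right] at h1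
    rw [map_sub, map_natCast]
    exact h1
  by_cases hb0 : b - (a' : k) = 0
  · right
    intro v hfW
    have h1 := hbg v
    rw [hb0, map_zero] at h1
    obtain ⟨c, hc⟩ := Plc.val_of_mem hfW
    have h2 : (pl v).val (algebraMap F M (f - (a : F))) (c - (a : AlgebraicClosure
        (v.adicCompletion k))) := by
      rw [map_sub, map_natCast]
      exact hc.sub (Plc.val_natCast a)
    have h3 := h1.mul h2
    rw [← map_mul, hg, inv_mul_cancel₀ hfa, map_one, zero_mul] at h3
    exact zero_ne_one (h3.unique Plc.val_one)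
  · left
    refine ⟨(b - (a' : k))⁻¹ + (a : k), fun v => ?_⟩
    have h1 := (hbg v).inv ((_root_.map_ne_zero _).2 hb0)
    have h2 := h1.add (Plc.val_natCast (pl := pl v) a)
    rw [← map_inv₀, hg, inv_inv, map_sub, map_natCast, sub_add_cancel] at h2
    rw [map_add, map_inv₀, map_natCast]
    exact h2

end Pool.Agent.V7H2.KS
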