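import Pool.Agent.V7H2.KS.Main4

/-!
# Sections of quotients which contain the roots of all functions
-/

set_option autoImplicit false
set_option linter.unusedSectionVars false

namespace Pool.Agent.V7H2.KS

open IsDedekindDomain HeightOneSpectrum NumberField WithZero Polynomial
open Pool.Agent.TH954

variable {k : Type} [Field k] [NumberField k] {F M B : Type} [Field F] [Field M] [Field B]
  [Algebra k F] [Algebra F M] [Algebra k M] [Algebra k B] [IsScalarTower k F M]
  [Algebra.IsAlgebraic F M] [IsAlgClosure k B]

/-- all the local points lie over the rational place `O` of `F` -/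
def LieOver (p : ∀ v : HeightOneSpectrum (𝓞 k), Plc k M (AlgebraicClosure (v.adicCompletion k)))
    (O : ValuationSubring F) : Prop :=
  ∀ v, (p v).W.comap (algebraMap F M) = O

/-- There are a nonconstant function `x` in `F` and `[k : k0]` different elements `c i` of `k0` such
that all the `x - c i` have tame values at the local points. -/
def IsTame (k0 : Type) {k : Type} (F : Type) {M : Type} [Field k0] [Field k] [NumberField k]
    [Field F] [Field M] [Algebra k0 k] [Algebra k F] [Algebra F M] [Algebra k M]
    (p : ∀ v : HeightOneSpectrum (𝓞 k), Plc k M (AlgebraicClosure (v.adicCompletion k))) : Prop :=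
  ∃ x : F, x ∉ Set.range (algebraMap k F) ∧
    ∃ c : Fin (Module.finrank k0 k) → k0, Function.Injective c ∧
      ∀ i, TameValues p (x - algebraMap k F (algebraMap k0 k (c i)))

omit [Algebra.IsAlgebraic F M] in
/-- the values of the functions at local points over a rational place are the residues -/
lemma val_of_lieOver {pl : ∀ v : HeightOneSpectrum (𝓞 k),
      Plc k M (AlgebraicClosure (v.adicCompletion k))} {O : ValuationSubring F}
    (h : LieOver pl O) {f : F} {a : k} (hf : O.valuation (f - algebraMap k F a) < 1) (v) :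
    (pl v).val (algebraMap F M f)
      (algebraMap k (AlgebraicClosure (v.adicCompletion k)) a) := by
  have h0 : (pl v).val (algebraMap F M (f - algebraMap k F a)) 0 := by
    rcases (ValuationSubring.mem_nonunits_iff_or _).1 hf with h1 | h1
    · rw [h1, map_zero]
      exact Plc.val_zero
    · have h2 : (algebraMap F M (f - algebraMap k F a))⁻¹ ∉ (pl v).W := by
        intro h3
        apply h1
        rw [← h v, ValuationSubring.mem_comap, map_inv₀]
        exact h3
      have h3 := Plc.val_inv_of_notMem h2
      rwa [inv_inv] at h3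
  have h1 := h0.add (Plc.val_alg (pl := pl v) a)
  rw [map_sub, ← IsScalarTower.algebraMap_apply, sub_add_cancel, zero_add] at h1
  exact h1

omit [Algebra.IsAlgebraic F M] in
/-- local points over a rational place have tame values -/
theorem tame_of_place {k0 : Type} [Field k0] [NumberField k0] [Algebra k0 k]
    (hF : ∃ t : F, Transcendental k t ∧
      Algebra.IsAlgebraic (IntermediateField.adjoin k {t}) F)
    {pl : ∀ v : HeightOneSpectrum (𝓞 k), Plc k M (AlgebraicClosure (v.adicCompletion k))}
    {O : ValuationSubring F} (hO : RationalPlace k O) (h : LieOver pl O) :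
    ∃ x : F, x ∉ Set.range (algebraMap k F) ∧
      ∃ c : Fin (Module.finrank k0 k) → k0, Function.Injective c ∧
        ∀ i, TameValues pl (x - algebraMap k F (algebraMap k0 k (c i))) := by
  obtain ⟨t, ht, -⟩ := hF
  have htr : ∀ y : F, y = t ∨ y = t⁻¹ → y ∉ Set.range (algebraMap k F) := by
    rintro y (rfl | rfl) ⟨b, hb⟩
    · exact ht (hb ▸ isAlgebraic_algebraMap b)
    · apply ht
      rw [inv_eq_iff_eq_inv.1 hb.symm, ← map_inv₀]
      exact isAlgebraic_algebraMap _
  obtain ⟨x, hx, hxO⟩ : ∃ x : F, x ∉ Set.range (algebraMap k F) ∧ x ∈ O := by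
    rcases O.mem_or_inv_mem t with h | h
    · exact ⟨t, htr t (Or.inl rfl), h⟩
    · exact ⟨t⁻¹, htr t⁻¹ (Or.inr rfl), h⟩
  obtain ⟨a, ha⟩ := hO.2.2 x hxO
  obtain ⟨c, hc, hca⟩ : ∃ c : Fin (Module.finrank k0 k) → k0, Function.Injective c ∧
      ∀ i, a - algebraMap k0 k (c i) ≠ 0 := by
    by_cases h : ∃ i : Fin (Module.finrank k0 k), a = ((i : ℕ) : k)
    · obtain ⟨i, rfl⟩ := h
      refine ⟨fun j => ((Module.finrank k0 k + j : ℕ) : k0), fun j j' hj => ?_, fun j hj => ?_⟩
      · have h1 : Module.finrank k0 k + (j : ℕ) = Module.finrank k0 k + (j' : ℕ) :=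
          Nat.cast_injective (R := k0) hj
        exact Fin.ext (by omega)
      · rw [sub_eq_zero, map_natCast] at hj
        have h1 : (i : ℕ) = Module.finrank k0 k + (j : ℕ) := by exact_mod_cast hj
        have h2 := i.2
        omega
    · refine ⟨fun j => ((j : ℕ) : k0), fun j j' hj => ?_, fun j hj => ?_⟩
      · have h1 : (j : ℕ) = (j' : ℕ) := Nat.cast_injective (R := k0) hj
        exact Fin.ext h1
      · rw [sub_eq_zero, map_natCast] at hj
        exact h ⟨j, hj⟩
  refine ⟨x, hx, c, hc, fun i => ⟨1,
    fun v => algebraMap k (v.adicCompletion k) (a - algebraMap k0 k (c i)), one_pos,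
    fun v => ⟨(_root_.map_ne_zero _).2 (hca i), ?_⟩,
    (unit_aeQ (hca i)).subset (fun v hv => hv.1)⟩⟩
  have h1 := (val_of_lieOver h ha v).sub
    (Plc.val_alg (pl := pl v) (algebraMap k0 k (c i)))
  rw [map_sub, ← IsScalarTower.algebraMap_apply k F M,
    ← IsScalarTower.algebraMap_apply k (v.adicCompletion k), map_sub]
  exact h1

lemma exists_place (k : Type) [Field k] [NumberField k] : Nonempty (HeightOneSpectrum (𝓞 k)) := by
  obtain ⟨P, hP⟩ := Ideal.exists_maximal (𝓞 k)
  exact ⟨⟨P, hP.isPrime, Ring.ne_bot_of_isMaximal_of_not_isField hP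
    (RingOfIntegers.not_isField k)⟩⟩

/-- if a nonzero function vanishes at all local points then they lie over one rational place -/
theorem place_of_zero (hF : ∃ t : F, Transcendental k t ∧
      Algebra.IsAlgebraic (IntermediateField.adjoin k {t}) F)
    (hr : ∀ f : F, HasRoots M f) (s : GalSection k F M B)
    (pl : ∀ v : HeightOneSpectrum (𝓞 k), Plc k M (AlgebraicClosure (v.adicCompletion k)))
    (hp : ∀ v, s.GivenBy (v.adicCompletion k) (pl v)) {t : F} (ht0 : t ≠ 0)
    (ht : ∀ v, (pl v).val (algebraMap F M t) 0) :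
    ∃! O : ValuationSubring F, RationalPlace k O ∧ LieOver pl O := by
  obtain ⟨v0⟩ := exists_place k
  have hcp := const_or_pole hF hr s pl hp ht0 ht
  have hlie : LieOver pl ((pl v0).W.comap (algebraMap F M)) := by
    intro v
    ext f
    rw [ValuationSubring.mem_comap, ValuationSubring.mem_comap]
    rcases hcp f with ⟨b, hb⟩ | hb
    · exact iff_of_true (hb v).mem (hb v0).mem
    · exact iff_of_false (hb v) (hb v0)
  refine ⟨(pl v0).W.comap (algebraMap F M), ⟨⟨?_, ?_, ?_⟩, hlie⟩, ?_⟩
  · intro htop
    have h3 : t⁻¹ ∈ (pl v0).W.comap (algebraMap F M) := by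
      rw [htop]
      exact ValuationSubring.mem_top _
    refine Plc.notMem_of_val_inv (pl := pl v0) (x := algebraMap F M t⁻¹)
      ((_root_.map_ne_zero _).2 (inv_ne_zero ht0)) ?_ (ValuationSubring.mem_comap.1 h3)
    rw [← map_inv₀, inv_inv]
    exact ht v0
  · intro c
    rw [ValuationSubring.mem_comap, ← IsScalarTower.algebraMap_apply]
    exact (pl v0).alg_mem c
  · intro f hf
    rcases hcp f with ⟨b, hb⟩ | hb
    · refine ⟨b, (ValuationSubring.mem_nonunits_iff_or _).2 ?_⟩
      by_cases h0 : f - algebraMap k F b = 0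
      · exact Or.inl h0
      · right
        intro h3
        have h5 : (pl v0).val (algebraMap F M (f - algebraMap k F b)) 0 := by
          have := (hb v0).sub (Plc.val_alg (pl := pl v0) b)
          rw [sub_self] at this
          rw [map_sub, ← IsScalarTower.algebraMap_apply]
          exact this
        rw [ValuationSubring.mem_comap, map_inv₀] at h3
        refine Plc.notMem_of_val_inv (pl := pl v0)
          (x := (algebraMap F M (f - algebraMap k F b))⁻¹)
          (inv_ne_zero ((_root_.map_ne_zero _).2 h0)) ?_ h3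
        rw [inv_inv]
        exact h5
    · exact absurd (ValuationSubring.mem_comap.1 hf) (hb v0)
  · rintro O ⟨-, hO⟩
    exact (hO v0).symm

/-- **Local points with tame values lie over one rational place.** -/
theorem place_of_tame {k0 : Type} [Field k0] [NumberField k0] [Algebra k0 k] [Finite (𝓞 k0)ˣ]
    (hF : ∃ t : F, Transcendental k t ∧
      Algebra.IsAlgebraic (IntermediateField.adjoin k {t}) F)
    (hr : ∀ f : F, HasRoots M f) (s : GalSection k F M B)
    (pl : ∀ v : HeightOneSpectrum (𝓞 k), Plc k M (AlgebraicClosure (v.adicCompletion k)))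
    (hp : ∀ v, s.GivenBy (v.adicCompletion k) (pl v)) {x : F}
    (hx : x ∉ Set.range (algebraMap k F)) {c : Fin (Module.finrank k0 k) → k0}
    (hc : Function.Injective c)
    (hu : ∀ i, TameValues pl (x - algebraMap k F (algebraMap k0 k (c i)))) :
    ∃! O : ValuationSubring F, RationalPlace k O ∧ LieOver pl O := by
  obtain ⟨b, hb⟩ := const_of_tame s pl hp hc (fun i => hr _) hu
  refine place_of_zero hF hr s pl hp (t := x - algebraMap k F b) (fun h => hx ?_) (fun v => ?_)
  · exact ⟨b, (sub_eq_zero.1 h).symm⟩
  · have h1 := (hb v).sub (Plc.val_alg (pl := pl v) b)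
    rw [sub_self] at h1
    rw [map_sub, ← IsScalarTower.algebraMap_apply k F M]
    exact h1

/-- the local points of a section which arises from a rational point lie over it -/
theorem lieOver_of_arises (hM : RootClosed M) (s : GalSection k F M B)
    (pl : ∀ v : HeightOneSpectrum (𝓞 k), Plc k M (AlgebraicClosure (v.adicCompletion k)))
    (hp : ∀ v, s.GivenBy (v.adicCompletion k) (pl v)) {O : ValuationSubring F}
    (hs : s.ArisesFrom O) : LieOver pl O := by
  intro v
  ext f
  rw [ValuationSubring.mem_comap]
  constructor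
  · intro hf
    by_contra hfO
    have hf0 : f ≠ 0 := by
      rintro rfl
      exact hfO (zero_mem _)
    have h1 : O.valuation (f⁻¹ - algebraMap k F 0) < 1 := by
      rw [map_zero, sub_zero]
      apply (ValuationSubring.mem_nonunits_iff_or _).2
      right
      rw [inv_inv]
      exact hfO
    have h2 := value_of_ringQ hM s hs (hp v) h1
    rw [map_zero, map_inv₀] at h2
    exact Plc.notMem_of_val_inv ((_root_.map_ne_zero _).2 hf0) h2 hf
  · intro hf
    obtain ⟨a, ha⟩ := hs.2.2.1 f hf
    exact (value_of_ringQ hM s hs (hp v) ha).mem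

end Pool.Agent.V7H2.KS
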